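import Pool.Agent.H67.SR.Lin2

/-!
# Monomial ideals in the forms: spaces, relations and the flag inequality

`R = F₂[e_1,…,e_m]/(e_l²)` acts on `B` through `e_l ↦ α_l`. A family `a` of subsets of `Fin m`
stands for a monomial ideal of `R`; `Id W d α a k` is the degree `k` part of `a B`.
-/

namespace H64SRL

open Finset H67SR H67SR.SqA

set_option linter.unusedSectionVars false

/-! ### a general dimension identity -/

section General

variable {M N : Type*} [AddCommGroup M] [Module (ZMod 2) M] [Finite M]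
  [AddCommGroup N] [Module (ZMod 2) N] [Finite N]

theorem nd_gap (U : AddSubgroup M) (φ : M →+ N) (I : AddSubgroup N) :
    nd U - nd (U ⊓ I.comap φ) = nd (U.map φ ⊔ I) - nd I := by
  have h1 := nd_map U φ
  have h2 := nd_map (U ⊓ I.comap φ) φ
  have h3 : (U ⊓ I.comap φ) ⊓ φ.ker = U ⊓ φ.ker := by
    ext a
    constructor
    · rintro ⟨⟨h1, _⟩, h3⟩
      exact ⟨h1, h3⟩
    · rintro ⟨h1, h3⟩
      refine ⟨⟨h1, ?_⟩, h3⟩
      change φ a ∈ I
      rw [AddMonoidHom.mem_ker.1 h3]
      exact zero_mem _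
  have h4 : (U ⊓ I.comap φ).map φ = U.map φ ⊓ I := by
    ext b
    constructor
    · rintro ⟨a, ⟨h1, h2⟩, rfl⟩
      exact ⟨⟨a, h1, rfl⟩, h2⟩
    · rintro ⟨⟨a, h1, rfl⟩, h2⟩
      exact ⟨a, ⟨h1, h2⟩, rfl⟩
  have h5 := nd_sup_inf (U.map φ) I
  rw [h3, h4] at h2
  linarith

theorem nd_gap_mono {U V : AddSubgroup M} (h : U ≤ V) (L : AddSubgroup M) :
    nd U - nd (U ⊓ L) ≤ nd V - nd (V ⊓ L) := by
  have h1 : V ⊓ L ≤ V := inf_le_left
  have h2 := nd_two h h1
  have h3 : U ⊓ (V ⊓ L) ≤ U ⊓ L := le_inf inf_le_left (inf_le_right.trans inf_le_right)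
  have h4 := nd_mono h3
  linarith

end General

variable {σ : Type*} [DecidableEq σ] {m : ℕ}

/-- elements of `R ⊗ B` -/
abbrev Tp (m : ℕ) (σ : Type*) := Finset (Fin m) → SqA σ

/-- products of forms -/
def pr (α : Fin m → SqA σ) (S : Finset (Fin m)) : SqA σ := ∏ l ∈ S, α l

/-- elements of degree `k` of `R ⊗ B` supported on the family `a` -/
def CC (W : Finset σ) (d : ℤ) (a : Finset (Finset (Fin m))) (k : ℤ) : AddSubgroup (Tp m σ) where
  carrier := {c | ∀ S, c S ∈ H W (k - S.card * d) ∧ (S ∉ a → c S = 0)}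
  zero_mem' := fun _ => ⟨zero_mem _, fun _ => rfl⟩
  add_mem' := by
    intro x y hx hy S
    refine ⟨add_mem (hx S).1 (hy S).1, fun h => ?_⟩
    change x S + y S = 0
    rw [(hx S).2 h, (hy S).2 h, add_zero]
  neg_mem' := by
    intro x hx S
    refine ⟨neg_mem (hx S).1, fun h => ?_⟩
    change - x S = 0
    rw [(hx S).2 h, neg_zero]

theorem mem_CC {W : Finset σ} {d : ℤ} {a : Finset (Finset (Fin m))} {k : ℤ} {c : Tp m σ} :
    c ∈ CC W d a k ↔ ∀ S, c S ∈ H W (k - S.card * d) ∧ (S ∉ a → c S = 0) := Iff.rfl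

/-- evaluation `e_l ↦ α_l` -/
def ev (α : Fin m → SqA σ) : Tp m σ →+ SqA σ where
  toFun c := ∑ S, pr α S * c S
  map_zero' := Finset.sum_eq_zero fun _ _ => mul_zero _
  map_add' x y := by
    rw [← Finset.sum_add_distrib]
    exact Finset.sum_congr rfl fun _ _ => mul_add _ _ _

theorem ev_apply (α : Fin m → SqA σ) (c : Tp m σ) : ev α c = ∑ S, pr α S * c S := rfl

/-- the derivative with respect to `e_j`, evaluated -/
def dj (α : Fin m → SqA σ) (j : Fin m) : Tp m σ →+ SqA σ where
  toFun c := ∑ S ∈ Finset.univ.filter (fun S : Finset (Fin m) => j ∈ S), pr α (S.erase j) * c S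
  map_zero' := Finset.sum_eq_zero fun _ _ => mul_zero _
  map_add' x y := by
    rw [← Finset.sum_add_distrib]
    exact Finset.sum_congr rfl fun _ _ => mul_add _ _ _

theorem dj_apply (α : Fin m → SqA σ) (j : Fin m) (c : Tp m σ) : dj α j c =
    ∑ S ∈ Finset.univ.filter (fun S : Finset (Fin m) => j ∈ S), pr α (S.erase j) * c S := rfl

/-- multiplication by `f` -/
def mj (f : SqA σ) : SqA σ →+ SqA σ := AddMonoidHom.mulLeft f

theorem mj_apply (f g : SqA σ) : mj f g = f * g := rfl

/-- relations -/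
def Rel (W : Finset σ) (d : ℤ) (α : Fin m → SqA σ) (a : Finset (Finset (Fin m))) (k : ℤ) :
    AddSubgroup (Tp m σ) := CC W d a k ⊓ (ev α).ker

/-- degree `k` part of `a B` -/
def Id (W : Finset σ) (d : ℤ) (α : Fin m → SqA σ) (a : Finset (Finset (Fin m))) (k : ℤ) :
    AddSubgroup (SqA σ) := (CC W d a k).map (ev α)

theorem mem_Id_of {W : Finset σ} {d : ℤ} {α : Fin m → SqA σ} {a : Finset (Finset (Fin m))} {k : ℤ}
    {S : Finset (Fin m)} (hS : S ∈ a) {h : SqA σ} (hh : h ∈ H W (k - S.card * d)) :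
    pr α S * h ∈ Id W d α a k := by
  refine ⟨Pi.single S h, fun T => ?_, ?_⟩
  · by_cases hT : T = S
    · subst hT
      rw [Pi.single_eq_same]
      exact ⟨hh, fun h => absurd hS h⟩
    · rw [Pi.single_eq_of_ne hT]
      exact ⟨zero_mem _, fun _ => rfl⟩
  · rw [ev_apply, Finset.sum_eq_single S]
    · rw [Pi.single_eq_same]
    · intro T _ hT
      rw [Pi.single_eq_of_ne hT, mul_zero]
    · intro h
      exact absurd (Finset.mem_univ S) h

theorem ev_mem_of {W : Finset σ} {d : ℤ} {α : Fin m → SqA σ} {a : Finset (Finset (Fin m))} {k : ℤ}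
    {X : AddSubgroup (SqA σ)}
    (h : ∀ S ∈ a, ∀ f ∈ H W (k - S.card * d), pr α S * f ∈ X) {c : Tp m σ}
    (hc : c ∈ CC W d a k) : ev α c ∈ X := by
  rw [ev_apply]
  refine sum_mem fun S _ => ?_
  by_cases hS : S ∈ a
  · exact h S hS _ (hc S).1
  · rw [(hc S).2 hS, mul_zero]
    exact zero_mem _

theorem Id_le {W : Finset σ} {d : ℤ} {α : Fin m → SqA σ} {a : Finset (Finset (Fin m))} {k : ℤ}
    {X : AddSubgroup (SqA σ)}
    (h : ∀ S ∈ a, ∀ f ∈ H W (k - S.card * d), pr α S * f ∈ X) : Id W d α a k ≤ X := by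
  rintro _ ⟨c, hc, rfl⟩
  exact ev_mem_of h hc

theorem CC_mono {W : Finset σ} {d : ℤ} {a b : Finset (Finset (Fin m))} (h : a ⊆ b) (k : ℤ) :
    CC W d a k ≤ CC W d b k := fun _ hc S => ⟨(hc S).1, fun hS => (hc S).2 fun h' => hS (h h')⟩

theorem Rel_mono {W : Finset σ} {d : ℤ} {α : Fin m → SqA σ} {a b : Finset (Finset (Fin m))}
    (h : a ⊆ b) (k : ℤ) : Rel W d α a k ≤ Rel W d α b k := inf_le_inf_right _ (CC_mono h k)

theorem Id_mono {W : Finset σ} {d : ℤ} {α : Fin m → SqA σ} {a b : Finset (Finset (Fin m))}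
    (h : a ⊆ b) (k : ℤ) : Id W d α a k ≤ Id W d α b k :=
  AddSubgroup.map_mono (CC_mono h k)

theorem sum_mem_eq {A : Type*} [AddCommMonoid A] (j : Fin m) (F : Finset (Fin m) → A) :
    ∑ S ∈ Finset.univ.filter (fun S : Finset (Fin m) => j ∈ S), F S =
      ∑ T ∈ Finset.univ.filter (fun T : Finset (Fin m) => j ∉ T), F (insert j T) := by
  refine Finset.sum_nbij' (fun S => S.erase j) (fun T => insert j T) ?_ ?_ ?_ ?_ ?_
  · intro S hS
    simp
  · intro S hS
    simp
  · intro S hS
    simp only [Finset.mem_filter, Finset.mem_univ, true_and] at hS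
    exact Finset.insert_erase hS
  · intro S hS
    simp only [Finset.mem_filter, Finset.mem_univ, true_and] at hS
    exact Finset.erase_insert hS
  · intro S hS
    simp only [Finset.mem_filter, Finset.mem_univ, true_and] at hS
    rw [Finset.insert_erase hS]

theorem sum_split {A : Type*} [AddCommMonoid A] (j : Fin m) (F : Finset (Fin m) → A) :
    ∑ S, F S = ∑ T ∈ Finset.univ.filter (fun T : Finset (Fin m) => j ∉ T), F (insert j T) +
      ∑ T ∈ Finset.univ.filter (fun T : Finset (Fin m) => j ∉ T), F T := by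
  rw [← sum_mem_eq j F, Finset.sum_filter_add_sum_filter_not]

theorem pr_insert (α : Fin m → SqA σ) {j : Fin m} {T : Finset (Fin m)} (h : j ∉ T) :
    pr α (insert j T) = α j * pr α T := Finset.prod_insert h

theorem pr_erase (α : Fin m → SqA σ) {j : Fin m} {T : Finset (Fin m)} (h : j ∈ T) :
    α j * pr α (T.erase j) = pr α T := Finset.mul_prod_erase _ _ h

theorem pr_mem {W : Finset σ} {d : ℤ} {α : Fin m → SqA σ} (hα : ∀ l, α l ∈ H W d)
    (S : Finset (Fin m)) : pr α S ∈ H W (S.card * d) := by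
  induction S using Finset.induction_on with
  | empty =>
    unfold pr
    rw [Finset.prod_empty, Finset.card_empty]
    have := mono_mem_H (Finset.empty_subset W)
    rw [mono_empty] at this
    simpa using this
  | insert j S hj ih =>
    rw [pr_insert α hj, Finset.card_insert_of_notMem hj]
    have := mul_mem_H (hα j) ih
    rwa [show d + (S.card : ℤ) * d = ((S.card + 1 : ℕ) : ℤ) * d by push_cast; ring] at this

/-- the sets of `b` not containing `j` -/
def b0 (b : Finset (Finset (Fin m))) (j : Fin m) : Finset (Finset (Fin m)) :=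
  b.filter fun S => j ∉ S

/-- the sets `T` not containing `j` with `T ∪ {j}` in `b` -/
def b1 (b : Finset (Finset (Fin m))) (j : Fin m) : Finset (Finset (Fin m)) :=
  Finset.univ.filter fun T => j ∉ T ∧ insert j T ∈ b

theorem mem_b0 {b : Finset (Finset (Fin m))} {j : Fin m} {S : Finset (Fin m)} :
    S ∈ b0 b j ↔ S ∈ b ∧ j ∉ S := by
  unfold b0
  rw [Finset.mem_filter]

theorem mem_b1 {b : Finset (Finset (Fin m))} {j : Fin m} {S : Finset (Fin m)} :
    S ∈ b1 b j ↔ j ∉ S ∧ insert j S ∈ b := by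
  unfold b1
  simp

/-- the space of `w` -/
def Wsp (W : Finset σ) (d : ℤ) (α : Fin m → SqA σ) (b : Finset (Finset (Fin m))) (j : Fin m)
    (k : ℤ) : AddSubgroup (SqA σ) :=
  Id W d α (b1 b j) (k - d) ⊓ (Id W d α (b0 b j) k).comap (mj (α j))

theorem Wsp_le (W : Finset σ) (d : ℤ) (α : Fin m → SqA σ) (b : Finset (Finset (Fin m)))
    (j : Fin m) (k : ℤ) : Wsp W d α b j k ≤ (Rel W d α b k).map (dj α j) := by
  rintro w ⟨⟨c, hc, rfl⟩, ⟨c0, hc0, hc0'⟩⟩
  have hc1 : ∀ T, j ∈ T → c T = 0 := fun T hT => (hc T).2 fun h => (mem_b1.1 h).1 hT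
  have hc2 : ∀ T, j ∈ T → c0 T = 0 := fun T hT => (hc0 T).2 fun h => (mem_b0.1 h).2 hT
  set f : Tp m σ := fun S => if j ∈ S then c (S.erase j) else c0 S with hf
  have hev : ev α c = ∑ T ∈ Finset.univ.filter (fun T : Finset (Fin m) => j ∉ T),
      pr α T * c T := by
    rw [ev_apply, sum_split j]
    rw [Finset.sum_eq_zero (s := Finset.univ.filter (fun T : Finset (Fin m) => j ∉ T))
      (f := fun T => pr α (insert j T) * c (insert j T)), zero_add]
    intro T _
    rw [hc1 _ (Finset.mem_insert_self j T), mul_zero]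
  have hev0 : ev α c0 = ∑ T ∈ Finset.univ.filter (fun T : Finset (Fin m) => j ∉ T),
      pr α T * c0 T := by
    rw [ev_apply, sum_split j]
    rw [Finset.sum_eq_zero (s := Finset.univ.filter (fun T : Finset (Fin m) => j ∉ T))
      (f := fun T => pr α (insert j T) * c0 (insert j T)), zero_add]
    intro T _
    rw [hc2 _ (Finset.mem_insert_self j T), mul_zero]
  refine ⟨f, ⟨fun S => ?_, ?_⟩, ?_⟩
  · simp only [hf]
    by_cases hS : j ∈ S
    · rw [if_pos hS]
      have h1 := hc (S.erase j)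
      rw [Finset.card_erase_of_mem hS, Nat.cast_sub (Finset.card_pos.2 ⟨j, hS⟩)] at h1
      refine ⟨?_, fun h => h1.2 fun h' => h ?_⟩
      · have := h1.1
        rwa [show k - d - ((S.card : ℤ) - (1 : ℕ)) * d = k - S.card * d by push_cast; ring]
          at this
      · have := (mem_b1.1 h').2
        rwa [Finset.insert_erase hS] at this
    · rw [if_neg hS]
      exact ⟨(hc0 S).1, fun h => (hc0 S).2 fun h' => h (mem_b0.1 h').1⟩
  · change ev α f = 0
    rw [ev_apply, sum_split j]
    have h1 : ∑ T ∈ Finset.univ.filter (fun T : Finset (Fin m) => j ∉ T),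
        pr α (insert j T) * f (insert j T) = α j * ev α c := by
      rw [hev, Finset.mul_sum]
      refine Finset.sum_congr rfl fun T hT => ?_
      have hT' : j ∉ T := (Finset.mem_filter.1 hT).2
      simp only [hf]
      rw [if_pos (Finset.mem_insert_self j T), Finset.erase_insert hT', pr_insert α hT', mul_assoc]
    have h2 : ∑ T ∈ Finset.univ.filter (fun T : Finset (Fin m) => j ∉ T),
        pr α T * f T = ev α c0 := by
      rw [hev0]
      refine Finset.sum_congr rfl fun T hT => ?_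
      have hT' : j ∉ T := (Finset.mem_filter.1 hT).2
      simp only [hf]
      rw [if_neg hT']
    rw [h1, h2, hc0', mj_apply]
    exact add_self _
  · rw [dj_apply, sum_mem_eq, hev]
    refine Finset.sum_congr rfl fun T hT => ?_
    have hT' : j ∉ T := (Finset.mem_filter.1 hT).2
    simp only [hf]
    rw [if_pos (Finset.mem_insert_self j T), Finset.erase_insert hT']

variable [Fintype σ]

/-- `b'` -/
def bp (a b : Finset (Finset (Fin m))) (j : Fin m) : Finset (Finset (Fin m)) :=
  b.filter fun S => S.erase j ∈ a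

/-- the colon family -/
def col (a b : Finset (Finset (Fin m))) (j : Fin m) : Finset (Finset (Fin m)) :=
  a ∪ Finset.univ.filter fun S => insert j S ∈ b

/-- the dimension of `(a B)_k` -/
noncomputable def DD (W : Finset σ) (d : ℤ) (α : Fin m → SqA σ) (a : Finset (Finset (Fin m)))
    (k : ℤ) : ℝ := nd (Id W d α a k)

theorem flag_step {W : Finset σ} {d : ℤ} {α : Fin m → SqA σ} {a b : Finset (Finset (Fin m))}
    (hba : b ⊆ a) (j : Fin m) (k : ℤ) :
    DD W d α (bp a b j) k - DD W d α b k + DD W d α (col a b j) (k - d) - DD W d α a (k - d) ≤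
      nd (Rel W d α b k) - nd (Rel W d α b k ⊓ (Id W d α a (k - d)).comap (dj α j)) := by
  unfold DD
  -- the gap of `Rel`
  have h1 := nd_gap (Rel W d α b k) (dj α j) (Id W d α a (k - d))
  have h2 : nd (Wsp W d α b j k ⊔ Id W d α a (k - d)) ≤
      nd ((Rel W d α b k).map (dj α j) ⊔ Id W d α a (k - d)) :=
    nd_mono (sup_le_sup_right (Wsp_le W d α b j k) _)
  have h3 := nd_sup_inf (Wsp W d α b j k) (Id W d α a (k - d))
  -- the dimension of `Wsp`
  have h4 := nd_gap (Id W d α (b1 b j) (k - d)) (mj (α j)) (Id W d α (b0 b j) k)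
  have hmul : ∀ T ∈ b1 b j, ∀ f ∈ H W (k - d - T.card * d),
      α j * (pr α T * f) = pr α (insert j T) * f ∧ f ∈ H W (k - (insert j T).card * d) := by
    intro T hT f hf
    have hT' := mem_b1.1 hT
    refine ⟨by rw [pr_insert α hT'.1, mul_assoc], ?_⟩
    rw [Finset.card_insert_of_notMem hT'.1]
    rwa [show k - d - (T.card : ℤ) * d = k - ((T.card + 1 : ℕ) : ℤ) * d by push_cast; ring] at hf
  have h5 : nd ((Id W d α (b1 b j) (k - d)).map (mj (α j)) ⊔ Id W d α (b0 b j) k) ≤
      nd (Id W d α b k) := by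
    apply nd_mono
    apply sup_le
    · rw [AddSubgroup.map_le_iff_le_comap]
      apply Id_le
      intro T hT f hf
      obtain ⟨h6, h7⟩ := hmul T hT f hf
      change α j * (pr α T * f) ∈ Id W d α b k
      rw [h6]
      exact mem_Id_of (mem_b1.1 hT).2 h7
    · exact Id_mono (Finset.filter_subset _ _) k
  -- the intersection
  have h6 := nd_gap (Id W d α (b1 b j) (k - d) ⊓ Id W d α a (k - d)) (mj (α j))
    (Id W d α (b0 b j) k)
  have h7 : nd (Id W d α (bp a b j) k) ≤
      nd ((Id W d α (b1 b j) (k - d) ⊓ Id W d α a (k - d)).map (mj (α j)) ⊔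
        Id W d α (b0 b j) k) := by
    apply nd_mono
    apply Id_le
    intro S hS f hf
    have hS' := Finset.mem_filter.1 hS
    by_cases hj : j ∈ S
    · apply AddSubgroup.mem_sup_left
      have hf' : f ∈ H W (k - d - (S.erase j).card * d) := by
        rw [Finset.card_erase_of_mem hj, Nat.cast_sub (Finset.card_pos.2 ⟨j, hj⟩)]
        rwa [show k - d - ((S.card : ℤ) - (1 : ℕ)) * d = k - S.card * d by push_cast; ring]
      refine ⟨pr α (S.erase j) * f, ⟨mem_Id_of (mem_b1.2 ⟨Finset.notMem_erase j S, ?_⟩) hf',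
        mem_Id_of hS'.2 hf'⟩, ?_⟩
      · rw [Finset.insert_erase hj]
        exact hS'.1
      · change α j * (pr α (S.erase j) * f) = _
        rw [← mul_assoc, pr_erase α hj]
    · apply AddSubgroup.mem_sup_right
      exact mem_Id_of (mem_b0.2 ⟨hS'.1, hj⟩) hf
  have h8 : Wsp W d α b j k ⊓ Id W d α a (k - d) =
      (Id W d α (b1 b j) (k - d) ⊓ Id W d α a (k - d)) ⊓ (Id W d α (b0 b j) k).comap (mj (α j)) := by
    unfold Wsp
    rw [inf_assoc, inf_assoc, inf_comm ((Id W d α (b0 b j) k).comap (mj (α j)))]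
  have h9 := nd_sup_inf (Id W d α (b1 b j) (k - d)) (Id W d α a (k - d))
  have h10 : nd (Id W d α (col a b j) (k - d)) ≤
      nd (Id W d α (b1 b j) (k - d) ⊔ Id W d α a (k - d)) := by
    apply nd_mono
    apply Id_le
    intro S hS f hf
    by_cases ha : S ∈ a
    · exact AddSubgroup.mem_sup_right (mem_Id_of ha hf)
    · apply AddSubgroup.mem_sup_left
      have hS' : insert j S ∈ b := by
        unfold col at hS
        rw [Finset.mem_union, Finset.mem_filter] at hS
        rcases hS with h | h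
        · exact absurd h ha
        · exact h.2
      refine mem_Id_of (mem_b1.2 ⟨fun hj => ha ?_, hS'⟩) hf
      rw [Finset.insert_eq_of_mem hj] at hS'
      exact hba hS'
  have h11 : nd (Wsp W d α b j k) =
      nd (Id W d α (b1 b j) (k - d) ⊓ (Id W d α (b0 b j) k).comap (mj (α j))) := rfl
  rw [h8] at h3
  linarith

end H64SRL
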