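import Pool.Agent.H64.SRL.Defs

/-!
# [SRL-COMB] The combinatorial core: expanding histories lead to local families

`Up_idl`: `JJ univ` (nonempty sets) is up-closed; `proc`, `col` preserve it.
Membership in the complement (for `h' = tail`): `S ∉ proc a A ↔ S ∉ a ∨ ∃ j ∈ A, S.erase j ∉ a` (then `j ∈ S` if `S ∈ a`);
`S ∉ col a (proc a A) j ↔ S ∉ a ∧ (insert j S ∉ a ∨ ∃ i ∈ A, (insert j S).erase i ∉ a)`.
Matching predicate `Mt Bad h S`, by recursion on the history `h`:
`Mt [] S = (S = ∅)`, `Mt (P A :: h) S = Mt h S ∨ ∃ x ∈ S, x ∈ A ∧ (∀ j ∈ A, j ∉ Bad) ∧ Mt h (S.erase x)`, other operations: `Mt h S`.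
`clear`: if all colon forms `j` (of operations `C A j` in `h`) are in `Bad`, `T ⊆ Bad`, `T ∉ idl h`, `S₂` disjoint from `Bad`,
`Mt Bad h S₂`, then `T ∪ S₂ ∉ idl h`. Induction on `h`, for all `T`, `S₂`:
 * `P A`, `Mt h' S₂`: if `T ∉ idl h'` use the hypothesis for `T`; if `T.erase j ∉ idl h'`, `j ∈ A`, `j ∈ T`: hypothesis for
   `T.erase j`, and `(T ∪ S₂).erase j = T.erase j ∪ S₂` as `j ∉ S₂`.
 * `P A`, `x ∈ S₂ ∩ A`, `A` disjoint from `Bad`, `Mt h' (S₂.erase x)`: `T ∉ idl h'` (no `j ∈ A` is in `T`);
   `(T ∪ S₂).erase x = T ∪ S₂.erase x`.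
 * `C A j`: `T ∉ idl h'`, so `T ∪ S₂ ∉ idl h'`; and `insert j T ⊆ Bad`: if `insert j T ∉ idl h'` then `insert j T ∪ S₂ ∉ idl h'`; if
   `i ∈ A`, `(insert j T).erase i ∉ idl h'`: WLOG `i ∈ insert j T` (otherwise `erase` does nothing), so `i ∉ S₂`, and
   `(insert j (T ∪ S₂)).erase i = (insert j T).erase i ∪ S₂`.
`Mt_of_inj`: if `f` is injective on `S` with values positions `p < h.length`, `h[f x] = P A` with `x ∈ A`, `A` disjoint from `Bad`, then
`Mt Bad h S` (induction on `h`: does some `x ∈ S` have `f x = 0`?).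
`loc_of_expand`: `R` = set of the colon forms, `|R| ≤ nP h ≤ τ`. `N(C)` = set of the positions `p` with `h[p] = P A`, `A` meets
`C`. Let `Bad` maximise `(|C| : ℤ) - |N(C)|` among `R ⊆ C`, `|C| ≤ Q` (`Finset.exists_max_image`; `R` is admissible). Claim
`|Bad| < q1 + 1`: otherwise take `C` with `R ⊆ C ⊆ Bad`, `|C| = q1`; the number of `P`-positions whose list meets `C` but not
`R` is at most `|N(Bad)| - |N(R)| ≤ |Bad| - |R| ≤ Q` (`N` is monotone, maximality against `R`), all other `P`-positions are
counted by `miss R C h < u`; so `h.length - nP h ≤ Q + u - 1`, a contradiction to `h4`.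
Let `S` be a set with at most `q` elements, `S₂ = S \ Bad`. For `T' ⊆ S₂`: `|Bad ∪ T'| ≤ q1 + q ≤ Q`, so by maximality
`|T'| ≤ |N(Bad ∪ T')| - |N(Bad)| = |N(T') \ N(Bad)|`. Hall's theorem (`Finset.all_card_le_biUnion_card_iff_exists_injective`)
gives the injection, so `Mt Bad h S₂` by `Mt_of_inj`. Now `S ∩ Bad ∉ idl h → S ∉ idl h` by `clear`, and the converse is
`Up_idl`.
-/

namespace H64SRL

open Finset

variable {m : ℕ}

theorem Comb_mem_proc {a : Finset (Finset (Fin m))} {A : List (Fin m)} {S : Finset (Fin m)} :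
    S ∈ proc a A ↔ S ∈ a ∧ ∀ j ∈ A, S.erase j ∈ a := by
  unfold proc
  rw [Finset.mem_filter]

theorem Comb_mem_col {a b : Finset (Finset (Fin m))} {j : Fin m} {S : Finset (Fin m)} :
    S ∈ col a b j ↔ S ∈ a ∨ insert j S ∈ b := by
  unfold col
  simp

theorem Comb_up_proc {a : Finset (Finset (Fin m))} (ha : Up a) (A : List (Fin m)) :
    Up (proc a A) := by
  intro S hS T hST
  rw [Comb_mem_proc] at hS ⊢
  exact ⟨ha S hS.1 T hST, fun j hj => ha _ (hS.2 j hj) _ (Finset.erase_subset_erase j hST)⟩

theorem Up_idl (h : List (Op m)) : Up (idl h) := by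
  induction h with
  | nil =>
    intro S hS T hST
    have hS' : S ∈ JJ (m := m) Finset.univ := hS
    show T ∈ JJ (m := m) Finset.univ
    rw [mem_JJ] at hS' ⊢
    exact fun h => hS' (Finset.disjoint_of_subset_left hST h)
  | cons o h ih =>
    cases o with
    | P A => exact Comb_up_proc ih A
    | W => exact ih
    | C A j =>
      intro S hS T hST
      have hS' : S ∈ col (idl h) (proc (idl h) A) j := hS
      show T ∈ col (idl h) (proc (idl h) A) j
      rw [Comb_mem_col] at hS' ⊢
      rcases hS' with h1 | h1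
      · exact Or.inl (ih S h1 T hST)
      · exact Or.inr (Comb_up_proc ih A _ h1 _ (Finset.insert_subset_insert j hST))

/-- the matching predicate -/
def Comb_Mt (Bad : Finset (Fin m)) : List (Op m) → Finset (Fin m) → Prop
  | [], S => S = ∅
  | Op.P A :: h, S => Comb_Mt Bad h S ∨
      ∃ x ∈ S, x ∈ A ∧ (∀ j ∈ A, j ∉ Bad) ∧ Comb_Mt Bad h (S.erase x)
  | Op.W :: h, S => Comb_Mt Bad h S
  | Op.C _ _ :: h, S => Comb_Mt Bad h S

theorem Comb_clear_proc {Bad : Finset (Fin m)} {a : Finset (Finset (Fin m))} {A : List (Fin m)}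
    {S₂ : Finset (Fin m)} (hd : Disjoint S₂ Bad)
    (ih : ∀ T : Finset (Fin m), T ⊆ Bad → T ∉ a → T ∪ S₂ ∉ a) {T : Finset (Fin m)}
    (hT : T ⊆ Bad) (h : T ∉ proc a A) : T ∪ S₂ ∉ proc a A := by
  rw [Comb_mem_proc] at h ⊢
  rintro ⟨h1, h2⟩
  by_cases hTa : T ∈ a
  · apply h
    refine ⟨hTa, fun j hj => ?_⟩
    by_cases hjT : j ∈ T
    · by_contra hcon
      refine ih (T.erase j) ((Finset.erase_subset j T).trans hT) hcon ?_
      have hj2 : j ∉ S₂ := fun hj2 => (Finset.disjoint_left.1 hd) hj2 (hT hjT)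
      have h3 := h2 j hj
      rwa [Finset.erase_union_distrib, Finset.erase_eq_of_notMem hj2] at h3
    · rwa [Finset.erase_eq_of_notMem hjT]
  · exact ih T hT hTa h1

theorem Comb_clear {Bad : Finset (Fin m)} (h : List (Op m)) :
    (∀ A j, Op.C A j ∈ h → j ∈ Bad) → ∀ T S₂ : Finset (Fin m), T ⊆ Bad → T ∉ idl h →
      Disjoint S₂ Bad → Comb_Mt Bad h S₂ → T ∪ S₂ ∉ idl h := by
  induction h with
  | nil =>
    intro _ T S₂ _ hT2 _ hM
    have hM' : S₂ = ∅ := hM
    rw [hM', Finset.union_empty]
    exact hT2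
  | cons o h ih =>
    intro hcol T S₂ hT hT2 hd hM
    have ih' := ih fun A j hj => hcol A j (List.mem_cons_of_mem _ hj)
    cases o with
    | P A =>
      show T ∪ S₂ ∉ proc (idl h) A
      have hT2' : T ∉ proc (idl h) A := hT2
      rcases hM with hM | ⟨x, hx, hxA, hA, hM⟩
      · exact Comb_clear_proc hd (fun T' h1 h2 => ih' T' S₂ h1 h2 hd hM) hT hT2'
      · have hTa : T ∉ idl h := by
          intro hTa
          apply hT2'
          rw [Comb_mem_proc]
          refine ⟨hTa, fun j hj => ?_⟩
          rwa [Finset.erase_eq_of_notMem fun hjT => hA j hj (hT hjT)]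
        have h1 := ih' T (S₂.erase x) hT hTa
          (Finset.disjoint_of_subset_left (Finset.erase_subset x S₂) hd) hM
        rw [Comb_mem_proc]
        rintro ⟨-, h2⟩
        apply h1
        have h3 := h2 x hxA
        rwa [Finset.erase_union_distrib,
          Finset.erase_eq_of_notMem fun hxT => hA x hxA (hT hxT)] at h3
    | W => exact ih' T S₂ hT hT2 hd hM
    | C A j =>
      show T ∪ S₂ ∉ col (idl h) (proc (idl h) A) j
      have hT2' : T ∉ col (idl h) (proc (idl h) A) j := hT2
      have hM' : Comb_Mt Bad h S₂ := hM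
      rw [Comb_mem_col, not_or] at hT2' ⊢
      refine ⟨ih' T S₂ hT hT2'.1 hd hM', ?_⟩
      rw [← Finset.insert_union]
      exact Comb_clear_proc hd (fun T' h1 h2 => ih' T' S₂ h1 h2 hd hM')
        (Finset.insert_subset (hcol A j List.mem_cons_self) hT) hT2'.2

theorem Comb_Mt_of_inj {Bad : Finset (Fin m)} (h : List (Op m)) :
    ∀ (S : Finset (Fin m)) (f : Fin m → ℕ), (∀ x ∈ S, ∀ y ∈ S, f x = f y → x = y) →
      (∀ x ∈ S, ∃ A, h[f x]? = some (Op.P A) ∧ x ∈ A ∧ ∀ j ∈ A, j ∉ Bad) →
      Comb_Mt Bad h S := by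
  induction h with
  | nil =>
    intro S f _ hS
    show S = ∅
    by_contra hne
    obtain ⟨x, hx⟩ := Finset.nonempty_iff_ne_empty.2 hne
    obtain ⟨A, hA, _⟩ := hS x hx
    simp at hA
  | cons o h ih =>
    intro S f hinj hS
    -- the shifted function
    have key : ∀ S' : Finset (Fin m), S' ⊆ S → (∀ x ∈ S', f x ≠ 0) → Comb_Mt Bad h S' := by
      intro S' hS' h0
      refine ih S' (fun x => f x - 1) ?_ ?_
      · intro x hx y hy hxy
        have h1 := h0 x hx
        have h2 := h0 y hy
        refine hinj x (hS' hx) y (hS' hy) ?_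
        omega
      · intro x hx
        obtain ⟨A, hA, h3⟩ := hS x (hS' hx)
        refine ⟨A, ?_, h3⟩
        obtain ⟨p, hp⟩ : ∃ p, f x = p + 1 := ⟨f x - 1, by have := h0 x hx; omega⟩
        rw [hp] at hA
        simp only [hp]
        simpa using hA
    by_cases hex : ∃ x ∈ S, f x = 0
    · obtain ⟨x, hx, hx0⟩ := hex
      obtain ⟨A, hA, hxA, hAB⟩ := hS x hx
      rw [hx0] at hA
      have ho : o = Op.P A := by simpa using hA
      rw [ho]
      refine Or.inr ⟨x, hx, hxA, hAB, key _ (Finset.erase_subset x S) ?_⟩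
      intro y hy hy0
      rw [Finset.mem_erase] at hy
      exact hy.1 (hinj y hy.2 x hx (by rw [hy0, hx0]))
    · push Not at hex
      have h1 := key S (Finset.Subset.refl S) hex
      cases o with
      | P A => exact Or.inl h1
      | W => exact h1
      | C A j => exact h1

/-- the colon forms -/
def Comb_cf : List (Op m) → Finset (Fin m)
  | [] => ∅
  | Op.P _ :: h => Comb_cf h
  | Op.W :: h => Comb_cf h
  | Op.C _ j :: h => insert j (Comb_cf h)

theorem Comb_cf_card (h : List (Op m)) : (Comb_cf h).card ≤ nP h := by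
  induction h with
  | nil => exact Nat.le_refl 0
  | cons o h ih =>
    have hc : nP (o :: h) = npo o + nP h := by
      unfold nP
      rw [List.map_cons, List.sum_cons]
    rw [hc]
    cases o with
    | P A => exact le_trans ih (Nat.le_add_left _ _)
    | W => exact le_trans ih (Nat.le_add_left _ _)
    | C A j =>
      have h1 : (insert j (Comb_cf h)).card ≤ (Comb_cf h).card + 1 := Finset.card_insert_le _ _
      have h2 : npo (Op.C A j) = 1 := rfl
      rw [h2]
      show (insert j (Comb_cf h)).card ≤ 1 + nP h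
      omega

theorem Comb_mem_cf (h : List (Op m)) (A : List (Fin m)) (j : Fin m) (hj : Op.C A j ∈ h) :
    j ∈ Comb_cf h := by
  induction h with
  | nil => exact absurd hj List.not_mem_nil
  | cons o h ih =>
    rcases List.mem_cons.1 hj with h1 | h1
    · rw [← h1]
      exact Finset.mem_insert_self _ _
    · have h2 := ih h1
      cases o with
      | P A' => exact h2
      | W => exact h2
      | C A' j' => exact Finset.mem_insert_of_mem h2

/-- `o` processes a list which meets `C` -/
def Comb_mt (C : Finset (Fin m)) (o : Op m) : Prop := ∃ A, o = Op.P A ∧ ∃ j ∈ A, j ∈ C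

open Classical in
/-- the positions of the lists meeting `C` -/
noncomputable def Comb_N (h : List (Op m)) (C : Finset (Fin m)) : Finset (Fin h.length) :=
  Finset.univ.filter fun p => Comb_mt C (h[p.val])

theorem Comb_mem_N {h : List (Op m)} {C : Finset (Fin m)} {p : Fin h.length} :
    p ∈ Comb_N h C ↔ Comb_mt C (h[p.val]) := by
  classical
  unfold Comb_N
  simp

theorem Comb_N_mono (h : List (Op m)) {C C' : Finset (Fin m)} (hC : C ⊆ C') :
    Comb_N h C ⊆ Comb_N h C' := by
  intro p hp
  rw [Comb_mem_N] at hp ⊢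
  obtain ⟨A, hA, j, hj, hjC⟩ := hp
  exact ⟨A, hA, j, hj, hC hjC⟩

theorem Comb_count (h : List (Op m)) {R C : Finset (Fin m)} :
    h.length ≤ nP h + miss R C h + (Comb_N h C \ Comb_N h R).card := by
  classical
  have h1 : (nP h : ℕ) = ∑ p : Fin h.length, npo (h[p.val]) := by
    unfold nP
    rw [Fin.sum_univ_fun_getElem]
  have h2 : miss R C h = ∑ p : Fin h.length, mso R C (h[p.val]) := by
    unfold miss
    rw [Fin.sum_univ_fun_getElem]
  have h3 : (Comb_N h C \ Comb_N h R).card =
      ∑ p : Fin h.length, if p ∈ Comb_N h C \ Comb_N h R then 1 else 0 := by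
    rw [Finset.card_eq_sum_ones, ← Finset.sum_filter]
    congr 1
    ext p
    simp
  rw [h1, h2, h3, ← Finset.sum_add_distrib, ← Finset.sum_add_distrib]
  have h4 : h.length = ∑ _p : Fin h.length, 1 := by simp
  conv_lhs => rw [h4]
  refine Finset.sum_le_sum fun p _ => ?_
  have h5 : p ∈ Comb_N h C \ Comb_N h R ↔
      Comb_mt C (h[p.val]) ∧ ¬ Comb_mt R (h[p.val]) := by
    rw [Finset.mem_sdiff, Comb_mem_N, Comb_mem_N]
  rw [if_congr h5 rfl rfl]
  generalize h[p.val] = o
  cases o with
  | P A =>
    have e1 : mso R C (Op.P A) = if (∃ j ∈ A, j ∈ R) ∨ (∀ j ∈ A, j ∉ C) then 1 else 0 := rfl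
    rw [e1]
    by_cases hR : (∃ j ∈ A, j ∈ R) ∨ (∀ j ∈ A, j ∉ C)
    · rw [if_pos hR]
      omega
    · rw [not_or] at hR
      have hC : ∃ j ∈ A, j ∈ C := by
        by_contra hcon
        push Not at hcon
        exact hR.2 hcon
      have h6 : Comb_mt C (Op.P A) ∧ ¬ Comb_mt R (Op.P A) := by
        refine ⟨⟨A, rfl, hC⟩, ?_⟩
        rintro ⟨A', hA', hj⟩
        rw [Op.P.injEq] at hA'
        rw [← hA'] at hj
        exact hR.1 hj
      rw [if_pos h6]
      omega
  | W =>
    have e1 : npo (Op.W : Op m) = 1 := rfl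
    omega
  | C A j =>
    have e1 : npo (Op.C A j) = 1 := rfl
    omega

theorem loc_of_expand (h : List (Op m)) (τ u q q1 Q : ℕ) (h1 : nP h ≤ τ) (h2 : τ ≤ q1)
    (h3 : q1 + q ≤ Q) (h4 : Q + u + τ ≤ h.length)
    (h5 : ∀ R C : Finset (Fin m), R ⊆ C → R.card ≤ τ → C.card = q1 → miss R C h < u) :
    Loc Q q (idl h) := by
  classical
  obtain ⟨R, hR⟩ : ∃ R, R = Comb_cf h := ⟨_, rfl⟩
  have hRc : R.card ≤ τ := by
    rw [hR]
    exact (Comb_cf_card h).trans h1
  -- the maximiser
  obtain ⟨Bad, hBad, hmax⟩ := Finset.exists_max_image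
    (Finset.univ.filter fun C : Finset (Fin m) => R ⊆ C ∧ C.card ≤ Q)
    (fun C => (C.card : ℤ) - (Comb_N h C).card)
    ⟨R, by
      rw [Finset.mem_filter]
      exact ⟨Finset.mem_univ _, Finset.Subset.refl R, by omega⟩⟩
  rw [Finset.mem_filter] at hBad
  obtain ⟨-, hRB, hBQ⟩ := hBad
  have hmax' : ∀ C : Finset (Fin m), R ⊆ C → C.card ≤ Q →
      (C.card : ℤ) - (Comb_N h C).card ≤ (Bad.card : ℤ) - (Comb_N h Bad).card := by
    intro C hC1 hC2
    exact hmax C (Finset.mem_filter.2 ⟨Finset.mem_univ _, hC1, hC2⟩)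
  have hBq : Bad.card ≤ q1 := by
    by_contra hcon
    push Not at hcon
    obtain ⟨C, hRC, hCB, hCq⟩ := Finset.exists_subsuperset_card_eq hRB (hRc.trans h2) hcon.le
    have h6 := h5 R C hRC hRc hCq
    have h7 := Comb_count h (R := R) (C := C)
    have h8 := hmax' R (Finset.Subset.refl R) (by omega)
    have h9 : (Comb_N h C \ Comb_N h R).card ≤ (Comb_N h Bad \ Comb_N h R).card :=
      Finset.card_le_card (Finset.sdiff_subset_sdiff (Comb_N_mono h hCB) (Finset.Subset.refl _))
    have h10 := Finset.card_sdiff_add_card_eq_card (Comb_N_mono h hRB)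
    omega
  refine ⟨Bad, hBQ, fun S hS => ?_⟩
  constructor
  · -- the clearing
    intro hSi
    by_contra hcon
    have hM : Comb_Mt Bad h (S \ Bad) := by
      -- Hall
      let t : {x // x ∈ S \ Bad} → Finset (Fin h.length) :=
        fun x => Comb_N h {x.1} \ Comb_N h Bad
      have hall : ∀ s : Finset {x // x ∈ S \ Bad}, s.card ≤ (s.biUnion t).card := by
        intro s
        set T' : Finset (Fin m) := s.map (Function.Embedding.subtype _) with hT'
        have hT'S : T' ⊆ S \ Bad := by
          intro x hx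
          rw [hT', Finset.mem_map] at hx
          obtain ⟨y, -, hy⟩ := hx
          rw [← hy]
          exact y.2
        have hT'c : T'.card = s.card := by rw [hT', Finset.card_map]
        have hdisj : Disjoint Bad T' := by
          rw [Finset.disjoint_right]
          intro x hx
          exact (Finset.mem_sdiff.1 (hT'S hx)).2
        have hT'q : T'.card ≤ q := by
          refine (Finset.card_le_card hT'S).trans ((Finset.card_le_card Finset.sdiff_subset).trans hS)
        have hcu : (Bad ∪ T').card = Bad.card + T'.card := Finset.card_union_of_disjoint hdisj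
        have h6 := hmax' (Bad ∪ T') (hRB.trans Finset.subset_union_left) (by omega)
        have h7 : Comb_N h (Bad ∪ T') = Comb_N h Bad ∪ s.biUnion t := by
          ext p
          rw [Finset.mem_union, Comb_mem_N, Comb_mem_N, Finset.mem_biUnion]
          constructor
          · rintro ⟨A, hA, j, hj, hjC⟩
            by_cases hB : Comb_mt Bad (h[p.val])
            · exact Or.inl hB
            · right
              rcases Finset.mem_union.1 hjC with h8 | h8
              · exact absurd ⟨A, hA, j, hj, h8⟩ hB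
              · rw [hT', Finset.mem_map] at h8
                obtain ⟨y, hy, hyj⟩ := h8
                refine ⟨y, hy, Finset.mem_sdiff.2 ⟨?_, ?_⟩⟩
                · rw [Comb_mem_N]
                  refine ⟨A, hA, j, hj, ?_⟩
                  rw [Finset.mem_singleton]
                  exact hyj.symm
                · rw [Comb_mem_N]
                  exact hB
          · rintro (h8 | ⟨y, hy, hyp⟩)
            · obtain ⟨A, hA, j, hj, hjC⟩ := h8
              exact ⟨A, hA, j, hj, Finset.mem_union_left _ hjC⟩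
            · have h9 := (Finset.mem_sdiff.1 hyp).1
              rw [Comb_mem_N] at h9
              obtain ⟨A, hA, j, hj, hjC⟩ := h9
              refine ⟨A, hA, j, hj, Finset.mem_union_right _ ?_⟩
              rw [Finset.mem_singleton] at hjC
              rw [hjC, hT', Finset.mem_map]
              exact ⟨y, hy, rfl⟩
        have h8 : Disjoint (Comb_N h Bad) (s.biUnion t) := by
          rw [Finset.disjoint_right]
          intro p hp
          rw [Finset.mem_biUnion] at hp
          obtain ⟨y, -, hy⟩ := hp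
          exact (Finset.mem_sdiff.1 hy).2
        have h9 : (Comb_N h (Bad ∪ T')).card = (Comb_N h Bad).card + (s.biUnion t).card := by
          rw [h7, Finset.card_union_of_disjoint h8]
        rw [hcu, h9] at h6
        push_cast at h6
        omega
      obtain ⟨f, hf, hft⟩ := (Finset.all_card_le_biUnion_card_iff_exists_injective t).1 hall
      refine Comb_Mt_of_inj h (S \ Bad)
        (fun x => if hx : x ∈ S \ Bad then (f ⟨x, hx⟩).val else 0) ?_ ?_
      · intro x hx y hy hxy
        simp only [dif_pos hx, dif_pos hy] at hxy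
        have h6 := hf (Fin.ext hxy)
        exact congrArg Subtype.val h6
      · intro x hx
        simp only [dif_pos hx]
        have h6 := Finset.mem_sdiff.1 (hft ⟨x, hx⟩)
        have h7 := h6.1
        rw [Comb_mem_N] at h7
        obtain ⟨A, hA, j, hj, hjx⟩ := h7
        rw [Finset.mem_singleton] at hjx
        refine ⟨A, ?_, ?_, ?_⟩
        · rw [List.getElem?_eq_getElem (f ⟨x, hx⟩).isLt, hA]
        · have hjx' : j = x := hjx
          rw [← hjx']
          exact hj
        · intro j' hj' hjB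
          apply h6.2
          rw [Comb_mem_N]
          exact ⟨A, hA, j', hj', hjB⟩
    have h6 := Comb_clear h (fun A j hj => hRB (by rw [hR]; exact Comb_mem_cf h A j hj))
      (S ∩ Bad) (S \ Bad) Finset.inter_subset_right hcon Finset.sdiff_disjoint hM
    apply h6
    rw [Finset.union_comm, Finset.sdiff_union_inter]
    exact hSi
  · intro h6
    exact Up_idl h _ h6 _ Finset.inter_subset_left

end H64SRL
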