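import Pool.Agent.H64.SRL.ThLoc
import Pool.Agent.H64.SRL.Comb

/-!
# [SRL-BASE] The base of the recursion

`Th_le`: `Th a k ≤ ∑_{S ∈ a} hh (k - |S| d) ≤ M^k (1 + M⁻¹)^(m + |W|)` (`DD_nonneg`, `sum_all_hh_le`).
`TH_trivial`: sum over `Λ`. `TH_loc`: `Bad` from `Loc`; the `Λ` for which `Bad` is free up to `K` have `Th = 0` (`Th_local`, `rl W Λ l ∈ H W d`
by `res_mem_H`; `|S| d ≤ K < (q+1) d` gives `|S| ≤ q`), for the others use `Th_le`.
-/

namespace H64SRL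

open Finset H67SR H67SR.SqA

variable {σ : Type*} [DecidableEq σ] [Fintype σ] {m : ℕ}

theorem Th_le (W : Finset σ) {d : ℤ} (hd : 1 ≤ d) (α : Fin m → SqA σ)
    (a : Finset (Finset (Fin m))) (k : ℤ) {M : ℝ} (hM : 1 ≤ M) :
    Th W d α a k ≤ M ^ k * (1 + M⁻¹) ^ (m + W.card) := by
  have h1 : ∑ S ∈ a, hh W.card (k - S.card * d) ≤ ∑ S : Finset (Fin m), hh W.card (k - S.card * d) :=
    Finset.sum_le_sum_of_subset_of_nonneg (Finset.subset_univ _) fun _ _ _ => hh_nonneg _ _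
  have h2 := sum_all_hh_le (m := m) W.card hd k hM
  have h3 : 0 ≤ ∑ S : Finset (Fin m), DD W d α a (k - S.card * d) :=
    Finset.sum_nonneg fun _ _ => DD_nonneg _ _ _ _ _
  unfold Th
  linarith

theorem TH_trivial (W : Finset σ) {d : ℕ} (hd : 1 ≤ d) (a : Finset (Finset (Fin m))) (k : ℤ)
    {M : ℝ} (hM : 1 ≤ M) :
    TH σ m d W a k ≤ (Om σ m d).card * M ^ k * (1 + M⁻¹) ^ (m + W.card) := by
  have hd' : (1 : ℤ) ≤ d := by exact_mod_cast hd
  have h1 := Finset.sum_le_card_nsmul (Om σ m d) (fun Λ => Th W (d : ℤ) (rl W Λ) a k) _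
    fun Λ _ => Th_le W hd' (rl W Λ) a k hM
  rw [nsmul_eq_mul, ← mul_assoc] at h1
  exact h1

open Classical in
theorem TH_loc (W : Finset σ) {d : ℕ} (hd : 1 ≤ d) {a : Finset (Finset (Fin m))} (ha : Up a)
    {K Q q : ℕ} (hK : K < (q + 1) * d) (hloc : Loc Q q a) {M : ℝ} (hM : 1 ≤ M) {pA : ℝ}
    (hpA : ∀ Bad : Finset (Fin m), Bad.card ≤ Q →
      (((Om σ m d).filter fun Λ => ¬ Free W (d : ℤ) (rl W Λ) Bad (K : ℤ)).card : ℝ) ≤
        pA * (Om σ m d).card) {k : ℤ} (hk : k ≤ K) :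
    TH σ m d W a k ≤ (Om σ m d).card * M ^ k * (pA * (1 + M⁻¹) ^ (m + W.card)) := by
  have hd' : (1 : ℤ) ≤ d := by exact_mod_cast hd
  obtain ⟨Bad, hBad, hloc'⟩ := hloc
  have h0 : ∀ Λ ∈ Om σ m d, Free W (d : ℤ) (rl W Λ) Bad (K : ℤ) →
      Th W (d : ℤ) (rl W Λ) a k = 0 := by
    intro Λ hΛ hfree
    refine Th_local hd' (fun l => res_mem_H (mem_Om.1 hΛ l)) hfree ha (fun S hS => ?_) hk
    apply hloc'
    have h1 : S.card * d ≤ K := by exact_mod_cast hS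
    by_contra hlt
    have h2 : q + 1 ≤ S.card := by omega
    have h3 : (q + 1) * d ≤ S.card * d := Nat.mul_le_mul_right d h2
    omega
  have h1 : TH σ m d W a k = ∑ Λ ∈ (Om σ m d).filter
      (fun Λ => ¬ Free W (d : ℤ) (rl W Λ) Bad (K : ℤ)), Th W (d : ℤ) (rl W Λ) a k := by
    unfold TH
    symm
    apply Finset.sum_subset (Finset.filter_subset _ _)
    intro Λ hΛ hΛ'
    apply h0 Λ hΛ
    by_contra h
    exact hΛ' (Finset.mem_filter.2 ⟨hΛ, h⟩)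
  rw [h1]
  have h2 := Finset.sum_le_card_nsmul ((Om σ m d).filter
      (fun Λ => ¬ Free W (d : ℤ) (rl W Λ) Bad (K : ℤ))) (fun Λ => Th W (d : ℤ) (rl W Λ) a k) _
    fun Λ _ => Th_le W hd' (rl W Λ) a k hM
  rw [nsmul_eq_mul] at h2
  refine h2.trans ?_
  have hM0 : 0 < M := by linarith
  have h3 := mul_le_mul_of_nonneg_right (hpA Bad hBad)
    (by positivity : (0 : ℝ) ≤ M ^ k * (1 + M⁻¹) ^ (m + W.card))
  refine h3.trans (le_of_eq ?_)
  ring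

end H64SRL
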