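import Pool.Agent.H64.SRL.Dim

/-!
# [SRL-CHAIN] Chains of families

`upc Q c`: `c` is a family of subsets of `Q`, up-closed among them.
`add_one`: `c' = insert S c`, both `upc Q`, `S ∉ c`: `DD c' k ≤ DD c k + vv Q (k - |S| d)`. Indeed
`Id c' k = Id c k ⊔ (H W (k-|S|d)).map (mj (pr α S))` and `pr α S * Id (JJ Q) (k - |S| d) ⊆ Id c k`: for `T` meeting `Q` in `j`:
`j ∈ S` gives `α^S α^T h = 0` (`sq_eq_zero`), `j ∉ S` gives `α^S α^T h = α^(S ∪ {j}) (α^(T \ j) h)`, `S ∪ {j} ∈ c` (the set `S ∪ {j}` is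
in `c'` and different from `S`). Now `nd_gap` for `U = H W (k-|S|d)`, `φ = mj (pr α S)`, `I = Id c k`, and
`nd (H W _) = hh`, `nd_mono`.
`DD_le_sum`: induction on the cardinality of `c` (remove a minimal element). `DD_ge_sum`: induction on the number of
missing subsets of `Q` (add a maximal element of the complement); start: `Id (Q.powerset) k = H W k` since `∅` is
a member (`pr α ∅ = 1`), and `DD = hh`.
`hh_le_sum_vv`: `DD_ge_sum` for `c = ∅` (`DD ∅ = 0`). `DD_free`: both inequalities.
`Th_J`: `JJ univ` is the family of the nonempty sets; `DD (JJ univ) = hh - vv univ`.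
`Th_local`: let `b = a.filter (· ⊆ Q)`; `Id a k' = Id b k'` for `k' ≤ K` (`S ∈ a` with `(k' - |S| d < 0)` contributes nothing, otherwise
`|S| d ≤ K`, `S ∩ Q ∈ a` and `α^S h = α^(S ∩ Q) (α^(S \ Q) h)`, `pr_mem`, `mul_mem_H`). So
`DD a k' = ∑_{T ∈ b} vv Q (k' - |T| d)`. And `∑_{S ∈ a} hh (k - |S| d) = ∑_{T ∈ b} ∑_{U ⊆ Qᶜ} hh (k - |T| d - |U| d)` (terms with
`k - |S| d < 0` vanish; `S = T ∪ U`) `= ∑_{T ∈ b} ∑_{U ⊆ Qᶜ} ∑_{V ⊆ Q} vv Q (k - (|T| + |U| + |V|) d) = ∑_{T∈b} ∑_{S'} vv Q (k - |T|d - |S'| d)`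
`= ∑_{S'} DD a (k - |S'| d)`.
-/

namespace H64SRL

open Finset H67SR H67SR.SqA

variable {σ : Type*} [DecidableEq σ] [Fintype σ] {m : ℕ}

/-- up-closed families of subsets of `Q` -/
def Upc (Q : Finset (Fin m)) (c : Finset (Finset (Fin m))) : Prop :=
  ∀ S ∈ c, S ⊆ Q ∧ ∀ T, S ⊆ T → T ⊆ Q → T ∈ c

private theorem chain_mem_H {W : Finset σ} {d : ℤ} {α : Fin m → SqA σ}
    (hα : ∀ l, α l ∈ H W d) (S : Finset (Fin m)) {k : ℤ} {f : SqA σ}
    (hf : f ∈ H W (k - S.card * d)) : pr α S * f ∈ H W k := by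
  have h1 := mul_mem_H (pr_mem hα S) hf
  have h2 : (S.card : ℤ) * d + (k - S.card * d) = k := by ring
  rw [h2] at h1
  exact h1

theorem add_one {W : Finset σ} {d : ℤ} (hd : 1 ≤ d) {α : Fin m → SqA σ}
    (hα : ∀ l, α l ∈ H W d) {Q : Finset (Fin m)} {c : Finset (Finset (Fin m))}
    {S : Finset (Fin m)} (hc : Upc Q c) (hc' : Upc Q (insert S c)) (hS : S ∉ c) (k : ℤ) :
    DD W d α (insert S c) k ≤ DD W d α c k + vv W d α Q (k - S.card * d) := by
  have h1 := nd_gap (H W (k - S.card * d)) (mj (pr α S)) (Id W d α c k)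
  have h2 : nd (Id W d α (insert S c) k) ≤
      nd ((H W (k - S.card * d)).map (mj (pr α S)) ⊔ Id W d α c k) := by
    apply nd_mono
    apply Id_le
    intro T hT f hf
    rcases Finset.mem_insert.1 hT with h | h
    · subst h
      exact AddSubgroup.mem_sup_left ⟨f, hf, rfl⟩
    · exact AddSubgroup.mem_sup_right (mem_Id_of h hf)
  have h3 : nd (Id W d α (JJ Q) (k - S.card * d)) ≤
      nd (H W (k - S.card * d) ⊓ (Id W d α c k).comap (mj (pr α S))) := by
    apply nd_mono
    apply Id_le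
    intro T hT f hf
    refine ⟨chain_mem_H hα T hf, ?_⟩
    change pr α S * (pr α T * f) ∈ Id W d α c k
    obtain ⟨j, hjT, hjQ⟩ := Finset.not_disjoint_iff.1 (mem_JJ.1 hT)
    by_cases hjS : j ∈ S
    · have h4 : pr α S * (pr α T * f) = 0 := by
        rw [← pr_erase α hjS, ← pr_erase α hjT]
        calc α j * pr α (S.erase j) * (α j * pr α (T.erase j) * f)
            = (α j * α j) * (pr α (S.erase j) * (pr α (T.erase j) * f)) := by ring
          _ = 0 := by rw [sq_eq_zero hd (hα j), zero_mul]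
      rw [h4]
      exact zero_mem _
    · have h4 : pr α S * (pr α T * f) = pr α (insert j S) * (pr α (T.erase j) * f) := by
        rw [pr_insert α hjS, ← pr_erase α hjT]
        ring
      rw [h4]
      have h5 : insert j S ∈ c := by
        have h6 := (hc' S (Finset.mem_insert_self S c)).2 (insert j S) (Finset.subset_insert j S)
          (Finset.insert_subset hjQ (hc' S (Finset.mem_insert_self S c)).1)
        rcases Finset.mem_insert.1 h6 with h7 | h7
        · exact absurd (h7 ▸ Finset.mem_insert_self j S) hjS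
        · exact h7
      apply mem_Id_of h5
      have h8 : f ∈ H W (k - (insert j S).card * d - (T.erase j).card * d) := by
        rw [Finset.card_insert_of_notMem hjS, Finset.card_erase_of_mem hjT,
          Nat.cast_sub (Finset.card_pos.2 ⟨j, hjT⟩)]
        rwa [show k - ((S.card + 1 : ℕ) : ℤ) * d - ((T.card : ℤ) - (1 : ℕ)) * d =
          k - S.card * d - T.card * d by push_cast; ring]
      exact chain_mem_H hα _ h8
  rw [nd_H] at h1
  unfold vv DD
  linarith

private theorem chain_DD_empty (W : Finset σ) (d : ℤ) (α : Fin m → SqA σ) (k : ℤ) :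
    DD W d α ∅ k = 0 := by
  have h1 : DD W d α ∅ k ≤ 0 := by
    have h2 := nd_Rel W d α ∅ k
    rw [Finset.sum_empty] at h2
    have h3 := nd_nonneg (Rel W d α (∅ : Finset (Finset (Fin m))) k)
    linarith
  exact le_antisymm h1 (DD_nonneg _ _ _ _ _)

theorem DD_le_sum {W : Finset σ} {d : ℤ} (hd : 1 ≤ d) {α : Fin m → SqA σ}
    (hα : ∀ l, α l ∈ H W d) {Q : Finset (Fin m)} {c : Finset (Finset (Fin m))}
    (hc : Upc Q c) (k : ℤ) : DD W d α c k ≤ ∑ S ∈ c, vv W d α Q (k - S.card * d) := by
  induction hn : c.card generalizing c with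
  | zero =>
    rw [Finset.card_eq_zero] at hn
    subst hn
    rw [chain_DD_empty, Finset.sum_empty]
  | succ n ih =>
    have hne : c.Nonempty := by
      rw [← Finset.card_pos]
      omega
    obtain ⟨S, hS, hmin⟩ := Finset.exists_min_image c Finset.card hne
    have hc1 : Upc Q (c.erase S) := by
      intro T hT
      have hT' := Finset.mem_of_mem_erase hT
      refine ⟨(hc T hT').1, fun U hTU hUQ => ?_⟩
      refine Finset.mem_erase.2 ⟨?_, (hc T hT').2 U hTU hUQ⟩
      intro h
      subst h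
      have := Finset.eq_of_subset_of_card_le hTU (hmin T hT')
      exact (Finset.mem_erase.1 hT).1 this
    have h1 := ih hc1 (by rw [Finset.card_erase_of_mem hS]; omega)
    have h2 := add_one hd hα hc1 (by rwa [Finset.insert_erase hS]) (Finset.notMem_erase S c) k
    rw [Finset.insert_erase hS] at h2
    have h3 := Finset.add_sum_erase c (fun S => vv W d α Q (k - S.card * d)) hS
    linarith

theorem DD_ge_sum {W : Finset σ} {d : ℤ} (hd : 1 ≤ d) {α : Fin m → SqA σ}
    (hα : ∀ l, α l ∈ H W d) {Q : Finset (Fin m)} {c : Finset (Finset (Fin m))}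
    (hc : Upc Q c) (k : ℤ) :
    hh W.card k - ∑ S ∈ Q.powerset \ c, vv W d α Q (k - S.card * d) ≤ DD W d α c k := by
  induction hn : (Q.powerset \ c).card generalizing c with
  | zero =>
    rw [Finset.card_eq_zero] at hn
    have h0 : ∅ ∈ c := by
      by_contra h
      have : ∅ ∈ Q.powerset \ c := Finset.mem_sdiff.2 ⟨Finset.empty_mem_powerset Q, h⟩
      rw [hn] at this
      exact absurd this (Finset.notMem_empty _)
    rw [hn, Finset.sum_empty, sub_zero, ← nd_H]
    unfold DD
    apply nd_mono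
    intro f hf
    have h1 : f ∈ H W (k - ((∅ : Finset (Fin m)).card : ℤ) * d) := by
      rw [Finset.card_empty, Nat.cast_zero, zero_mul, sub_zero]
      exact hf
    have h2 := mem_Id_of (α := α) h0 h1
    have h3 : pr α (∅ : Finset (Fin m)) = 1 := Finset.prod_empty
    rwa [h3, one_mul] at h2
  | succ n ih =>
    have hne : (Q.powerset \ c).Nonempty := by
      rw [← Finset.card_pos]
      omega
    obtain ⟨S, hS, hmax⟩ := Finset.exists_max_image (Q.powerset \ c) Finset.card hne
    have hS' := Finset.mem_sdiff.1 hS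
    have hSQ : S ⊆ Q := Finset.mem_powerset.1 hS'.1
    have hc1 : Upc Q (insert S c) := by
      intro T hT
      rcases Finset.mem_insert.1 hT with h | h
      · subst h
        refine ⟨hSQ, fun U hTU hUQ => ?_⟩
        by_cases hU : U ∈ c
        · exact Finset.mem_insert_of_mem hU
        · have h1 := hmax U (Finset.mem_sdiff.2 ⟨Finset.mem_powerset.2 hUQ, hU⟩)
          have h2 := Finset.eq_of_subset_of_card_le hTU h1
          rw [← h2]
          exact Finset.mem_insert_self _ _
      · exact ⟨(hc T h).1, fun U hTU hUQ => Finset.mem_insert_of_mem ((hc T h).2 U hTU hUQ)⟩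
    have h4 : Q.powerset \ insert S c = (Q.powerset \ c).erase S := by
      ext U
      simp only [Finset.mem_sdiff, Finset.mem_insert, Finset.mem_erase, not_or]
      tauto
    have h1 := ih hc1 (by rw [h4, Finset.card_erase_of_mem hS]; omega)
    have h2 := add_one hd hα hc hc1 hS'.2 k
    rw [h4] at h1
    have h3 := Finset.add_sum_erase (Q.powerset \ c) (fun S => vv W d α Q (k - S.card * d)) hS
    linarith

theorem hh_le_sum_vv {W : Finset σ} {d : ℤ} (hd : 1 ≤ d) {α : Fin m → SqA σ}
    (hα : ∀ l, α l ∈ H W d) (Q : Finset (Fin m)) (k : ℤ) :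
    hh W.card k ≤ ∑ S ∈ Q.powerset, vv W d α Q (k - S.card * d) := by
  have h1 := DD_ge_sum hd hα (Q := Q) (c := ∅) (fun S hS => absurd hS (Finset.notMem_empty _)) k
  rw [Finset.sdiff_empty, chain_DD_empty] at h1
  linarith

theorem DD_free {W : Finset σ} {d : ℤ} (hd : 1 ≤ d) {α : Fin m → SqA σ}
    (hα : ∀ l, α l ∈ H W d) {Q : Finset (Fin m)} {K : ℤ} (hfree : Free W d α Q K)
    {c : Finset (Finset (Fin m))} (hc : Upc Q c) {k : ℤ} (hk : k ≤ K) :
    DD W d α c k = ∑ S ∈ c, vv W d α Q (k - S.card * d) := by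
  refine le_antisymm (DD_le_sum hd hα hc k) ?_
  have h1 := DD_ge_sum hd hα hc k
  rw [← hfree k hk] at h1
  have h2 : c ⊆ Q.powerset := fun S hS => Finset.mem_powerset.2 (hc S hS).1
  have h3 := Finset.sum_sdiff (f := fun S => vv W d α Q (k - S.card * d)) h2
  linarith

theorem Th_J {W : Finset σ} {d : ℤ} (α : Fin m → SqA σ) (k : ℤ) :
    Th W d α (JJ Finset.univ) k =
      ∑ S : Finset (Fin m), vv W d α Finset.univ (k - S.card * d) - hh W.card k := by
  have h1 : JJ (Finset.univ : Finset (Fin m)) = Finset.univ.erase ∅ := by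
    ext S
    rw [mem_JJ, Finset.mem_erase]
    constructor
    · intro h
      refine ⟨fun h' => h ?_, Finset.mem_univ _⟩
      subst h'
      exact Finset.disjoint_empty_left _
    · rintro ⟨h, _⟩ h'
      apply h
      rw [Finset.eq_empty_iff_forall_notMem]
      intro x hx
      exact Finset.disjoint_left.1 h' hx (Finset.mem_univ x)
  have h2 := Finset.add_sum_erase Finset.univ
    (fun S : Finset (Fin m) => hh W.card (k - S.card * d)) (Finset.mem_univ ∅)
  simp only [Finset.card_empty, Nat.cast_zero, zero_mul, sub_zero] at h2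
  have h3 : ∑ S : Finset (Fin m), vv W d α Finset.univ (k - S.card * d) =
      ∑ S : Finset (Fin m), hh W.card (k - S.card * d) -
        ∑ S : Finset (Fin m), DD W d α (JJ Finset.univ) (k - S.card * d) := by
    rw [← Finset.sum_sub_distrib]
    rfl
  unfold Th
  rw [h3]
  have h4 : ∑ S ∈ JJ (Finset.univ : Finset (Fin m)), hh W.card (k - S.card * d) =
      ∑ S ∈ Finset.univ.erase (∅ : Finset (Fin m)), hh W.card (k - S.card * d) := by
    rw [h1]
  rw [h4]
  linarith

theorem Th_J_nonneg {W : Finset σ} {d : ℤ} (hd : 1 ≤ d) {α : Fin m → SqA σ}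
    (hα : ∀ l, α l ∈ H W d) (k : ℤ) : 0 ≤ Th W d α (JJ Finset.univ) k := by
  have h1 := hh_le_sum_vv hd hα Finset.univ k
  rw [Finset.powerset_univ] at h1
  rw [Th_J]
  linarith

theorem free_of_Th_J {W : Finset σ} {d : ℤ} {α : Fin m → SqA σ} {K : ℤ}
    (h : ∀ k ≤ K, Th W d α (JJ Finset.univ) k = 0) : Free W d α Finset.univ K := by
  intro k hk
  have h1 := h k hk
  rw [Th_J] at h1
  rw [Finset.powerset_univ]
  linarith

end H64SRL
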