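import Pool.Agent.H64.SRL.Defs

/-!
# [SRL-CO] Coefficients with respect to a group of variables

`W` old variables, `X` new variables (disjoint). `co W I f` is the coefficient of `x_I` (`I ⊆ X`) in `f`,
as an element of the algebra on `W`: `(co W I f) T = f (T ∪ I)` for `T ⊆ W`.
`co_mul`: for `T ⊆ W` the subsets of `T ∪ I` are the `S' ∪ (I \ J)` with `S' ⊆ T`, `J ⊆ I`
(`Finset.sum_nbij'` on pairs); for `T ⊄ W` both sides vanish. `co_mono_mul`: special case of `co_mul`
or directly from `mono_mul_apply`: `(mono I0 * g) (T ∪ I) = if I0 ⊆ T ∪ I then g ((T ∪ I) \ I0) else 0`, and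
`I0 ⊆ T ∪ I` iff `I0 ⊆ I` iff `I0 = I` (cardinalities).
`eq_zero_of_co`: `f T = (co W (T ∩ X) f) (T ∩ W)` for `T ⊆ W ∪ X`.
`co_sum_mono`: the coefficient of `x_J` in `∑_{I ⊆ X} x_I c_I` is `c_J` if the `c_I` are supported on `W`.
-/

namespace H64SRL

open Finset H67SR H67SR.SqA

variable {σ : Type*} [DecidableEq σ] {m : ℕ}

/-- auxiliary function for `co` -/
def coFun (W I : Finset σ) (f : SqA σ) : SqA σ := fun T => if T ⊆ W then f (T ∪ I) else 0

/-- the coefficient of `x_I` -/
def co (W I : Finset σ) : SqA σ →+ SqA σ where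
  toFun f := coFun W I f
  map_zero' := by
    ext T
    unfold coFun
    simp
  map_add' f g := by
    ext T
    unfold coFun
    by_cases h : T ⊆ W <;> simp [h]

theorem co_apply (W I : Finset σ) (f : SqA σ) (T : Finset σ) :
    co W I f T = if T ⊆ W then f (T ∪ I) else 0 := rfl

theorem co_empty (W : Finset σ) (f : SqA σ) : co W ∅ f = res W f := by
  ext T
  rw [co_apply, res_apply, Finset.union_empty]

theorem co_mul {W I : Finset σ} (h : Disjoint W I) (f g : SqA σ) :
    co W I (f * g) = ∑ J ∈ I.powerset, co W (I \ J) f * co W J g := by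
  ext T
  rw [co_apply, SqA.sum_apply]
  by_cases hT : T ⊆ W
  · rw [if_pos hT, mul_apply]
    have hTI : Disjoint T I := h.mono_left hT
    have h1 : ∀ J ∈ I.powerset, (co W (I \ J) f * co W J g) T =
        ∑ S ∈ T.powerset, f (S ∪ (I \ J)) * g ((T \ S) ∪ J) := by
      intro J _
      rw [mul_apply]
      refine Finset.sum_congr rfl fun S hS => ?_
      rw [co_apply, co_apply, if_pos ((Finset.mem_powerset.1 hS).trans hT),
        if_pos (Finset.sdiff_subset.trans hT)]
    rw [Finset.sum_congr rfl h1, ← Finset.sum_product']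
    symm
    refine Finset.sum_nbij' (fun p => p.2 ∪ (I \ p.1)) (fun S => (I \ S, S ∩ T)) ?_ ?_ ?_ ?_ ?_
    · rintro ⟨J, S⟩ hp
      simp only [Finset.mem_product, Finset.mem_powerset] at hp ⊢
      exact Finset.union_subset_union hp.2 Finset.sdiff_subset
    · intro S _
      simp only [Finset.mem_product, Finset.mem_powerset]
      exact ⟨Finset.sdiff_subset, Finset.inter_subset_right⟩
    · rintro ⟨J, S⟩ hp
      simp only [Finset.mem_product, Finset.mem_powerset] at hp
      have e1 : I \ (S ∪ (I \ J)) = J := by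
        ext x
        simp only [Finset.mem_sdiff, Finset.mem_union, not_or, not_and, not_not]
        constructor
        · rintro ⟨h2, h3, h4⟩
          exact h4 h2
        · intro hx
          refine ⟨hp.1 hx, fun h5 => ?_, fun _ => hx⟩
          exact Finset.disjoint_left.1 hTI (hp.2 h5) (hp.1 hx)
      have e2 : (S ∪ (I \ J)) ∩ T = S := by
        ext x
        simp only [Finset.mem_inter, Finset.mem_union, Finset.mem_sdiff]
        constructor
        · rintro ⟨h2 | h2, h3⟩
          · exact h2
          · exact absurd h2.1 (Finset.disjoint_left.1 hTI h3)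
        · intro hx
          exact ⟨Or.inl hx, hp.2 hx⟩
      simp only [e1, e2]
    · intro S hS
      simp only [Finset.mem_powerset] at hS
      ext x
      simp only [Finset.mem_union, Finset.mem_inter, Finset.mem_sdiff, not_and, not_not]
      constructor
      · rintro (h2 | h2)
        · exact h2.1
        · exact h2.2 h2.1
      · intro hx
        rcases Finset.mem_union.1 (hS hx) with h2 | h2
        · exact Or.inl ⟨hx, h2⟩
        · exact Or.inr ⟨h2, fun _ => hx⟩
    · rintro ⟨J, S⟩ hp
      simp only [Finset.mem_product, Finset.mem_powerset] at hp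
      have e1 : (T ∪ I) \ (S ∪ (I \ J)) = (T \ S) ∪ J := by
        ext x
        simp only [Finset.mem_sdiff, Finset.mem_union, not_or, not_and, not_not]
        constructor
        · rintro ⟨h2 | h2, h3, h4⟩
          · exact Or.inl ⟨h2, h3⟩
          · exact Or.inr (h4 h2)
        · rintro (⟨h2, h3⟩ | h2)
          · exact ⟨Or.inl h2, h3, fun h5 => absurd h5 (Finset.disjoint_left.1 hTI h2)⟩
          · exact ⟨Or.inr (hp.1 h2),
              fun h5 => Finset.disjoint_left.1 hTI (hp.2 h5) (hp.1 h2), fun _ => h2⟩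
      simp only [e1]
  · rw [if_neg hT]
    symm
    refine Finset.sum_eq_zero fun J _ => ?_
    rw [mul_apply]
    refine Finset.sum_eq_zero fun S hS => ?_
    rw [co_apply, co_apply]
    by_cases h2 : S ⊆ W
    · by_cases h3 : T \ S ⊆ W
      · exfalso
        apply hT
        rw [← Finset.union_sdiff_of_subset (Finset.mem_powerset.1 hS)]
        exact Finset.union_subset h2 h3
      · rw [if_neg h3, mul_zero]
    · rw [if_neg h2, zero_mul]

theorem co_mem_H {W X I : Finset σ} (hWX : Disjoint W X) (hI : I ⊆ X) {k : ℤ} {f : SqA σ}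
    (hf : f ∈ H (W ∪ X) k) : co W I f ∈ H W (k - I.card) := by
  intro T hT
  rw [co_apply] at hT
  by_cases h : T ⊆ W
  · rw [if_pos h] at hT
    refine ⟨h, ?_⟩
    have h1 := (hf _ hT).2
    rw [Finset.card_union_of_disjoint ((hWX.mono_left h).mono_right hI)] at h1
    push_cast at h1
    linarith
  · rw [if_neg h] at hT
    exact absurd rfl hT

theorem co_mono_mul {W X I I0 : Finset σ} (hWX : Disjoint W X) (hI : I ⊆ X) (hI0 : I0 ⊆ X)
    (hc : I.card ≤ I0.card) (g : SqA σ) :
    co W I (mono I0 * g) = if I = I0 then res W g else 0 := by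
  ext T
  rw [co_apply]
  by_cases hT : T ⊆ W
  · rw [if_pos hT, mono_mul_apply]
    have h1 : I0 ⊆ T ∪ I ↔ I = I0 := by
      constructor
      · intro h2
        have h3 : I0 ⊆ I := by
          intro x hx
          rcases Finset.mem_union.1 (h2 hx) with h4 | h4
          · exact absurd (hI0 hx) (Finset.disjoint_left.1 hWX (hT h4))
          · exact h4
        exact (Finset.eq_of_subset_of_card_le h3 hc).symm
      · rintro rfl
        exact Finset.subset_union_right
    by_cases h2 : I = I0
    · rw [if_pos (h1.2 h2), if_pos h2, res_apply, if_pos hT]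
      subst h2
      congr 1
      rw [Finset.union_sdiff_right]
      exact Finset.sdiff_eq_self_of_disjoint ((hWX.mono_left hT).mono_right hI)
    · rw [if_neg (fun h3 => h2 (h1.1 h3)), if_neg h2]
      rfl
  · rw [if_neg hT]
    by_cases h2 : I = I0
    · rw [if_pos h2, res_apply, if_neg hT]
    · rw [if_neg h2]
      rfl

theorem eq_zero_of_co {W X : Finset σ} {k : ℤ} {f : SqA σ} (hf : f ∈ H (W ∪ X) k)
    (h : ∀ I ⊆ X, co W I f = 0) : f = 0 := by
  ext T
  by_contra hne
  have h1 := (hf T hne).1
  have h2 : co W (T ∩ X) f (T ∩ W) = 0 := by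
    rw [h (T ∩ X) Finset.inter_subset_right]
    rfl
  rw [co_apply, if_pos Finset.inter_subset_right, ← Finset.inter_union_distrib_left,
    Finset.inter_eq_left.2 h1] at h2
  exact hne h2

theorem co_sum_mono {W X : Finset σ} (hWX : Disjoint W X) (c : Finset σ → SqA σ)
    (hc : ∀ I, ∃ k : ℤ, c I ∈ H W k) {J : Finset σ} (hJ : J ⊆ X) :
    co W J (∑ I ∈ X.powerset, mono I * c I) = c J := by
  ext T
  rw [co_apply]
  by_cases hT : T ⊆ W
  · rw [if_pos hT, SqA.sum_apply, Finset.sum_eq_single J]
    · rw [mono_mul_apply, if_pos Finset.subset_union_right, Finset.union_sdiff_right]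
      congr 1
      exact Finset.sdiff_eq_self_of_disjoint ((hWX.mono_left hT).mono_right hJ)
    · intro I hI hIJ
      have hIX := Finset.mem_powerset.1 hI
      rw [mono_mul_apply]
      split_ifs with h1
      · by_contra hne
        obtain ⟨k, hk⟩ := hc I
        have h2 := (hk _ hne).1
        have h3 : I ⊆ J := by
          intro x hx
          rcases Finset.mem_union.1 (h1 hx) with h4 | h4
          · exact absurd (hIX hx) (Finset.disjoint_left.1 hWX (hT h4))
          · exact h4
        apply hIJ
        refine Finset.Subset.antisymm h3 fun x hx => ?_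
        by_contra hxI
        have h4 : x ∈ W := h2 (Finset.mem_sdiff.2 ⟨Finset.mem_union_right _ hx, hxI⟩)
        exact Finset.disjoint_left.1 hWX h4 (hJ hx)
      · rfl
    · intro h1
      exact absurd (Finset.mem_powerset.2 hJ) h1
  · rw [if_neg hT]
    obtain ⟨k, hk⟩ := hc J
    by_contra hne
    exact hT (hk T (Ne.symm hne)).1

theorem mono_mul_mem_H {W X I : Finset σ} (hI : I ⊆ X) {k : ℤ} {f : SqA σ}
    (hf : f ∈ H W (k - I.card)) : mono I * f ∈ H (W ∪ X) k := by
  have h1 : mono I ∈ H (W ∪ X) (I.card : ℤ) :=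
    mono_mem_H (hI.trans Finset.subset_union_right)
  have h2 : f ∈ H (W ∪ X) (k - I.card) := H_mono Finset.subset_union_left hf
  have h3 := mul_mem_H h1 h2
  rwa [show (I.card : ℤ) + (k - I.card) = k by ring] at h3

end H64SRL
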