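import Pool.Agent.H64.SRL.Alg1

/-!
# Shared definitions: expected dimensions, the defect `Th`, operations on families

`α : Fin m → SqA σ` are forms of degree `d` on the variables `W`; a family `a` of subsets of
`Fin m` stands for the ideal `a B = ∑_{S ∈ a} α^S B` (`Alg1`: `pr`, `CC`, `ev`, `Rel`, `Id`, `DD`).
-/

namespace H64SRL

open Finset H67SR H67SR.SqA

variable {σ : Type*} [DecidableEq σ] {m : ℕ}

/-- the number of squarefree monomials of degree `k` in `w` variables -/
noncomputable def hh (w : ℕ) (k : ℤ) : ℝ := if 0 ≤ k then (w.choose k.toNat : ℝ) else 0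

/-- the family of the sets meeting `Q` (the ideal generated by the forms with index in `Q`) -/
def JJ (Q : Finset (Fin m)) : Finset (Finset (Fin m)) :=
  Finset.univ.filter fun S => ¬ Disjoint S Q

theorem mem_JJ {Q S : Finset (Fin m)} : S ∈ JJ Q ↔ ¬ Disjoint S Q := by
  unfold JJ
  simp

/-- up-closed families -/
def Up (a : Finset (Finset (Fin m))) : Prop := ∀ S ∈ a, ∀ T, S ⊆ T → T ∈ a

/-- the forms restricted to `W` -/
def rl (W : Finset σ) (Λ : Fin m → SqA σ) : Fin m → SqA σ := fun l => res W (Λ l)

/-! ### operations on families -/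

/-- `a_A = {S ∈ a : S \ {j} ∈ a for all j ∈ A}` -/
def proc (a : Finset (Finset (Fin m))) (A : List (Fin m)) : Finset (Finset (Fin m)) :=
  a.filter fun S => ∀ j ∈ A, S.erase j ∈ a

/-- the pairs (prefix, next element) of a list -/
def spl : List (Fin m) → List (Fin m) → List (List (Fin m) × Fin m)
  | _, [] => []
  | pre, j :: js => (pre, j) :: spl (pre ++ [j]) js

/-- average over the `2 ^ length` sublists -/
noncomputable def avg : List (Fin m) → (List (Fin m) → ℝ) → ℝ
  | [], F => F []
  | j :: js, F => (avg js F + avg js (fun l => F (j :: l))) / 2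

/-- average over random lists: `s` slots, each of them is active with probability `1/2` and then
carries a uniformly distributed element of `Fin m` -/
noncomputable def avgS (m : ℕ) : ℕ → (List (Fin m) → ℝ) → ℝ
  | 0, F => F []
  | s + 1, F => (avgS m s F + (∑ j : Fin m, avgS m s (fun l => F (j :: l))) / m) / 2

/-- operations: processing a group (`P`), nothing (`W`), colon (`C`) -/
inductive Op (m : ℕ)
  | P (A : List (Fin m))
  | W
  | C (A : List (Fin m)) (j : Fin m)

/-- the effect of an operation on a family -/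
def app : Op m → Finset (Finset (Fin m)) → Finset (Finset (Fin m))
  | Op.P A, a => proc a A
  | Op.W, a => a
  | Op.C A j, a => col a (proc a A) j

/-- the family reached by a sequence of operations (the last operation is the head) -/
def idl : List (Op m) → Finset (Finset (Fin m))
  | [] => JJ Finset.univ
  | o :: h => app o (idl h)

/-- `1` for the operations other than `P` -/
def npo : Op m → ℕ
  | Op.P _ => 0
  | _ => 1

/-- the number of operations other than `P` -/
def nP (h : List (Op m)) : ℕ := (h.map npo).sum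

/-- `1` for the operations `P A` such that `A` meets `R` or misses `C` -/
def mso (R C : Finset (Fin m)) : Op m → ℕ
  | Op.P A => if (∃ j ∈ A, j ∈ R) ∨ (∀ j ∈ A, j ∉ C) then 1 else 0
  | _ => 0

/-- the number of operations `P A` such that `A` meets `R` or misses `C` -/
def miss (R C : Finset (Fin m)) (h : List (Op m)) : ℕ := (h.map (mso R C)).sum

/-- `a` is local: up to size `q` membership only depends on the intersection with a set of at
most `Q` forms -/
def Loc (Q q : ℕ) (a : Finset (Finset (Fin m))) : Prop :=
  ∃ Bad : Finset (Fin m), Bad.card ≤ Q ∧ ∀ S : Finset (Fin m), S.card ≤ q →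
    (S ∈ a ↔ S ∩ Bad ∈ a)

/-- the value of the recursion -/
noncomputable def VV (m s : ℕ) (z y : ℝ) (U : List (Op m) → ℝ) : ℕ → List (Op m) → ℝ
  | 0, h => U h
  | t + 1, h => avgS m s (fun A => VV m s z y U t (Op.P A :: h) +
      z * ((spl [] A).map fun p => VV m s z y U t (Op.C p.1 p.2 :: h)).sum) +
      y * VV m s z y U t (Op.W :: h)

variable [Fintype σ]

/-- `dim (B / (α_l : l ∈ Q) B)_k` -/
noncomputable def vv (W : Finset σ) (d : ℤ) (α : Fin m → SqA σ) (Q : Finset (Fin m)) (k : ℤ) : ℝ :=
  hh W.card k - DD W d α (JJ Q) k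

/-- the defect `Θ_a(k)` -/
noncomputable def Th (W : Finset σ) (d : ℤ) (α : Fin m → SqA σ) (a : Finset (Finset (Fin m)))
    (k : ℤ) : ℝ :=
  ∑ S ∈ a, hh W.card (k - S.card * d) - ∑ S : Finset (Fin m), DD W d α a (k - S.card * d)

/-- the forms with index in `Q` are free up to degree `K` -/
def Free (W : Finset σ) (d : ℤ) (α : Fin m → SqA σ) (Q : Finset (Fin m)) (K : ℤ) : Prop :=
  ∀ k ≤ K, ∑ S ∈ Q.powerset, vv W d α Q (k - S.card * d) = hh W.card k

/-- the `f` with `(∂_j f)(α) ∈ a B` for all `j ∈ A` -/
def LA (W : Finset σ) (d : ℤ) (α : Fin m → SqA σ) (a : Finset (Finset (Fin m))) (k : ℤ)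
    (A : List (Fin m)) : AddSubgroup (Tp m σ) where
  carrier := {f | ∀ j ∈ A, dj α j f ∈ Id W d α a (k - d)}
  zero_mem' := fun j _ => by
    rw [map_zero]
    exact zero_mem _
  add_mem' := by
    intro x y hx hy j hj
    rw [map_add]
    exact add_mem (hx j hj) (hy j hj)
  neg_mem' := by
    intro x hx j hj
    rw [map_neg]
    exact neg_mem (hx j hj)

variable (σ) in
/-- the sum of the defects over all tuples of forms -/
noncomputable def TH (m d : ℕ) (W : Finset σ) (a : Finset (Finset (Fin m))) (k : ℤ) : ℝ :=
  ∑ Λ ∈ Om σ m d, Th W (d : ℤ) (rl W Λ) a k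

end H64SRL
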