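import Pool.Agent.H64.SRL.Defs

/-!
# [SRL-DIM] Dimensions of the spaces

`hh_succ`: Pascal (`k < 0`, `k = 0`, `k > 0`). `sum_hh`: induction on `X` (`Finset.sum_powerset_insert`).
`hh_le`: binomial theorem: `C(w,k) (M⁻¹)^k ≤ (1 + M⁻¹)^w`. `sum_all_hh_le`: `∑_S M^(-|S| d) = (1 + M^(-d))^m`
(`Finset.sum_pow_mul_eq_add_pow` or `Fintype.sum_pow_mul_eq_add_pow`, `Finset.prod_one_add`) and `M^(-d) ≤ M⁻¹` as `d ≥ 1`.
`nd_pi`: `AddSubgroup.toZModSubmodule 2` of the product is linearly equivalent to the product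
(`Module.finrank_pi_fintype`). `nd_H`: `H W k` is equivalent to functions on the `k`-subsets of `W`.
`nd_CC`: `CC W d a k` is the product of the `H W (k - |S| d)` (`S ∈ a`) and `⊥` (`S ∉ a`).
`nd_Rel`: `nd_map` for `ev α` on `CC W d a k`.
-/

namespace H64SRL

open Finset H67SR H67SR.SqA

variable {σ : Type*} [DecidableEq σ] {m : ℕ}

theorem hh_nonneg (w : ℕ) (k : ℤ) : 0 ≤ hh w k := by
  unfold hh
  split_ifs <;> positivity

theorem hh_neg (w : ℕ) {k : ℤ} (h : k < 0) : hh w k = 0 := by
  unfold hh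
  rw [if_neg (not_le.2 h)]

theorem hh_int (w : ℕ) (k : ℤ) : ∃ z : ℤ, hh w k = z := by
  unfold hh
  split_ifs
  · exact ⟨(w.choose k.toNat : ℤ), by push_cast; rfl⟩
  · exact ⟨0, by simp⟩

theorem hh_natCast (w k : ℕ) : hh w (k : ℤ) = w.choose k := by
  unfold hh
  rw [if_pos (Int.natCast_nonneg k), Int.toNat_natCast]

theorem hh_succ (w : ℕ) (k : ℤ) : hh (w + 1) k = hh w k + hh w (k - 1) := by
  rcases lt_or_ge k 0 with h | h
  · rw [hh_neg _ h, hh_neg _ h, hh_neg _ (by omega), add_zero]
  · obtain ⟨n, rfl⟩ := Int.eq_ofNat_of_zero_le h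
    cases n with
    | zero =>
      rw [hh_natCast, hh_natCast, hh_neg _ (by omega)]
      simp
    | succ n =>
      have h1 : ((n + 1 : ℕ) : ℤ) - 1 = (n : ℤ) := by push_cast; ring
      rw [h1, hh_natCast, hh_natCast, hh_natCast, Nat.choose_succ_succ]
      push_cast
      ring

theorem sum_hh (w : ℕ) (X : Finset σ) (k : ℤ) :
    ∑ I ∈ X.powerset, hh w (k - I.card) = hh (w + X.card) k := by
  induction X using Finset.induction_on generalizing k with
  | empty => simp
  | insert x X hx ih =>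
    rw [Finset.sum_powerset_insert hx, ih, Finset.card_insert_of_notMem hx]
    have h1 : ∑ t ∈ X.powerset, hh w (k - (insert x t).card) =
        ∑ t ∈ X.powerset, hh w ((k - 1) - t.card) := by
      refine Finset.sum_congr rfl fun t ht => ?_
      have hxt : x ∉ t := fun h => hx (Finset.mem_powerset.1 ht h)
      rw [Finset.card_insert_of_notMem hxt]
      congr 1
      push_cast
      ring
    rw [h1, ih, ← add_assoc, hh_succ]

theorem hh_le (w : ℕ) (k : ℤ) {M : ℝ} (hM : 1 ≤ M) : hh w k ≤ M ^ k * (1 + M⁻¹) ^ w := by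
  have hM0 : 0 < M := by linarith
  rcases lt_or_ge k 0 with h | h
  · rw [hh_neg _ h]
    positivity
  · obtain ⟨n, rfl⟩ := Int.eq_ofNat_of_zero_le h
    rw [hh_natCast, zpow_natCast]
    rcases le_or_gt n w with hn | hn
    · have h1 : (w.choose n : ℝ) * (M⁻¹) ^ n ≤ (1 + M⁻¹) ^ w := by
        rw [add_comm (1 : ℝ), add_pow]
        have h2 := Finset.single_le_sum (f := fun m => M⁻¹ ^ m * 1 ^ (w - m) * (w.choose m : ℝ))
          (s := Finset.range (w + 1)) (fun i _ => by positivity) (Finset.mem_range.2 (Nat.lt_succ_of_le hn))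
        refine le_trans (le_of_eq ?_) h2
        simp only [one_pow, mul_one]
        ring
      have h3 : (w.choose n : ℝ) = M ^ n * ((w.choose n : ℝ) * (M⁻¹) ^ n) := by
        rw [inv_pow]
        field_simp
      rw [h3]
      exact mul_le_mul_of_nonneg_left h1 (by positivity)
    · rw [Nat.choose_eq_zero_of_lt hn, Nat.cast_zero]
      positivity

theorem sum_all_hh_le {m : ℕ} (w : ℕ) {d : ℤ} (hd : 1 ≤ d) (k : ℤ) {M : ℝ} (hM : 1 ≤ M) :
    ∑ S : Finset (Fin m), hh w (k - S.card * d) ≤ M ^ k * (1 + M⁻¹) ^ (m + w) := by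
  have hM0 : 0 < M := by linarith
  have h1 : M ^ (-d) ≤ M⁻¹ := by
    rw [← zpow_neg_one]
    exact zpow_le_zpow_right₀ hM (by omega)
  calc ∑ S : Finset (Fin m), hh w (k - S.card * d)
      ≤ ∑ S : Finset (Fin m), M ^ k * (1 + M⁻¹) ^ w *
          ((M ^ (-d)) ^ S.card * 1 ^ (Fintype.card (Fin m) - S.card)) := by
        refine Finset.sum_le_sum fun S _ => (hh_le w _ hM).trans (le_of_eq ?_)
        have h2 : M ^ (k - S.card * d) = M ^ k * (M ^ (-d)) ^ S.card := by
          rw [← zpow_natCast (M ^ (-d)), ← zpow_mul, ← zpow_add₀ hM0.ne']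
          congr 1
          ring
        rw [h2, one_pow]
        ring
    _ = M ^ k * (1 + M⁻¹) ^ w * (M ^ (-d) + 1) ^ m := by
        rw [← Finset.mul_sum, Fintype.sum_pow_mul_eq_add_pow, Fintype.card_fin]
    _ ≤ M ^ k * (1 + M⁻¹) ^ w * (1 + M⁻¹) ^ m := by
        have h3 : 0 < M ^ (-d) := zpow_pos hM0 _
        refine mul_le_mul_of_nonneg_left ?_ (by positivity)
        refine pow_le_pow_left₀ (by linarith) ?_ _
        linarith
    _ = M ^ k * (1 + M⁻¹) ^ (m + w) := by
        rw [pow_add]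
        ring

private theorem dim_card {M : Type*} [AddCommGroup M] [Module (ZMod 2) M] [Finite M]
    (A : AddSubgroup M) :
    Nat.card A = 2 ^ Module.finrank (ZMod 2) (AddSubgroup.toZModSubmodule 2 A) := by
  have h1 : Nat.card A = Nat.card (AddSubgroup.toZModSubmodule 2 A) := rfl
  rw [h1, Module.natCard_eq_pow_finrank (K := ZMod 2), Nat.card_zmod]

private theorem dim_of_card {M : Type*} [AddCommGroup M] [Module (ZMod 2) M] [Finite M]
    {A : AddSubgroup M} {n : ℕ} (h : Nat.card A = 2 ^ n) : nd A = n := by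
  rw [dim_card] at h
  unfold nd
  rw [Nat.pow_right_injective le_rfl h]

theorem nd_pi {ι : Type*} [Fintype ι] [DecidableEq ι] {A : Type*} [AddCommGroup A]
    [Module (ZMod 2) A] [Finite A] (U : ι → AddSubgroup A) :
    nd (AddSubgroup.pi Set.univ U : AddSubgroup (ι → A)) = ∑ i, nd (U i) := by
  have e : (AddSubgroup.pi Set.univ U : AddSubgroup (ι → A)) ≃ ∀ i, U i :=
    { toFun := fun f i => ⟨f.1 i, f.2 i (Set.mem_univ i)⟩
      invFun := fun g => ⟨fun i => (g i).1, fun i _ => (g i).2⟩
      left_inv := fun f => rfl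
      right_inv := fun g => rfl }
  have h1 : Nat.card (AddSubgroup.pi Set.univ U : AddSubgroup (ι → A)) =
      2 ^ (∑ i, Module.finrank (ZMod 2) (AddSubgroup.toZModSubmodule 2 (U i))) := by
    rw [Nat.card_congr e, Nat.card_pi, ← Finset.prod_pow_eq_pow_sum]
    exact Finset.prod_congr rfl fun i _ => dim_card (U i)
  rw [dim_of_card h1]
  unfold nd
  push_cast
  rfl

variable [Fintype σ]

theorem nd_H (W : Finset σ) (k : ℤ) : nd (H W k) = hh W.card k := by
  rcases lt_or_ge k 0 with h | h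
  · rw [hh_neg _ h]
    have h1 : Nat.card (H W k) = 2 ^ 0 := by
      rw [pow_zero, Nat.card_eq_one_iff_unique]
      refine ⟨⟨fun a b => ?_⟩, ⟨0⟩⟩
      have h2 : ∀ f : H W k, f.1 = 0 := by
        intro f
        funext T
        by_contra hne
        have := (f.2 T hne).2
        omega
      exact Subtype.ext ((h2 a).trans (h2 b).symm)
    rw [dim_of_card h1, Nat.cast_zero]
  · obtain ⟨n, rfl⟩ := Int.eq_ofNat_of_zero_le h
    have e : H W (n : ℤ) ≃ ({T : Finset σ // T ∈ W.powersetCard n} → ZMod 2) :=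
      { toFun := fun f T => f.1 T.1
        invFun := fun g => ⟨fun T => if h : T ∈ W.powersetCard n then g ⟨T, h⟩ else 0, by
          intro T hT
          by_cases h : T ∈ W.powersetCard n
          · rw [Finset.mem_powersetCard] at h
            exact ⟨h.1, by exact_mod_cast h.2⟩
          · exact absurd (dif_neg h) hT⟩
        left_inv := by
          rintro ⟨f, hf⟩
          apply Subtype.ext
          funext T
          change (if h : T ∈ W.powersetCard n then f T else 0) = f T
          by_cases h : T ∈ W.powersetCard n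
          · rw [dif_pos h]
          · rw [dif_neg h]
            by_contra hne
            obtain ⟨h1, h2⟩ := hf T (Ne.symm hne)
            exact h (Finset.mem_powersetCard.2 ⟨h1, by exact_mod_cast h2⟩)
        right_inv := by
          intro g
          funext T
          change (if h : T.1 ∈ W.powersetCard n then g ⟨T.1, h⟩ else 0) = g T
          rw [dif_pos T.2] }
    have h1 : Nat.card (H W (n : ℤ)) = 2 ^ (W.card.choose n) := by
      rw [Nat.card_congr e, Nat.card_fun, Nat.card_zmod, Nat.card_eq_fintype_card,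
        Fintype.card_coe, Finset.card_powersetCard]
    rw [dim_of_card h1, hh_natCast]

theorem nd_CC (W : Finset σ) (d : ℤ) (a : Finset (Finset (Fin m))) (k : ℤ) :
    nd (CC W d a k) = ∑ S ∈ a, hh W.card (k - S.card * d) := by
  have h1 : CC W d a k = AddSubgroup.pi Set.univ
      (fun S => if S ∈ a then H W (k - S.card * d) else ⊥ : Finset (Fin m) → AddSubgroup (SqA σ)) := by
    ext c
    rw [mem_CC, AddSubgroup.mem_pi]
    refine ⟨fun h S _ => ?_, fun h S => ?_⟩
    · by_cases hS : S ∈ a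
      · rw [if_pos hS]
        exact (h S).1
      · rw [if_neg hS]
        exact (h S).2 hS
    · have h2 := h S (Set.mem_univ S)
      by_cases hS : S ∈ a
      · rw [if_pos hS] at h2
        exact ⟨h2, fun h' => absurd hS h'⟩
      · rw [if_neg hS, AddSubgroup.mem_bot] at h2
        exact ⟨by rw [h2]; exact zero_mem _, fun _ => h2⟩
  rw [h1, nd_pi, ← Finset.sum_filter_add_sum_filter_not Finset.univ (fun S => S ∈ a)]
  have h2 : ∀ S ∈ Finset.univ.filter (fun S => S ∈ a),
      nd (if S ∈ a then H W (k - S.card * d) else ⊥ : AddSubgroup (SqA σ)) =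
        hh W.card (k - S.card * d) := by
    intro S hS
    rw [if_pos (Finset.mem_filter.1 hS).2, nd_H]
  have h3 : ∀ S ∈ Finset.univ.filter (fun S => ¬ S ∈ a),
      nd (if S ∈ a then H W (k - S.card * d) else ⊥ : AddSubgroup (SqA σ)) = 0 := by
    intro S hS
    rw [if_neg (Finset.mem_filter.1 hS).2]
    have h4 : Nat.card (⊥ : AddSubgroup (SqA σ)) = 2 ^ 0 := by simp
    rw [dim_of_card h4, Nat.cast_zero]
  rw [Finset.sum_congr rfl h2, Finset.sum_eq_zero h3, add_zero]
  refine Finset.sum_congr ?_ fun _ _ => rfl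
  ext S
  simp

theorem nd_Rel (W : Finset σ) (d : ℤ) (α : Fin m → SqA σ) (a : Finset (Finset (Fin m))) (k : ℤ) :
    nd (Rel W d α a k) = ∑ S ∈ a, hh W.card (k - S.card * d) - DD W d α a k := by
  have h1 := nd_map (CC W d a k) (ev α)
  rw [nd_CC] at h1
  rw [h1]
  unfold DD Rel Id
  ring

theorem DD_nonneg (W : Finset σ) (d : ℤ) (α : Fin m → SqA σ) (a : Finset (Finset (Fin m)))
    (k : ℤ) : 0 ≤ DD W d α a k := nd_nonneg _

theorem DD_le (W : Finset σ) (d : ℤ) {α : Fin m → SqA σ} (hα : ∀ l, α l ∈ H W d)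
    (a : Finset (Finset (Fin m))) (k : ℤ) : DD W d α a k ≤ hh W.card k := by
  rw [← nd_H]
  unfold DD
  apply nd_mono
  refine Id_le fun S _ f hf => ?_
  have h1 := mul_mem_H (pr_mem hα S) hf
  have h2 : (S.card : ℤ) * d + (k - S.card * d) = k := by ring
  rw [h2] at h1
  exact h1

theorem DD_int (W : Finset σ) (d : ℤ) (α : Fin m → SqA σ) (a : Finset (Finset (Fin m)))
    (k : ℤ) : ∃ z : ℤ, DD W d α a k = z := ⟨_, rfl⟩

end H64SRL
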