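import Pool.Agent.H64.SRL.Dim
import Pool.Agent.H64.SRL.Co

/-!
# [SRL-DOM] The space `Dom`

`Cpl W d α a k` is a complement of the relations `Rel W d α a k` in `CC W d a k`; `nd Cpl = DD` by `nd_map`
(`ev α` maps it isomorphically onto `Id`). Existence: complement of a subspace
(`Submodule.exists_isCompl` inside the subspace `CC`, or a linear section of `ev α : CC → Id`).
`Dom W X d α a k`: the `F ∈ CC (W ∪ X) d a k` whose coefficients at `I ≠ ∅` are in `Cpl`.
`nd_Dom`: `nd_le_of_map_le` for the map `(c_I)_I ↦ ∑_{I ⊆ X} x_I c_I` from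
`AddSubgroup.pi` in `Finset σ → Tp m σ` (factor at `∅`: `CC W d a k`, at `∅ ≠ I ⊆ X`: `Cpl ... (k - |I|)`, `⊥` otherwise);
its dimension is given by `nd_pi`; use `co_sum_mono`, `mono_mul_mem_H`.
`co_ev`: `co W I (∑_S α'^S F_S) = ∑_S ∑_{J ⊆ I} co (I \ J) (α'^S) * co J (F_S)` (`co_mul`), only `J = I` survives,
`co ∅ (α'^S) = res W (α'^S) = α^S` (`co_empty`, `map_prod`, `res_res`).
`tri`: strong induction on `I.card` with `co_ev` and `Cpl_ker`.
-/

namespace H64SRL

open Finset H67SR H67SR.SqA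

variable {σ : Type*} [DecidableEq σ] {m : ℕ}

/-- coefficients of all entries -/
def cT (W I : Finset σ) : Tp m σ →+ Tp m σ where
  toFun F := fun S => co W I (F S)
  map_zero' := funext fun _ => map_zero _
  map_add' _ _ := funext fun _ => map_add _ _ _

theorem cT_apply (W I : Finset σ) (F : Tp m σ) (S : Finset (Fin m)) :
    cT W I F S = co W I (F S) := rfl

theorem cT_mem_CC {W X I : Finset σ} (hWX : Disjoint W X) (hI : I ⊆ X) {d : ℤ}
    {a : Finset (Finset (Fin m))} {k : ℤ} {F : Tp m σ} (hF : F ∈ CC (W ∪ X) d a k) :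
    cT W I F ∈ CC W d a (k - I.card) := by
  intro S
  rw [cT_apply]
  refine ⟨?_, fun hS => by rw [(hF S).2 hS, map_zero]⟩
  have h := co_mem_H hWX hI (hF S).1
  rwa [show k - (S.card : ℤ) * d - I.card = k - I.card - S.card * d by ring] at h

theorem eq_zero_of_cT {W X : Finset σ} {d : ℤ} {a : Finset (Finset (Fin m))} {k : ℤ}
    {F : Tp m σ} (hF : F ∈ CC (W ∪ X) d a k) (h : ∀ I ⊆ X, cT W I F = 0) : F = 0 := by
  funext S
  refine eq_zero_of_co (hF S).1 fun I hI => ?_
  exact congrFun (h I hI) S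

theorem co_ev {W X I : Finset σ} (hWX : Disjoint W X) (hI : I ⊆ X) (Λ : Fin m → SqA σ)
    {F : Tp m σ} (hF : ∀ J, J ⊂ I → cT W J F = 0) :
    co W I (ev (rl (W ∪ X) Λ) F) = ev (rl W Λ) (cT W I F) := by
  have hd : Disjoint W I := hWX.mono_right hI
  rw [ev_apply, ev_apply, map_sum]
  refine Finset.sum_congr rfl fun S _ => ?_
  rw [co_mul hd, Finset.sum_eq_single I]
  · rw [Finset.sdiff_self, co_empty, cT_apply]
    congr 1
    unfold pr rl
    rw [map_prod]
    exact Finset.prod_congr rfl fun l _ => res_res Finset.subset_union_left _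
  · intro J hJ hJI
    have h1 : J ⊂ I := lt_of_le_of_ne (Finset.mem_powerset.1 hJ) hJI
    have h2 : co W J (F S) = 0 := congrFun (hF J h1) S
    rw [h2, mul_zero]
  · intro h
    exact absurd (Finset.mem_powerset.2 (Finset.Subset.refl I)) h

variable [Fintype σ]

private theorem dom_nd_bot {M : Type*} [AddCommGroup M] [Module (ZMod 2) M] [Finite M] :
    nd (⊥ : AddSubgroup M) = 0 := by
  unfold nd
  rw [show AddSubgroup.toZModSubmodule 2 (⊥ : AddSubgroup M) = ⊥ from
    (AddSubgroup.toZModSubmodule 2).map_bot, finrank_bot]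
  norm_num

private theorem dom_compl {M : Type*} [AddCommGroup M] [Module (ZMod 2) M] [Finite M]
    (R : AddSubgroup M) : ∃ D : AddSubgroup M, (∀ x, ∃ r ∈ R, ∃ y ∈ D, r + y = x) ∧
      ∀ x ∈ R, x ∈ D → x = 0 := by
  obtain ⟨D', hD'⟩ := Submodule.exists_isCompl (AddSubgroup.toZModSubmodule 2 R)
  refine ⟨(AddSubgroup.toZModSubmodule 2).symm D', fun x => ?_, fun x hx hx' => ?_⟩
  · have h : x ∈ AddSubgroup.toZModSubmodule 2 R ⊔ D' := by
      rw [hD'.sup_eq_top]
      exact Submodule.mem_top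
    obtain ⟨r, hr, y, hy, hxy⟩ := Submodule.mem_sup.1 h
    exact ⟨r, hr, y, hy, hxy⟩
  · have h : x ∈ AddSubgroup.toZModSubmodule 2 R ⊓ D' := ⟨hx, hx'⟩
    rw [hD'.inf_eq_bot] at h
    exact (Submodule.mem_bot _).1 h

theorem exists_Cpl (W : Finset σ) (d : ℤ) (α : Fin m → SqA σ) (a : Finset (Finset (Fin m)))
    (k : ℤ) : ∃ C : AddSubgroup (Tp m σ), C ≤ CC W d a k ∧ (∀ f ∈ C, ev α f = 0 → f = 0) ∧
      nd C = DD W d α a k := by
  obtain ⟨D, hD1, hD2⟩ := dom_compl (Rel W d α a k)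
  have hker : ∀ f ∈ D ⊓ CC W d a k, ev α f = 0 → f = 0 := fun f hf h0 =>
    hD2 f ⟨hf.2, h0⟩ hf.1
  refine ⟨D ⊓ CC W d a k, inf_le_right, hker, ?_⟩
  have h1 := nd_map (D ⊓ CC W d a k) (ev α)
  have h2 : (D ⊓ CC W d a k) ⊓ (ev α).ker = ⊥ := by
    rw [eq_bot_iff]
    rintro f ⟨hf, h0⟩
    exact AddSubgroup.mem_bot.2 (hker f hf h0)
  have h3 : (D ⊓ CC W d a k).map (ev α) = Id W d α a k := by
    apply le_antisymm
    · exact AddSubgroup.map_mono inf_le_right
    · rintro _ ⟨c, hc, rfl⟩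
      obtain ⟨r, hr, y, hy, hxy⟩ := hD1 c
      refine ⟨y, ⟨hy, ?_⟩, ?_⟩
      · have e : y = c - r := by rw [← hxy, add_sub_cancel_left]
        rw [e]
        exact (CC W d a k).sub_mem hc hr.1
      · rw [← hxy, map_add]
        have : ev α r = 0 := hr.2
        rw [this, zero_add]
  rw [h1, h2, dom_nd_bot, add_zero, h3]
  rfl

/-- a complement of the relations -/
noncomputable def Cpl (W : Finset σ) (d : ℤ) (α : Fin m → SqA σ) (a : Finset (Finset (Fin m)))
    (k : ℤ) : AddSubgroup (Tp m σ) := (exists_Cpl W d α a k).choose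

theorem Cpl_le (W : Finset σ) (d : ℤ) (α : Fin m → SqA σ) (a : Finset (Finset (Fin m)))
    (k : ℤ) : Cpl W d α a k ≤ CC W d a k := (exists_Cpl W d α a k).choose_spec.1

theorem Cpl_ker {W : Finset σ} {d : ℤ} {α : Fin m → SqA σ} {a : Finset (Finset (Fin m))}
    {k : ℤ} {f : Tp m σ} (hf : f ∈ Cpl W d α a k) (h : ev α f = 0) : f = 0 :=
  (exists_Cpl W d α a k).choose_spec.2.1 f hf h

theorem nd_Cpl (W : Finset σ) (d : ℤ) (α : Fin m → SqA σ) (a : Finset (Finset (Fin m)))
    (k : ℤ) : nd (Cpl W d α a k) = DD W d α a k := (exists_Cpl W d α a k).choose_spec.2.2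

/-- the restricted domain -/
def Dom (W X : Finset σ) (d : ℤ) (α : Fin m → SqA σ) (a : Finset (Finset (Fin m))) (k : ℤ) :
    AddSubgroup (Tp m σ) where
  carrier := {F | F ∈ CC (W ∪ X) d a k ∧
    ∀ I ⊆ X, I.Nonempty → cT W I F ∈ Cpl W d α a (k - I.card)}
  zero_mem' := ⟨zero_mem _, fun I _ _ => by
    rw [map_zero]
    exact zero_mem _⟩
  add_mem' := by
    rintro x y ⟨h1, h2⟩ ⟨h3, h4⟩
    refine ⟨add_mem h1 h3, fun I hI hI' => ?_⟩
    rw [map_add]
    exact add_mem (h2 I hI hI') (h4 I hI hI')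
  neg_mem' := by
    rintro x ⟨h1, h2⟩
    refine ⟨neg_mem h1, fun I hI hI' => ?_⟩
    rw [map_neg]
    exact neg_mem (h2 I hI hI')

theorem nd_Dom {W X : Finset σ} (hWX : Disjoint W X) (d : ℤ) (α : Fin m → SqA σ)
    (a : Finset (Finset (Fin m))) (k : ℤ) :
    nd (CC W d a k) + ∑ I ∈ X.powerset.erase ∅, DD W d α a (k - I.card) ≤
      nd (Dom W X d α a k) := by
  classical
  let U : Finset σ → AddSubgroup (Tp m σ) := fun I => if I = ∅ then CC W d a k else
    if I ⊆ X then Cpl W d α a (k - I.card) else ⊥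
  have hU : ∀ I, U I = if I = ∅ then CC W d a k else
    if I ⊆ X then Cpl W d α a (k - I.card) else ⊥ := fun I => rfl
  let Ψ : (Finset σ → Tp m σ) →+ Tp m σ :=
    { toFun := fun c S => ∑ I ∈ X.powerset, mono I * c I S
      map_zero' := funext fun S => Finset.sum_eq_zero fun I _ => mul_zero _
      map_add' := fun c c' => funext fun S => by
        change ∑ I ∈ X.powerset, mono I * (c I S + c' I S) = _
        simp only [mul_add, Finset.sum_add_distrib]
        rfl }
  have hΨ : ∀ c S, Ψ c S = ∑ I ∈ X.powerset, mono I * c I S := fun c S => rfl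
  have hle : ∀ c ∈ AddSubgroup.pi Set.univ U, ∀ I ⊆ X, c I ∈ CC W d a (k - I.card) := by
    intro c hc I hI
    have h1 : c I ∈ U I := hc I (Set.mem_univ I)
    rw [hU] at h1
    by_cases h2 : I = ∅
    · rw [if_pos h2] at h1
      rw [h2] at h1 ⊢
      rwa [Finset.card_empty, Nat.cast_zero, sub_zero]
    · rw [if_neg h2, if_pos hI] at h1
      exact Cpl_le _ _ _ _ _ h1
  have hout : ∀ c ∈ AddSubgroup.pi Set.univ U, ∀ I, ¬ I ⊆ X → c I = 0 := by
    intro c hc I hI
    have h1 : c I ∈ U I := hc I (Set.mem_univ I)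
    rw [hU, if_neg, if_neg hI] at h1
    · exact AddSubgroup.mem_bot.1 h1
    · rintro rfl
      exact hI (Finset.empty_subset X)
  have hco : ∀ c ∈ AddSubgroup.pi Set.univ U, ∀ J ⊆ X, cT W J (Ψ c) = c J := by
    intro c hc J hJ
    funext S
    rw [cT_apply, hΨ]
    refine co_sum_mono hWX (fun I => c I S) (fun I => ?_) hJ
    by_cases hI : I ⊆ X
    · exact ⟨_, (hle c hc I hI S).1⟩
    · refine ⟨0, ?_⟩
      rw [hout c hc I hI]
      exact zero_mem _
  have h1 : nd (AddSubgroup.pi Set.univ U) ≤ nd (Dom W X d α a k) := by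
    refine nd_le_of_map_le Ψ (fun c hc h0 => ?_) fun c hc => ⟨fun S => ⟨?_, fun hS => ?_⟩, ?_⟩
    · funext J
      by_cases hJ : J ⊆ X
      · rw [← hco c hc J hJ, h0, map_zero]
        rfl
      · exact hout c hc J hJ
    · rw [hΨ]
      refine sum_mem fun I hI => ?_
      have hI' := Finset.mem_powerset.1 hI
      apply mono_mul_mem_H hI'
      have h2 := (hle c hc I hI' S).1
      rwa [show k - (I.card : ℤ) - S.card * d = k - S.card * d - I.card by ring] at h2
    · rw [hΨ]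
      refine Finset.sum_eq_zero fun I hI => ?_
      rw [(hle c hc I (Finset.mem_powerset.1 hI) S).2 hS, mul_zero]
    · intro I hI hne
      rw [hco c hc I hI]
      have h2 : c I ∈ U I := hc I (Set.mem_univ I)
      rwa [hU, if_neg hne.ne_empty, if_pos hI] at h2
  refine le_trans (le_of_eq ?_) h1
  rw [nd_pi]
  have h2 : ∑ I, nd (U I) = ∑ I ∈ X.powerset, nd (U I) := by
    symm
    refine Finset.sum_subset (Finset.subset_univ _) fun I _ hI => ?_
    rw [hU, if_neg, if_neg (fun h => hI (Finset.mem_powerset.2 h))]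
    · exact dom_nd_bot
    · rintro rfl
      exact hI (Finset.empty_mem_powerset X)
  rw [h2, ← Finset.add_sum_erase _ _ (Finset.empty_mem_powerset X)]
  congr 1
  refine Finset.sum_congr rfl fun I hI => ?_
  obtain ⟨h3, h4⟩ := Finset.mem_erase.1 hI
  rw [hU, if_neg h3, if_pos (Finset.mem_powerset.1 h4), nd_Cpl]

theorem tri {W X : Finset σ} (hWX : Disjoint W X) {d : ℤ} {Λ : Fin m → SqA σ}
    {a : Finset (Finset (Fin m))} {k : ℤ} {F : Tp m σ} (hF : F ∈ Dom W X d (rl W Λ) a k)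
    (h0 : cT W ∅ F = 0) (r : ℕ)
    (h : ∀ I ⊆ X, I.Nonempty → I.card < r → co W I (ev (rl (W ∪ X) Λ) F) = 0) :
    ∀ I ⊆ X, I.card < r → cT W I F = 0 := by
  intro I
  induction I using Finset.strongInduction with
  | H I ih =>
    intro hI hr
    rcases Finset.eq_empty_or_nonempty I with rfl | hne
    · exact h0
    · have h1 := co_ev hWX hI Λ (F := F) fun J hJ =>
        ih J hJ (hJ.subset.trans hI) ((Finset.card_lt_card hJ).trans hr)
      rw [h I hI hne hr] at h1
      exact Cpl_ker (hF.2 I hI hne) h1.symm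

end H64SRL
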