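import Pool.Agent.H64.SRL.Reg
import Pool.Agent.H67.SR.Index

/-!
# [SRL-INDEX] The index is linear in `n`, for all tuples

`index_ineq`: transport to the model (`tr lam`, `mem_part_iff`, `Ideal.map_span`, see `not_part_subset` in H67/SR/Index.lean, and
`mem_span_iff` in Lin5.lean): every element of `H univ D` is in `IdF univ (tr lam) n`, hence (multiply: every monomial of degree
`D' ≥ D` is a product of monomials of degrees `D` and `D' - D`) `H univ D' ⊆ IdF univ (tr lam) n` for `D' ≥ D`, so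
`Id univ d (rl univ (tr lam)) (JJ univ) D' = H univ D'` (`mem_Id_low`, `low n n = univ`) and `vv univ ... univ D' = 0` (`nd_H`).
`hh_le_sum_vv` for `k = 2 D`, `Q = univ`; the terms with `2 D - |S| d ≥ D` vanish, the others are `≤ hh` (`DD_nonneg`).
-/

namespace H64SRL

open Finset H67SR H67SR.SqA

/-- expansion in monomials -/
private theorem eq_sum_mono {σ : Type*} [DecidableEq σ] [Fintype σ] (f : SqA σ) :
    f = ∑ T : Finset σ, cst (f T) * mono T := by
  ext S
  rw [SqA.sum_apply, Finset.sum_eq_single S]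
  · rw [cst_mul_apply, mono_apply, if_pos rfl, mul_one]
  · intro T _ hT
    rw [cst_mul_apply, mono_apply, if_neg (Ne.symm hT), mul_zero]
  · intro h
    exact absurd (Finset.mem_univ S) h

/-- the model of the hypothesis of `index_ineq` -/
private theorem mem_IdF_of_part {n D : ℕ} {lam : Fin n → BB n}
    (h : part n D ⊆ (Ideal.span (Set.range lam) : Set (BB n))) {f : SqA (Fin n)}
    (hf : f ∈ H (Finset.univ : Finset (Fin n)) (D : ℤ)) : f ∈ IdF Finset.univ (tr lam) n := by
  rw [← mem_span_iff]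
  have h1 : (iso n).symm f ∈ part n D := by
    rw [mem_part_iff, RingEquiv.apply_symm_apply]
    exact hf
  have h2 := Ideal.mem_map_of_mem (iso n) (h h1)
  rw [RingEquiv.apply_symm_apply, Ideal.map_span] at h2
  refine Ideal.span_mono ?_ h2
  rintro _ ⟨_, ⟨j, rfl⟩, rfl⟩
  exact ⟨j, j.2, rfl⟩

private theorem mem_IdF_of_ge {n D D' : ℕ} (hD : D ≤ D') {Λ : Fin n → SqA (Fin n)}
    (h : ∀ f ∈ H (Finset.univ : Finset (Fin n)) (D : ℤ), f ∈ IdF Finset.univ Λ n)
    {f : SqA (Fin n)} (hf : f ∈ H (Finset.univ : Finset (Fin n)) (D' : ℤ)) :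
    f ∈ IdF Finset.univ Λ n := by
  rw [eq_sum_mono f]
  refine sum_mem fun T _ => ?_
  by_cases hT : f T = 0
  · rw [hT, map_zero, zero_mul]
    exact zero_mem _
  · have hc : T.card = D' := by exact_mod_cast (hf T hT).2
    obtain ⟨T1, hT1, hT1c⟩ := Finset.exists_subset_card_eq (s := T) (n := D) (by omega)
    have h1 : mono T = mono (T \ T1) * mono T1 := by
      rw [mono_mul_mono Finset.sdiff_disjoint, Finset.sdiff_union_of_subset hT1]
    rw [h1]
    apply mul_mem_IdF
    apply mul_mem_IdF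
    apply h
    have := mono_mem_H (Finset.subset_univ T1)
    rwa [hT1c] at this

theorem index_ineq {n d D : ℕ} (hd : 1 ≤ d) {lam : Fin n → BB n} (hlam : lam ∈ tup n n d)
    (h : part n D ⊆ (Ideal.span (Set.range lam) : Set (BB n))) :
    hh n ((2 * D : ℕ) : ℤ) ≤ ∑ S ∈ (Finset.univ : Finset (Finset (Fin n))).filter
      (fun S => D < S.card * d), hh n (((2 * D : ℕ) : ℤ) - S.card * (d : ℤ)) := by
  have hd' : (1 : ℤ) ≤ d := by exact_mod_cast hd
  have hΛ : ∀ l, tr lam l ∈ H (Finset.univ : Finset (Fin n)) (d : ℤ) :=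
    mem_Om.1 (tr_mem_Om hlam)
  have hα : ∀ l, rl (Finset.univ : Finset (Fin n)) (tr lam) l ∈
      H (Finset.univ : Finset (Fin n)) (d : ℤ) := fun l => res_mem_H (hΛ l)
  have hcard : (Finset.univ : Finset (Fin n)).card = n := by
    rw [Finset.card_univ, Fintype.card_fin]
  have hlow : low n n = Finset.univ := by
    unfold low
    rw [Finset.filter_true_of_mem]
    intro l _
    exact l.2
  have hvv : ∀ k : ℤ, (D : ℤ) ≤ k → vv (Finset.univ : Finset (Fin n)) (d : ℤ)
      (rl Finset.univ (tr lam)) Finset.univ k = 0 := by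
    intro k hk
    obtain ⟨k', rfl⟩ := Int.eq_ofNat_of_zero_le (by omega : 0 ≤ k)
    have h1 : Id (Finset.univ : Finset (Fin n)) (d : ℤ) (rl Finset.univ (tr lam))
        (JJ Finset.univ) (k' : ℤ) = H Finset.univ (k' : ℤ) := by
      ext f
      have h2 := mem_Id_low (W := (Finset.univ : Finset (Fin n))) hd' hΛ n (k' : ℤ) f
      rw [hlow] at h2
      rw [h2]
      constructor
      · exact fun h => h.2
      · intro h3
        exact ⟨mem_IdF_of_ge (by omega) (fun f hf => mem_IdF_of_part h hf) h3, h3⟩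
    unfold vv DD
    rw [h1, nd_H, sub_self]
  have h1 := hh_le_sum_vv hd' hα Finset.univ ((2 * D : ℕ) : ℤ)
  rw [hcard, Finset.powerset_univ] at h1
  refine h1.trans ?_
  rw [← Finset.sum_filter_add_sum_filter_not Finset.univ (fun S : Finset (Fin n) => D < S.card * d)]
  have h2 : ∑ S ∈ (Finset.univ : Finset (Finset (Fin n))).filter (fun S => ¬ D < S.card * d),
      vv (Finset.univ : Finset (Fin n)) (d : ℤ) (rl Finset.univ (tr lam)) Finset.univ
        (((2 * D : ℕ) : ℤ) - S.card * (d : ℤ)) = 0 := by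
    apply Finset.sum_eq_zero
    intro S hS
    apply hvv
    have h3 := not_lt.1 (Finset.mem_filter.1 hS).2
    have h4 : ((S.card : ℤ) * (d : ℤ)) ≤ D := by exact_mod_cast h3
    push_cast
    linarith
  rw [h2, add_zero]
  refine Finset.sum_le_sum fun S _ => ?_
  unfold vv
  rw [hcard]
  have := DD_nonneg (Finset.univ : Finset (Fin n)) (d : ℤ) (rl Finset.univ (tr lam))
    (JJ Finset.univ) (((2 * D : ℕ) : ℤ) - S.card * (d : ℤ))
  linarith

end H64SRL
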