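import Pool.Agent.H64.SRL.Dim
import Pool.Agent.H67.SR.Index

/-!
# [SRL-INDEXNUM] The numerical inequality for the index

The sum is `∑_{p : p d > D} C(n,p) C(n, 2D - pd)` (terms with `p d > 2 D` vanish). `K = 2 D ≤ 2 c n`.
`choose_mul_le` (H67/SR/Index.lean): `C(n, K - pd) ≤ C(n, K) (K / (n - K + 1))^(pd) ≤ C(n,K) (2K/n)^(pd)` for `2 K ≤ n`;
`C(n,p) ≤ n^p / p! ≤ (3 n / p)^p` (`Real.pow_div_factorial_le_exp`: `p^p / p! ≤ exp p ≤ 3^p`) `≤ (6 d n / K)^p` as `p ≥ K / (2d)`.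
So the term is at most `C(n,K) [6 d 2^d (K/n)^(d-1)]^p ≤ C(n,K) 4^(-p)` when `6 d 2^d (2 c) ≤ 1/4` (`d ≥ 2`, `K / n ≤ 2 c ≤ 1`).
`∑_{p ≥ 1} 4^(-p) = 1/3 < 1`, `p ≥ 1` because `p d > D ≥ 0`. Here `D ≥ 0` is arbitrary (for `D = 0` all terms vanish), and
`C(n,K) > 0`. Take `c = 1 / (48 d 2^d)`.
-/

namespace H64SRL

open Finset H67SR H67SR.SqA

private theorem idx_choose_le (n p : ℕ) (hp : 1 ≤ p) :
    (n.choose p : ℝ) ≤ (3 * n / p) ^ p := by
  have hp0 : (0 : ℝ) < p := by exact_mod_cast hp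
  have h1 : (n.choose p : ℝ) ≤ (n : ℝ) ^ p / (p.factorial : ℝ) := Nat.choose_le_pow_div p n
  have h2 : (p : ℝ) ^ p / (p.factorial : ℝ) ≤ Real.exp p :=
    Real.pow_div_factorial_le_exp (p : ℝ) hp0.le p
  have h3 : Real.exp p ≤ 3 ^ p := by
    have h4 : Real.exp (p : ℝ) = Real.exp 1 ^ p := by
      rw [← Real.exp_nat_mul, mul_one]
    rw [h4]
    have h5 : Real.exp 1 ≤ 3 := by
      have := Real.exp_one_lt_d9
      linarith
    exact pow_le_pow_left₀ (Real.exp_pos 1).le h5 p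
  have hf : (0 : ℝ) < (p.factorial : ℝ) := by exact_mod_cast Nat.factorial_pos p
  have h6 : (n : ℝ) ^ p / (p.factorial : ℝ) = (n / p : ℝ) ^ p * ((p : ℝ) ^ p / (p.factorial : ℝ)) := by
    rw [div_pow]
    field_simp
  have h7 : (0 : ℝ) ≤ (n / p : ℝ) ^ p := by positivity
  calc (n.choose p : ℝ) ≤ (n / p : ℝ) ^ p * ((p : ℝ) ^ p / (p.factorial : ℝ)) := by rw [← h6]; exact h1
    _ ≤ (n / p : ℝ) ^ p * 3 ^ p := mul_le_mul_of_nonneg_left (h2.trans h3) h7
    _ = (3 * n / p) ^ p := by rw [← mul_pow]; ring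

private theorem idx_term {d n K p : ℕ} (hd : 2 ≤ d) (hK : 1 ≤ K) (hp : 1 ≤ p)
    (hKn : (K : ℝ) ≤ 1 / (24 * d * 2 ^ d) * n) (h1 : K ≤ 2 * (p * d)) (h2 : p * d ≤ K) :
    (n.choose p : ℝ) * (n.choose (K - p * d) : ℝ) ≤ (n.choose K : ℝ) * (1 / 4) ^ p := by
  have hd0 : (0 : ℝ) < d := by exact_mod_cast (by omega : 0 < d)
  have hK0 : (0 : ℝ) < K := by exact_mod_cast hK
  have hp0 : (0 : ℝ) < p := by exact_mod_cast hp
  have hn0 : (0 : ℝ) < n := by
    by_contra hcon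
    have : (n : ℝ) = 0 := le_antisymm (not_lt.1 hcon) (Nat.cast_nonneg n)
    rw [this, mul_zero] at hKn
    linarith
  have hpow : (1 : ℝ) ≤ 2 ^ d := one_le_pow₀ (by norm_num)
  have hdd : (2 : ℝ) ≤ d := by exact_mod_cast hd
  have hcc : (48 : ℝ) ≤ 24 * d * 2 ^ d := by nlinarith
  have h3 : (K : ℝ) ≤ n / 48 := by
    refine hKn.trans ?_
    rw [div_mul_eq_mul_div, one_mul]
    gcongr
  have hKn' : K ≤ n := by
    have : (K : ℝ) ≤ n := by linarith
    exact_mod_cast this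
  -- the ratio
  have h4 := choose_mul_le n K hKn' (p * d) h2
  have h5 : (n.choose (K - p * d) : ℝ) * ((n - K + 1 : ℕ) : ℝ) ^ (p * d)
      ≤ (n.choose K : ℝ) * (K : ℝ) ^ (p * d) := by exact_mod_cast h4
  have h6 : (n : ℝ) / 2 ≤ ((n - K + 1 : ℕ) : ℝ) := by
    rw [Nat.cast_add, Nat.cast_sub hKn', Nat.cast_one]
    linarith
  have h7 : (n.choose (K - p * d) : ℝ) * ((n : ℝ) / 2) ^ (p * d)
      ≤ (n.choose K : ℝ) * (K : ℝ) ^ (p * d) := by
    refine le_trans ?_ h5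
    gcongr
  have h8 : (n.choose (K - p * d) : ℝ) ≤ (n.choose K : ℝ) * (2 * K / n) ^ (p * d) := by
    have hpos : (0 : ℝ) < ((n : ℝ) / 2) ^ (p * d) := by positivity
    have e1 : (n.choose K : ℝ) * (2 * K / n) ^ (p * d) * ((n : ℝ) / 2) ^ (p * d)
        = (n.choose K : ℝ) * (K : ℝ) ^ (p * d) := by
      rw [mul_assoc, ← mul_pow]
      congr 2
      field_simp
    refine le_of_mul_le_mul_right ?_ hpos
    rw [e1]
    exact h7
  have h9 : (n.choose p : ℝ) ≤ (6 * d * n / K) ^ p := by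
    refine (idx_choose_le n p hp).trans ?_
    have h10 : (K : ℝ) ≤ 2 * (p * d) := by exact_mod_cast h1
    have h11 : (3 * n / p : ℝ) ≤ 6 * d * n / K := by
      rw [div_le_div_iff₀ hp0 hK0]
      nlinarith
    exact pow_le_pow_left₀ (by positivity) h11 p
  have h12 : (6 * d * n / K : ℝ) * (2 * K / n) ^ d ≤ 1 / 4 := by
    obtain ⟨e, rfl⟩ : ∃ e, d = e + 2 := ⟨d - 2, by omega⟩
    have hx : (K / n : ℝ) ≤ 1 / (24 * ((e + 2 : ℕ) : ℝ) * 2 ^ (e + 2)) := by
      rw [div_le_iff₀ hn0]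
      exact hKn
    have hx0 : (0 : ℝ) ≤ K / n := by positivity
    have hx1 : (K / n : ℝ) ≤ 1 := by
      rw [div_le_one hn0]
      linarith
    have e1 : (6 * ((e + 2 : ℕ) : ℝ) * n / K : ℝ) * (2 * K / n) ^ (e + 2)
        = 6 * ((e + 2 : ℕ) : ℝ) * 2 ^ (e + 2) * ((K / n) * (K / n) ^ e) := by
      have e2 : (2 * K / n : ℝ) ^ (e + 2) = 2 ^ (e + 2) * ((K / n) ^ 2 * (K / n) ^ e) := by
        rw [← pow_add, mul_div_assoc, mul_pow]
        congr 2
        omega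
      rw [e2]
      field_simp
    rw [e1]
    have h13 : (K / n : ℝ) * (K / n) ^ e ≤ 1 / (24 * ((e + 2 : ℕ) : ℝ) * 2 ^ (e + 2)) := by
      calc (K / n : ℝ) * (K / n) ^ e ≤ (K / n : ℝ) * 1 := by
            gcongr
            exact pow_le_one₀ hx0 hx1
        _ = (K / n : ℝ) := mul_one _
        _ ≤ _ := hx
    calc 6 * ((e + 2 : ℕ) : ℝ) * 2 ^ (e + 2) * ((K / n) * (K / n) ^ e)
        ≤ 6 * ((e + 2 : ℕ) : ℝ) * 2 ^ (e + 2) * (1 / (24 * ((e + 2 : ℕ) : ℝ) * 2 ^ (e + 2))) := by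
          gcongr
      _ = 1 / 4 := by field_simp; norm_num
  calc (n.choose p : ℝ) * (n.choose (K - p * d) : ℝ)
      ≤ (6 * d * n / K) ^ p * ((n.choose K : ℝ) * (2 * K / n) ^ (p * d)) := by gcongr
    _ = (n.choose K : ℝ) * ((6 * d * n / K) * (2 * K / n) ^ d) ^ p := by
        rw [mul_pow, ← pow_mul, mul_comm p d]
        ring
    _ ≤ (n.choose K : ℝ) * (1 / 4) ^ p := by gcongr

private theorem idx_geom (n : ℕ) : ∑ p ∈ Finset.range n, ((1 : ℝ) / 4) ^ (p + 1) < 1 := by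
  have h1 : ∀ m : ℕ, ∑ p ∈ Finset.range m, ((1 : ℝ) / 4) ^ (p + 1)
      = (1 - (1 / 4) ^ m) / 3 := by
    intro m
    induction m with
    | zero => simp
    | succ m ih =>
      rw [Finset.sum_range_succ, ih]
      ring
  rw [h1]
  have h2 : (0 : ℝ) < (1 / 4) ^ n := by positivity
  linarith

theorem index_num {d : ℕ} (hd : 2 ≤ d) : ∃ c : ℝ, 0 < c ∧ ∀ n : ℕ, 1 ≤ n → ∀ D : ℕ,
    (D : ℝ) ≤ c * n → ∑ S ∈ (Finset.univ : Finset (Finset (Fin n))).filter
      (fun S => D < S.card * d), hh n (((2 * D : ℕ) : ℤ) - S.card * (d : ℤ)) <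
        hh n ((2 * D : ℕ) : ℤ) := by
  have hd0 : (0 : ℝ) < d := by exact_mod_cast (by omega : 0 < d)
  refine ⟨1 / (48 * d * 2 ^ d), by positivity, ?_⟩
  intro n hn D hD
  have hn0 : (0 : ℝ) < n := by exact_mod_cast hn
  set f : ℕ → ℝ := fun p => if D < p * d then hh n (((2 * D : ℕ) : ℤ) - p * (d : ℤ)) else 0
    with hf
  have e1 : ∑ S ∈ (Finset.univ : Finset (Finset (Fin n))).filter
      (fun S => D < S.card * d), hh n (((2 * D : ℕ) : ℤ) - S.card * (d : ℤ))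
      = ∑ p ∈ Finset.range (n + 1), n.choose p • f p := by
    rw [Finset.sum_filter]
    have h1 := Finset.sum_powerset_apply_card f (x := (Finset.univ : Finset (Fin n)))
    rw [Finset.powerset_univ, Finset.card_univ, Fintype.card_fin] at h1
    rw [← h1]
  have e2 : hh n ((2 * D : ℕ) : ℤ) = (n.choose (2 * D) : ℝ) := by
    unfold hh
    rw [if_pos (by positivity), Int.toNat_natCast]
  rw [e1, e2, Finset.sum_range_succ']
  have e3 : n.choose 0 • f 0 = 0 := by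
    simp [hf]
  rw [e3, add_zero]
  have h2D : 2 * D ≤ n := by
    have hpow : (1 : ℝ) ≤ 2 ^ d := one_le_pow₀ (by norm_num)
    have hdd : (2 : ℝ) ≤ d := by exact_mod_cast hd
    have hcc : (2 : ℝ) ≤ 48 * d * 2 ^ d := by nlinarith
    have h3 : (D : ℝ) ≤ n / 2 := by
      refine hD.trans ?_
      rw [div_mul_eq_mul_div, one_mul]
      gcongr
    have h4 : ((2 * D : ℕ) : ℝ) ≤ n := by
      push_cast
      linarith
    exact_mod_cast h4
  have hch : (0 : ℝ) < (n.choose (2 * D) : ℝ) := by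
    exact_mod_cast Nat.choose_pos h2D
  have h5 : ∀ p ∈ Finset.range n, n.choose (p + 1) • f (p + 1)
      ≤ (n.choose (2 * D) : ℝ) * (1 / 4) ^ (p + 1) := by
    intro p _
    rw [nsmul_eq_mul]
    have hpos : (0 : ℝ) ≤ (n.choose (2 * D) : ℝ) * (1 / 4) ^ (p + 1) := by positivity
    by_cases h6 : D < (p + 1) * d
    · have e4 : f (p + 1) = hh n (((2 * D : ℕ) : ℤ) - ((p + 1 : ℕ) : ℤ) * (d : ℤ)) := by
        rw [hf]
        exact if_pos h6
      rw [e4]
      by_cases h7 : (p + 1) * d ≤ 2 * D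
      · have e5 : hh n (((2 * D : ℕ) : ℤ) - ((p + 1 : ℕ) : ℤ) * (d : ℤ))
            = (n.choose (2 * D - (p + 1) * d) : ℝ) := by
          have e6 : (((2 * D : ℕ) : ℤ) - ((p + 1 : ℕ) : ℤ) * (d : ℤ))
              = ((2 * D - (p + 1) * d : ℕ) : ℤ) := by
            rw [Nat.cast_sub h7]
            push_cast
            ring
          rw [e6]
          unfold hh
          rw [if_pos (by positivity), Int.toNat_natCast]
        rw [e5]
        have hDpos : 1 ≤ 2 * D := by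
          have : 1 ≤ (p + 1) * d := Nat.one_le_iff_ne_zero.2 (by positivity)
          omega
        refine idx_term hd hDpos (by omega) ?_ (by omega) h7
        push_cast
        have e7 : (1 : ℝ) / (24 * d * 2 ^ d) * n = 2 * (1 / (48 * d * 2 ^ d) * n) := by
          field_simp
          norm_num
        rw [e7]
        linarith
      · have e5 : hh n (((2 * D : ℕ) : ℤ) - ((p + 1 : ℕ) : ℤ) * (d : ℤ)) = 0 := by
          unfold hh
          rw [if_neg]
          have h8 : 2 * D < (p + 1) * d := not_le.1 h7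
          have h9 : ((2 * D : ℕ) : ℤ) < ((p + 1 : ℕ) : ℤ) * (d : ℤ) := by exact_mod_cast h8
          linarith
        rw [e5, mul_zero]
        exact hpos
    · have e4 : f (p + 1) = 0 := by
        rw [hf]
        exact if_neg h6
      rw [e4, mul_zero]
      exact hpos
  calc ∑ p ∈ Finset.range n, n.choose (p + 1) • f (p + 1)
      ≤ ∑ p ∈ Finset.range n, (n.choose (2 * D) : ℝ) * (1 / 4) ^ (p + 1) := Finset.sum_le_sum h5
    _ = (n.choose (2 * D) : ℝ) * ∑ p ∈ Finset.range n, ((1 : ℝ) / 4) ^ (p + 1) := by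
        rw [Finset.mul_sum]
    _ < (n.choose (2 * D) : ℝ) * 1 := mul_lt_mul_of_pos_left (idx_geom n) hch
    _ = (n.choose (2 * D) : ℝ) := mul_one _

end H64SRL
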