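import Pool.Agent.H64.SRL.Params
import Pool.Agent.H64.SRL.Index
import Pool.Agent.H64.SRL.IndexNum

/-!
# [SRL-FINAL] The limit statement (helper64)
-/

namespace H64SRL

open Finset H67SR H67SR.SqA Filter

/-- degrees up to `c n` lie below the index, for every tuple -/
theorem index_lin {d : ℕ} (hd : 2 ≤ d) : ∃ c : ℝ, 0 < c ∧ ∀ n : ℕ, 1 ≤ n → ∀ D : ℕ,
    (D : ℝ) ≤ c * n → ∀ lam ∈ tup n n d,
      ¬ part n D ⊆ (Ideal.span (Set.range lam) : Set (BB n)) := by
  obtain ⟨c, hc, h⟩ := index_num hd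
  refine ⟨c, hc, ?_⟩
  intro n hn D hD lam hlam hsub
  exact absurd (index_ineq (by omega : 1 ≤ d) hlam hsub) (not_le.2 (h n hn D hD))

theorem regL_mono {n m d I K K' : ℕ} {Λ : Fin m → SqA (Fin n)} (hK : K' ≤ K)
    (h : RegL d I K Λ) : RegL d I K' Λ :=
  fun i hi k hk => h i hi k (hk.trans hK)

/-- the limit statement, for every smaller constant -/
theorem srl_tendsto {d : ℕ} (hd : 2 ≤ d) : ∃ c0 : ℝ, 0 < c0 ∧ ∀ c : ℝ, c ≤ c0 →
    Tendsto (fun n : ℕ =>
      (({lam ∈ tup n n d | RegBL d n ⌊c * (n : ℝ)⌋₊ lam} :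
        Set (Fin n → BB n)).ncard : ℝ) / (tup n n d).ncard) atTop (nhds 1) := by
  classical
  obtain ⟨c0, A, κ, hc0, hA, hκ, hev⟩ := fail_rate hd
  refine ⟨c0, hc0, ?_⟩
  intro c hc
  have h0 : Tendsto (fun n : ℕ => 1 - (2 * A) * ((n : ℝ) ^ 4 * Real.exp (-κ) ^ n)) atTop
      (nhds 1) := by
    have h := tendsto_pow_const_mul_const_pow_of_abs_lt_one 4
      (r := Real.exp (-κ)) (by
        rw [abs_of_pos (Real.exp_pos _)]
        exact Real.exp_lt_one_iff.2 (by linarith))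
    have h2 := (h.const_mul (2 * A)).const_sub 1
    rwa [mul_zero, sub_zero] at h2
  refine tendsto_of_tendsto_of_tendsto_of_le_of_le' h0 tendsto_const_nhds ?_ ?_
  · filter_upwards [eventually_zz_le hd, eventually_ge_atTop 1, eventually_tup_pos hd, hev]
      with n hz hn hpos hfr
    have hn1 : (1 : ℝ) ≤ n := by exact_mod_cast hn
    have hpos' : (0 : ℝ) < (tup n n d).ncard := by exact_mod_cast hpos
    rw [le_div_iff₀ hpos']
    have hch := le_choose_zz (n := n) hd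
    have h2 : 2 * n ≤ n.choose d := by
      have := Nat.choose_le_choose d hz
      omega
    have h3 := card_Om_le h2 hn
    have hKK : ⌊c * (n : ℝ)⌋₊ ≤ ⌊c0 * (n : ℝ)⌋₊ :=
      Nat.floor_le_floor (mul_le_mul_of_nonneg_right hc (by linarith))
    have h1 : ((tup n n d \ {lam | RegBL d n ⌊c * (n : ℝ)⌋₊ lam}).ncard : ℝ) ≤
        (((Om (Fin n) n d).filter fun Λ => ¬ RegL d n ⌊c0 * (n : ℝ)⌋₊ Λ).card : ℝ) := by
      have h4 : (tr '' (tup n n d \ {lam | RegBL d n ⌊c * (n : ℝ)⌋₊ lam})).ncard ≤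
          ((Om (Fin n) n d).filter fun Λ => ¬ RegL d n ⌊c0 * (n : ℝ)⌋₊ Λ).card := by
        rw [← Set.ncard_coe_finset]
        apply Set.ncard_le_ncard _ (Set.toFinite _)
        rintro _ ⟨lam, ⟨h5, h6⟩, rfl⟩
        rw [Finset.mem_coe, Finset.mem_filter]
        exact ⟨tr_mem_Om h5, fun h7 => h6 (regBL_of_regL (regL_mono hKK h7))⟩
      rw [Set.ncard_image_of_injective _ tr_injective] at h4
      exact_mod_cast h4
    have hexp : Real.exp (-κ) ^ n = Real.exp (-(κ * n)) := by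
      rw [← Real.exp_nat_mul]
      congr 1
      ring
    have h8 : ((tup n n d \ {lam | RegBL d n ⌊c * (n : ℝ)⌋₊ lam}).ncard : ℝ) ≤
        ((2 * A) * ((n : ℝ) ^ 4 * Real.exp (-κ) ^ n)) * (tup n n d).ncard := by
      rw [hexp]
      have h9 : (0 : ℝ) ≤ A * ((n : ℝ) ^ 4 * Real.exp (-(κ * n))) := by positivity
      calc _ ≤ _ := h1
        _ ≤ _ := hfr
        _ ≤ (A * ((n : ℝ) ^ 4 * Real.exp (-(κ * n)))) * (2 * (tup n n d).ncard) :=
            mul_le_mul_of_nonneg_left h3 h9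
        _ = _ := by ring
    have h10 : (({lam ∈ tup n n d | RegBL d n ⌊c * (n : ℝ)⌋₊ lam} :
          Set (Fin n → BB n)).ncard : ℝ) +
        ((tup n n d \ {lam | RegBL d n ⌊c * (n : ℝ)⌋₊ lam}).ncard : ℝ) =
        (tup n n d).ncard := by
      have h11 : ({lam ∈ tup n n d | RegBL d n ⌊c * (n : ℝ)⌋₊ lam} :
          Set (Fin n → BB n)) = tup n n d ∩ {lam | RegBL d n ⌊c * (n : ℝ)⌋₊ lam} := rfl
      rw [h11]
      exact_mod_cast Set.ncard_inter_add_ncard_sdiff_eq_ncard (tup n n d)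
        {lam | RegBL d n ⌊c * (n : ℝ)⌋₊ lam} (Set.toFinite _)
    linarith
  · filter_upwards with n
    apply div_le_one_of_le₀ _ (by positivity)
    exact_mod_cast Set.ncard_le_ncard (Set.sep_subset _ _) (Set.toFinite _)

end H64SRL
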