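import Pool.Agent.H64.SRL.Defs

/-!
# [SRL-FLAG] The flag inequality for a list of forms

`spl_length`: induction. `proc_append`: `proc a (A ++ [j]) = bp a (proc a A) j`.
`flag_list`: prove by induction on `js`, generalizing `pre`, the statement
`DD (proc a (pre ++ js)) k - DD (proc a pre) k + ∑_{p ∈ spl pre js} (DD (col a (proc a p.1) p.2) (k-d) - DD a (k-d))`
`≤ nd (Rel a ⊓ LA pre) - nd (Rel a ⊓ LA (pre ++ js))`. For `j :: js`: `flag_step` (Alg1) with
`b = proc a pre ⊆ a`, whose right side is at most `nd (Rel a ⊓ LA pre) - nd (Rel a ⊓ LA (pre ++ [j]))`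
by `nd_gap_mono` (with `L = comap (dj j) (Id a (k-d))`), because `Rel (proc a pre) ≤ Rel a ⊓ LA pre`:
for `f ∈ Rel (proc a pre)` and `i ∈ pre`, `dj i f = ∑_{S ∋ i} α^(S \ i) f_S` and `S \ i ∈ a` whenever
`f_S ≠ 0` (`mem_Id_of`). The induction hypothesis is for `pre ++ [j]`.
-/

namespace H64SRL

open Finset H67SR H67SR.SqA

variable {σ : Type*} [DecidableEq σ] {m : ℕ}

theorem spl_length (pre js : List (Fin m)) : (spl pre js).length = js.length := by
  induction js generalizing pre with
  | nil => rfl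
  | cons j js ih =>
    unfold spl
    rw [List.length_cons, List.length_cons, ih]

theorem proc_subset (a : Finset (Finset (Fin m))) (A : List (Fin m)) : proc a A ⊆ a :=
  Finset.filter_subset _ _

theorem proc_nil (a : Finset (Finset (Fin m))) : proc a [] = a := by
  unfold proc
  simp

theorem proc_append (a : Finset (Finset (Fin m))) (A : List (Fin m)) (j : Fin m) :
    proc a (A ++ [j]) = bp a (proc a A) j := by
  unfold bp proc
  ext S
  simp only [Finset.mem_filter, List.mem_append, List.mem_singleton]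
  constructor
  · rintro ⟨h1, h2⟩
    exact ⟨⟨h1, fun i hi => h2 i (Or.inl hi)⟩, h2 j (Or.inr rfl)⟩
  · rintro ⟨⟨h1, h2⟩, h3⟩
    refine ⟨h1, fun i hi => ?_⟩
    rcases hi with hi | hi
    · exact h2 i hi
    · rw [hi]
      exact h3

theorem Rel_proc_le [Fintype σ] (W : Finset σ) (d : ℤ) (α : Fin m → SqA σ)
    (a : Finset (Finset (Fin m))) (A : List (Fin m)) (k : ℤ) :
    Rel W d α (proc a A) k ≤ Rel W d α a k ⊓ LA W d α a k A := by
  intro f hf
  refine ⟨Rel_mono (proc_subset a A) k hf, fun i hi => ?_⟩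
  rw [dj_apply]
  refine sum_mem fun S hS => ?_
  have hiS : i ∈ S := (Finset.mem_filter.1 hS).2
  by_cases h : S ∈ proc a A
  · have h1 : S.erase i ∈ a := (Finset.mem_filter.1 h).2 i hi
    refine mem_Id_of h1 ?_
    have h2 := (hf.1 S).1
    rw [Finset.card_erase_of_mem hiS, Nat.cast_sub (Finset.card_pos.2 ⟨i, hiS⟩)]
    rwa [show k - d - ((S.card : ℤ) - (1 : ℕ)) * d = k - S.card * d by push_cast; ring]
  · rw [(hf.1 S).2 h, mul_zero]
    exact zero_mem _

theorem LA_append (W : Finset σ) (d : ℤ) (α : Fin m → SqA σ) [Fintype σ]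
    (a : Finset (Finset (Fin m))) (A : List (Fin m)) (j : Fin m) (k : ℤ) :
    (Rel W d α a k ⊓ LA W d α a k A) ⊓ (Id W d α a (k - d)).comap (dj α j) =
      Rel W d α a k ⊓ LA W d α a k (A ++ [j]) := by
  ext f
  constructor
  · rintro ⟨⟨h1, h2⟩, h3⟩
    refine ⟨h1, fun i hi => ?_⟩
    rcases List.mem_append.1 hi with hi | hi
    · exact h2 i hi
    · rw [List.mem_singleton.1 hi]
      exact h3
  · rintro ⟨h1, h2⟩
    exact ⟨⟨h1, fun i hi => h2 i (List.mem_append.2 (Or.inl hi))⟩,
      h2 j (List.mem_append.2 (Or.inr (List.mem_singleton.2 rfl)))⟩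

theorem flag_aux [Fintype σ] (W : Finset σ) (d : ℤ) (α : Fin m → SqA σ)
    (a : Finset (Finset (Fin m))) (js : List (Fin m)) (k : ℤ) (A : List (Fin m)) :
    DD W d α (proc a (A ++ js)) k - DD W d α (proc a A) k +
        ((spl A js).map fun p => DD W d α (col a (proc a p.1) p.2) (k - d) -
          DD W d α a (k - d)).sum ≤
      nd (Rel W d α a k ⊓ LA W d α a k A) - nd (Rel W d α a k ⊓ LA W d α a k (A ++ js)) := by
  induction js generalizing A with
  | nil =>
    rw [List.append_nil, sub_self, sub_self]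
    unfold spl
    rw [List.map_nil, List.sum_nil, add_zero]
  | cons j js ih =>
    have h1 := ih (A ++ [j])
    have h2 := flag_step (W := W) (d := d) (α := α) (proc_subset a A) j k
    have h3 := nd_gap_mono (Rel_proc_le W d α a A k) ((Id W d α a (k - d)).comap (dj α j))
    rw [LA_append W d α a A j k] at h3
    rw [List.append_assoc, List.singleton_append] at h1
    have h4 : spl A (j :: js) = (A, j) :: spl (A ++ [j]) js := rfl
    rw [h4, List.map_cons, List.sum_cons]
    rw [proc_append] at h1
    dsimp only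
    linarith

theorem flag_list [Fintype σ] (W : Finset σ) (d : ℤ) (α : Fin m → SqA σ)
    (a : Finset (Finset (Fin m))) (A : List (Fin m)) (k : ℤ) :
    DD W d α (proc a A) k - DD W d α a k +
        ((spl [] A).map fun p => DD W d α (col a (proc a p.1) p.2) (k - d) -
          DD W d α a (k - d)).sum ≤
      nd (Rel W d α a k) - nd (Rel W d α a k ⊓ LA W d α a k A) := by
  have h := flag_aux W d α a A k []
  rw [List.nil_append, proc_nil] at h
  have h1 : Rel W d α a k ⊓ LA W d α a k [] = Rel W d α a k := by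
    apply le_antisymm inf_le_left
    intro f hf
    exact ⟨hf, fun i hi => absurd hi List.not_mem_nil⟩
  rw [h1] at h
  exact h

end H64SRL
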