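import Pool.Agent.H64.SRL.Dom
import Pool.Agent.H67.SR.Count

/-!
# [SRL-KEYA] The space `KK` and the two-point inequality

`Ker W X d Λ a k T` are the `F ∈ Dom` such that the coefficient of `x_I` in `ev F` vanishes for all `I ⊆ X`,
`|I| ≤ d`, `I ∉ T`; `KK` is its image under `cT W ∅`.
`KK_le_Rel`: for `I = ∅` (`∅ ∉ T`) `co_ev`.
`ideal_ge`: `Id (W ∪ X) ⊇ (Dom).map ev`, `nd ((Dom).map ev) = nd Dom - nd (Dom ⊓ ker ev)` (`nd_map`) and
`Dom ⊓ ker ev` injects into `KK ... ∅` by `cT W ∅` (`nd_le_of_map_le`): injective by `tri` (all `r`) and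
`eq_zero_of_cT`. Then `nd_Dom`.
`two_pt`: `Λ' = tsh (mono I0) j Λ`. `rl W Λ' = rl W Λ` since `I0 ⊄ W`; so `Dom`, `LA`, `Id` on `W` agree. For
`F ∈ Tp`: `ev (rl (W∪X) Λ') F = ev (rl (W∪X) Λ) F + mono I0 * dj (rl (W∪X) Λ) j F` (the product over `S ∋ j`
changes by `x_{I0}` times the product over `S \ j`), so by `co_mono_mul` its coefficients at `I ⊆ X`, `|I| ≤ d`,
`I ≠ I0` agree, and at `I0` they differ by `res W (dj (rl (W∪X) Λ) j F) = dj (rl W Λ) j (cT W ∅ F)`.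
Hence `KK Λ T, KK Λ' T ≤ KK Λ (insert I0 T)`, and if `f` lies in both, `f = cT W ∅ F = cT W ∅ F'`, then for `E = F - F'`
the coefficients of `ev (rl (W∪X) Λ) E` at `|I| < d` vanish (the elements of `T` have cardinality `d`), so
`tri` gives `cT W I E = 0` for `|I| < d`, and at `I0`: `ev (rl W Λ) (cT W I0 E) = ` (difference) `= dj (rl W Λ) j f`, which is
therefore in `Id W d (rl W Λ) a (k - d)` (`cT_mem_CC`). Finish with `nd_two`.
-/

namespace H64SRL

open Finset H67SR H67SR.SqA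

variable {σ : Type*} [DecidableEq σ] [Fintype σ] {m : ℕ}

/-- the kernel conditions -/
def Ker (W X : Finset σ) (d : ℕ) (Λ : Fin m → SqA σ) (a : Finset (Finset (Fin m))) (k : ℤ)
    (T : Finset (Finset σ)) : AddSubgroup (Tp m σ) where
  carrier := {F | F ∈ Dom W X (d : ℤ) (rl W Λ) a k ∧
    ∀ I ⊆ X, I.card ≤ d → I ∉ T → co W I (ev (rl (W ∪ X) Λ) F) = 0}
  zero_mem' := ⟨zero_mem _, fun I _ _ _ => by rw [map_zero, map_zero]⟩
  add_mem' := by
    rintro x y ⟨h1, h2⟩ ⟨h3, h4⟩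
    refine ⟨add_mem h1 h3, fun I hI hI' hT => ?_⟩
    rw [map_add, map_add, h2 I hI hI' hT, h4 I hI hI' hT, add_zero]
  neg_mem' := by
    rintro x ⟨h1, h2⟩
    refine ⟨neg_mem h1, fun I hI hI' hT => ?_⟩
    rw [map_neg, map_neg, h2 I hI hI' hT, neg_zero]

/-- its image in the algebra on `W` -/
def KK (W X : Finset σ) (d : ℕ) (Λ : Fin m → SqA σ) (a : Finset (Finset (Fin m))) (k : ℤ)
    (T : Finset (Finset σ)) : AddSubgroup (Tp m σ) :=
  (Ker W X d Λ a k T).map (cT W ∅)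

theorem KK_le_Rel {W X : Finset σ} (hWX : Disjoint W X) (d : ℕ) (Λ : Fin m → SqA σ)
    (a : Finset (Finset (Fin m))) (k : ℤ) {T : Finset (Finset σ)} (hT : ∅ ∉ T) :
    KK W X d Λ a k T ≤ Rel W d (rl W Λ) a k := by
  rintro _ ⟨F, hF, rfl⟩
  refine ⟨?_, ?_⟩
  · have h1 := cT_mem_CC hWX (Finset.empty_subset X) hF.1.1
    rwa [Finset.card_empty, Nat.cast_zero, sub_zero] at h1
  · change ev (rl W Λ) (cT W ∅ F) = 0
    rw [← co_ev hWX (Finset.empty_subset X) Λ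
      (fun J hJ => absurd hJ (Finset.not_ssubset_empty J))]
    exact hF.2 ∅ (Finset.empty_subset X) (by simp) hT

theorem ideal_ge {W X : Finset σ} (hWX : Disjoint W X) (d : ℕ) (Λ : Fin m → SqA σ)
    (a : Finset (Finset (Fin m))) (k : ℤ) :
    (∑ I ∈ X.powerset, DD W d (rl W Λ) a (k - I.card)) + nd (Rel W d (rl W Λ) a k) -
        nd (KK W X d Λ a k ∅) ≤ DD (W ∪ X) d (rl (W ∪ X) Λ) a k := by
  have h1 := nd_map (Dom W X (d : ℤ) (rl W Λ) a k) (ev (rl (W ∪ X) Λ))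
  have h2 : nd ((Dom W X (d : ℤ) (rl W Λ) a k).map (ev (rl (W ∪ X) Λ))) ≤
      DD (W ∪ X) d (rl (W ∪ X) Λ) a k := by
    unfold DD Id
    exact nd_mono (AddSubgroup.map_mono fun F hF => hF.1)
  have h3 : nd (Dom W X (d : ℤ) (rl W Λ) a k ⊓ (ev (rl (W ∪ X) Λ)).ker) ≤
      nd (KK W X d Λ a k ∅) := by
    apply nd_le_of_map_le (cT W ∅)
    · rintro F ⟨hF, hk⟩ h0
      have hk' : ev (rl (W ∪ X) Λ) F = 0 := hk
      apply eq_zero_of_cT hF.1
      intro I hI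
      exact tri hWX hF h0 (X.card + 1) (fun I _ _ _ => by rw [hk', map_zero]) I hI
        (Nat.lt_succ_of_le (Finset.card_le_card hI))
    · rintro F ⟨hF, hk⟩
      have hk' : ev (rl (W ∪ X) Λ) F = 0 := hk
      exact ⟨F, ⟨hF, fun I _ _ _ => by rw [hk', map_zero]⟩, rfl⟩
  have h4 := nd_Dom hWX (d : ℤ) (rl W Λ) a k
  have h5 := nd_CC W (d : ℤ) a k
  have h6 := nd_Rel W (d : ℤ) (rl W Λ) a k
  have h7 : ∑ I ∈ X.powerset, DD W d (rl W Λ) a (k - I.card) =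
      DD W d (rl W Λ) a k + ∑ I ∈ X.powerset.erase ∅, DD W d (rl W Λ) a (k - I.card) := by
    rw [← Finset.add_sum_erase _ _ (Finset.empty_mem_powerset X), Finset.card_empty,
      Nat.cast_zero, sub_zero]
  rw [h7]
  linarith

theorem rl_tsh {W X I0 : Finset σ} (hWX : Disjoint W X) (hI0 : I0 ⊆ X) (hne : I0.Nonempty)
    (j : Fin m) (Λ : Fin m → SqA σ) : rl W (tsh (mono I0) j Λ) = rl W Λ := by
  funext l
  unfold rl tsh
  split_ifs with h
  · rw [map_add, res_mono_of_not_subset, add_zero]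
    intro h1
    obtain ⟨x, hx⟩ := hne
    exact Finset.disjoint_left.1 hWX (h1 hx) (hI0 hx)
  · rfl

private theorem rl_tsh_self {V I0 : Finset σ} (hI0 : I0 ⊆ V) (j : Fin m) (Λ : Fin m → SqA σ) :
    rl V (tsh (mono I0) j Λ) j = rl V Λ j + mono I0 := by
  unfold rl tsh
  rw [if_pos rfl, map_add, res_mono_of_subset hI0]

private theorem rl_tsh_ne {V I0 : Finset σ} {j l : Fin m} (h : l ≠ j) (Λ : Fin m → SqA σ) :
    rl V (tsh (mono I0) j Λ) l = rl V Λ l := by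
  unfold rl tsh
  rw [if_neg (fun h' => h (Fin.ext h'))]

private theorem pr_tsh_erase {V I0 : Finset σ} {j : Fin m} (Λ : Fin m → SqA σ)
    {S : Finset (Fin m)} (hS : j ∉ S) :
    pr (rl V (tsh (mono I0) j Λ)) S = pr (rl V Λ) S := by
  unfold pr
  refine Finset.prod_congr rfl fun l hl => rl_tsh_ne ?_ Λ
  rintro rfl
  exact hS hl

private theorem ev_tsh {V I0 : Finset σ} (hI0 : I0 ⊆ V) (j : Fin m) (Λ : Fin m → SqA σ)
    (F : Tp m σ) : ev (rl V (tsh (mono I0) j Λ)) F =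
      ev (rl V Λ) F + mono I0 * dj (rl V Λ) j F := by
  rw [ev_apply, ev_apply, dj_apply, Finset.mul_sum, Finset.sum_filter,
    ← Finset.sum_add_distrib]
  refine Finset.sum_congr rfl fun S _ => ?_
  by_cases hS : j ∈ S
  · rw [if_pos hS, ← pr_erase _ hS, ← pr_erase (rl V Λ) hS,
      pr_tsh_erase Λ (Finset.notMem_erase j S), rl_tsh_self hI0]
    ring
  · rw [if_neg hS, pr_tsh_erase Λ hS, add_zero]

private theorem res_dj {W V : Finset σ} (hWV : W ⊆ V) (j : Fin m) (Λ : Fin m → SqA σ)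
    (F : Tp m σ) : res W (dj (rl V Λ) j F) = dj (rl W Λ) j (cT W ∅ F) := by
  rw [dj_apply, dj_apply, map_sum]
  refine Finset.sum_congr rfl fun S _ => ?_
  rw [map_mul, cT_apply, co_empty]
  congr 1
  unfold pr rl
  rw [map_prod]
  exact Finset.prod_congr rfl fun l _ => res_res hWV _

private theorem co_tsh {W X I0 I : Finset σ} (hWX : Disjoint W X) (hI0 : I0 ⊆ X) (hI : I ⊆ X)
    (hc : I.card ≤ I0.card) (j : Fin m) (Λ : Fin m → SqA σ) (F : Tp m σ) :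
    co W I (ev (rl (W ∪ X) (tsh (mono I0) j Λ)) F) = co W I (ev (rl (W ∪ X) Λ) F) +
      if I = I0 then dj (rl W Λ) j (cT W ∅ F) else 0 := by
  rw [ev_tsh (hI0.trans Finset.subset_union_right), map_add, co_mono_mul hWX hI hI0 hc,
    res_dj Finset.subset_union_left]

theorem two_pt {W X : Finset σ} (hWX : Disjoint W X) {d : ℕ} (hd : 1 ≤ d) (Λ : Fin m → SqA σ)
    (a : Finset (Finset (Fin m))) (k : ℤ) {T : Finset (Finset σ)} (hT : ∀ I ∈ T, I.card = d)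
    {I0 : Finset σ} (hI0 : I0 ⊆ X) (hc : I0.card = d) (hI0T : I0 ∉ T) (j : Fin m)
    (A : List (Fin m)) :
    nd (KK W X d Λ a k T ⊓ LA W d (rl W Λ) a k A) +
        nd (KK W X d (tsh (mono I0) j Λ) a k T ⊓ LA W d (rl W Λ) a k A) ≤
      nd (KK W X d Λ a k (insert I0 T) ⊓ LA W d (rl W Λ) a k A) +
        nd (KK W X d Λ a k (insert I0 T) ⊓ LA W d (rl W Λ) a k (A ++ [j])) := by
  have hne : I0.Nonempty := Finset.card_pos.1 (by omega)
  have hrl := rl_tsh hWX hI0 hne j Λ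
  have hA : KK W X d Λ a k T ≤ KK W X d Λ a k (insert I0 T) := by
    apply AddSubgroup.map_mono
    rintro F ⟨h1, h2⟩
    exact ⟨h1, fun I hI hI' hIT => h2 I hI hI' fun h => hIT (Finset.mem_insert_of_mem h)⟩
  have hco : ∀ F ∈ Ker W X d (tsh (mono I0) j Λ) a k T, ∀ I ⊆ X, I.card ≤ d → I ∉ T →
      I ≠ I0 → co W I (ev (rl (W ∪ X) Λ) F) = 0 := by
    rintro F ⟨h1, h2⟩ I hI hI' hIT hI0'
    have h3 := h2 I hI hI' hIT
    rwa [co_tsh hWX hI0 hI (by omega), if_neg hI0', add_zero] at h3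
  have hDom : ∀ F ∈ Ker W X d (tsh (mono I0) j Λ) a k T, F ∈ Dom W X (d : ℤ) (rl W Λ) a k := by
    rintro F ⟨h1, h2⟩
    rwa [hrl] at h1
  have hB : KK W X d (tsh (mono I0) j Λ) a k T ≤ KK W X d Λ a k (insert I0 T) := by
    apply AddSubgroup.map_mono
    intro F hF
    exact ⟨hDom F hF, fun I hI hI' hIT => hco F hF I hI hI'
      (fun h => hIT (Finset.mem_insert_of_mem h))
      (fun h => hIT (h ▸ Finset.mem_insert_self I0 T))⟩
  have h1 := nd_two (inf_le_inf_right (LA W d (rl W Λ) a k A) hA)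
    (inf_le_inf_right (LA W d (rl W Λ) a k A) hB)
  refine h1.trans (add_le_add_right (nd_mono ?_) _)
  rintro f ⟨⟨hf1, hf2⟩, hf3, _⟩
  refine ⟨hA hf1, fun j' hj' => ?_⟩
  rcases List.mem_append.1 hj' with h | h
  · exact hf2 j' h
  obtain rfl : j' = j := List.mem_singleton.1 h
  obtain ⟨F, hF, hFf⟩ := hf1
  obtain ⟨F', hF', hF'f⟩ := hf3
  have hE : F - F' ∈ Dom W X (d : ℤ) (rl W Λ) a k := sub_mem hF.1 (hDom F' hF')
  have hE0 : cT W ∅ (F - F') = 0 := by rw [map_sub, hFf, hF'f, sub_self]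
  have htri := tri hWX hE hE0 d (fun I hI _ hI' => by
    have hIT : I ∉ T := fun h => by
      have := hT I h
      omega
    rw [map_sub, map_sub, hF.2 I hI hI'.le hIT, hco F' hF' I hI hI'.le hIT
      (by rintro rfl; omega), sub_zero])
  have h5 := co_ev hWX hI0 Λ (F := F - F')
    (fun J hJ => htri J (hJ.1.trans hI0) (by
      have := Finset.card_lt_card hJ
      omega))
  have h6 := hF'.2 I0 hI0 (by omega) hI0T
  rw [co_tsh hWX hI0 hI0 le_rfl, if_pos rfl, hF'f] at h6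
  rw [map_sub, map_sub, hF.2 I0 hI0 (by omega) hI0T, zero_sub] at h5
  have h7 : dj (rl W Λ) j' f = ev (rl W Λ) (cT W I0 (F - F')) := by
    rw [← h5]
    exact eq_neg_of_add_eq_zero_right h6
  rw [h7]
  refine ⟨cT W I0 (F - F'), ?_, rfl⟩
  have h8 := cT_mem_CC hWX hI0 hE.1
  rwa [hc] at h8

end H64SRL
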