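import Pool.Agent.H64.SRL.KeyA
import Pool.Agent.H67.SR.Lin4

/-!
# [SRL-KEYB] The key inequality, averaged over the forms

`key_avg`: induction on `sl`, generalizing `T` and `A`. For `(I0, j) :: sl`: `Λ ↦ tsh (mono I0) j Λ` is a
bijection of `Om σ m d` (`tsh_mem_Om` in Lin4, `tsh_tsh`; see the proof of `EE_insert` in H67/SR/Lin4.lean), so by `two_pt`
and `rl_tsh`, `2 Q(T, A) ≤ Q(insert I0 T, A) + Q(insert I0 T, A ++ [j])`, where `Q(T, A) = ∑_Λ nd (KK T ⊓ LA A)`. The base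
case is `nd_mono` with `KK_le_Rel`.
`key_ineq`: sum `ideal_ge` over `Λ`, use `key_avg` with `T = ∅`, `A = []` (`LA ... [] = ⊤`, so
`KK ⊓ LA [] = KK`) and linearity of `avg` (`avg_const_sub`, write small lemmas about `avg`).
-/

namespace H64SRL

open Finset H67SR H67SR.SqA

variable {σ : Type*} [DecidableEq σ] [Fintype σ] {m : ℕ}

omit [DecidableEq σ] [Fintype σ] in
theorem avg_const_sub (c : ℝ) (l : List (Fin m)) :
    ∀ F : List (Fin m) → ℝ, avg l (fun A => c - F A) = c - avg l F := by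
  induction l with
  | nil => intro F; rfl
  | cons j js ih =>
    intro F
    have h1 := ih F
    have h2 := ih (fun l => F (j :: l))
    change (avg js (fun A => c - F A) + avg js (fun l => c - F (j :: l))) / 2 =
      c - (avg js F + avg js (fun l => F (j :: l))) / 2
    rw [h1, h2]
    ring

omit [Fintype σ] in
theorem LA_nil (W : Finset σ) (d : ℤ) (α : Fin m → SqA σ) (a : Finset (Finset (Fin m))) (k : ℤ) :
    LA W d α a k [] = ⊤ := by
  rw [eq_top_iff]
  intro f _ j hj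
  exact absurd hj List.not_mem_nil

/-- one step of the averaging -/
theorem key_step {W X : Finset σ} (hWX : Disjoint W X) {d : ℕ} (hd : 1 ≤ d)
    (a : Finset (Finset (Fin m))) (k : ℤ) {T : Finset (Finset σ)} (hT : ∀ I ∈ T, I.card = d)
    {I0 : Finset σ} (hI0 : I0 ⊆ X) (hc : I0.card = d) (hI0T : I0 ∉ T) (j : Fin m)
    (A : List (Fin m)) :
    2 * ∑ Λ ∈ Om σ m d, nd (KK W X d Λ a k T ⊓ LA W d (rl W Λ) a k A) ≤
      ∑ Λ ∈ Om σ m d, nd (KK W X d Λ a k (insert I0 T) ⊓ LA W d (rl W Λ) a k A) +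
        ∑ Λ ∈ Om σ m d, nd (KK W X d Λ a k (insert I0 T) ⊓ LA W d (rl W Λ) a k (A ++ [j])) := by
  have hne : I0.Nonempty := by
    rw [← Finset.card_pos, hc]
    exact hd
  have hμ : mono I0 ∈ H (Finset.univ : Finset σ) (d : ℤ) := by
    have := mono_mem_H (Finset.subset_univ I0)
    rwa [hc] at this
  have h1 : ∑ Λ ∈ Om σ m d, nd (KK W X d (tsh (mono I0) j Λ) a k T ⊓
      LA W d (rl W (tsh (mono I0) j Λ)) a k A) =
      ∑ Λ ∈ Om σ m d, nd (KK W X d Λ a k T ⊓ LA W d (rl W Λ) a k A) :=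
    Finset.sum_nbij' (tsh (mono I0) j) (tsh (mono I0) j)
      (fun Λ hΛ => tsh_mem_Om hμ hΛ) (fun Λ hΛ => tsh_mem_Om hμ hΛ)
      (fun Λ _ => tsh_tsh _ _ _) (fun Λ _ => tsh_tsh _ _ _) (fun Λ _ => rfl)
  have h2 : ∑ Λ ∈ Om σ m d, (nd (KK W X d Λ a k T ⊓ LA W d (rl W Λ) a k A) +
      nd (KK W X d (tsh (mono I0) j Λ) a k T ⊓ LA W d (rl W (tsh (mono I0) j Λ)) a k A)) ≤
      ∑ Λ ∈ Om σ m d, (nd (KK W X d Λ a k (insert I0 T) ⊓ LA W d (rl W Λ) a k A) +
        nd (KK W X d Λ a k (insert I0 T) ⊓ LA W d (rl W Λ) a k (A ++ [j]))) := by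
    refine Finset.sum_le_sum fun Λ _ => ?_
    rw [rl_tsh hWX hI0 hne j Λ]
    exact two_pt hWX hd Λ a k hT hI0 hc hI0T j A
  rw [Finset.sum_add_distrib, Finset.sum_add_distrib, h1] at h2
  linarith

theorem key_avg {W X : Finset σ} (hWX : Disjoint W X) {d : ℕ} (hd : 1 ≤ d)
    (a : Finset (Finset (Fin m))) (k : ℤ) (sl : List (Finset σ × Fin m)) :
    ∀ (T : Finset (Finset σ)) (A : List (Fin m)), (∀ I ∈ T, I.card = d) →
      (sl.map Prod.fst).Nodup → (∀ p ∈ sl, p.1 ⊆ X ∧ p.1.card = d ∧ p.1 ∉ T) →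
      ∑ Λ ∈ Om σ m d, nd (KK W X d Λ a k T ⊓ LA W d (rl W Λ) a k A) ≤
        avg (sl.map Prod.snd) (fun B => ∑ Λ ∈ Om σ m d,
          nd (Rel W d (rl W Λ) a k ⊓ LA W d (rl W Λ) a k (A ++ B))) := by
  induction sl with
  | nil =>
    intro T A hT _ _
    have hT0 : (∅ : Finset σ) ∉ T := by
      intro h
      have := hT ∅ h
      rw [Finset.card_empty] at this
      omega
    change _ ≤ ∑ Λ ∈ Om σ m d, nd (Rel W d (rl W Λ) a k ⊓ LA W d (rl W Λ) a k (A ++ []))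
    rw [List.append_nil]
    exact Finset.sum_le_sum fun Λ _ => nd_mono (inf_le_inf_right _ (KK_le_Rel hWX d Λ a k hT0))
  | cons p sl ih =>
    obtain ⟨I0, j⟩ := p
    intro T A hT hnd hsl
    obtain ⟨hI0, hc, hI0T⟩ := hsl (I0, j) List.mem_cons_self
    rw [List.map_cons, List.nodup_cons] at hnd
    have hT' : ∀ I ∈ insert I0 T, I.card = d := by
      intro I hI
      rcases Finset.mem_insert.1 hI with rfl | hI
      · exact hc
      · exact hT I hI
    have hsl' : ∀ p ∈ sl, p.1 ⊆ X ∧ p.1.card = d ∧ p.1 ∉ insert I0 T := by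
      intro p hp
      obtain ⟨h1, h2, h3⟩ := hsl p (List.mem_cons_of_mem _ hp)
      refine ⟨h1, h2, fun h => ?_⟩
      rcases Finset.mem_insert.1 h with h | h
      · apply hnd.1
        change I0 ∈ _
        rw [← h]
        exact List.mem_map_of_mem hp
      · exact h3 h
    have h0 := key_step hWX hd a k hT hI0 hc hI0T j A
    have h1 := ih (insert I0 T) A hT' hnd.2 hsl'
    have h2 := ih (insert I0 T) (A ++ [j]) hT' hnd.2 hsl'
    simp only [List.append_assoc, List.singleton_append] at h2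
    change _ ≤ (avg (sl.map Prod.snd) _ + avg (sl.map Prod.snd) _) / 2
    linarith

theorem key_ineq {W X : Finset σ} (hWX : Disjoint W X) {d : ℕ} (hd : 1 ≤ d)
    (a : Finset (Finset (Fin m))) (k : ℤ) (sl : List (Finset σ × Fin m))
    (hnd : (sl.map Prod.fst).Nodup) (hsl : ∀ p ∈ sl, p.1 ⊆ X ∧ p.1.card = d) :
    ∑ Λ ∈ Om σ m d, ∑ I ∈ X.powerset, DD W d (rl W Λ) a (k - I.card) +
        avg (sl.map Prod.snd) (fun A => ∑ Λ ∈ Om σ m d,
          (nd (Rel W d (rl W Λ) a k) - nd (Rel W d (rl W Λ) a k ⊓ LA W d (rl W Λ) a k A))) ≤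
      ∑ Λ ∈ Om σ m d, DD (W ∪ X) d (rl (W ∪ X) Λ) a k := by
  have h1 := Finset.sum_le_sum (s := Om σ m d) fun Λ _ => ideal_ge hWX d Λ a k
  have h2 := key_avg hWX hd a k sl ∅ [] (fun I hI => absurd hI (Finset.notMem_empty I)) hnd
    (fun p hp => ⟨(hsl p hp).1, (hsl p hp).2, Finset.notMem_empty _⟩)
  simp only [LA_nil, inf_top_eq, List.nil_append] at h2
  simp only [Finset.sum_sub_distrib, Finset.sum_add_distrib] at h1
  simp only [Finset.sum_sub_distrib]
  rw [avg_const_sub]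
  linarith

end H64SRL
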