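import Pool.Agent.H64.SRL.Reg
import Pool.Agent.H67.SR.Lin4

/-!
# [SRL-PHASEA] Few forms are free with overwhelming probability

`card_not_free_low`: as `card_not_regL` in H67/SR/Lin5.lean, for `W` instead of `univ`: if `Free` fails for `low m I` then by
`free_of_syz` there are `i ≤ I` and `k ≤ K` (`0 ≤ k`; for `k < 0`, and for `i = 0`, `Syz = ⊥`) with `¬ Syz ≤ Triv`, so `1 ≤ pp W Λ d i k`
(`le_of_nd_lt`, `Triv_le_Syz`); sum over `Λ`, `i ∈ {1..I}`, `k ∈ {0..K}` and use `EE_bound` (level `i ≤ I ≤ m`).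
`card_not_free`: let `e` be a permutation of `Fin m` with `e '' low m |Q| = Q` (both sets have `|Q|` elements,
e.g. `Finset.exists_equiv...` / `Equiv.extendSubtype`); `Λ ↦ Λ ∘ e` is a bijection of `Om σ m d` and
`Free W d (rl W Λ) Q K ↔ Free W d (rl W (Λ ∘ e)) (low m |Q|) K`, because `pr (α ∘ e) S = pr α (S.map e)`, so `Id` of `JJ (low ..)` for
`α ∘ e` is `Id` of `JJ Q` for `α`.
-/

namespace H64SRL

open Finset H67SR H67SR.SqA

variable {σ : Type*} [DecidableEq σ] [Fintype σ] {m : ℕ}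

open Classical in
theorem card_not_free_low {d : ℕ} (hd : 1 ≤ d) {M s r ρ : ℝ} (hM : 1 ≤ M) (hs : 1 ≤ s)
    (hr0 : 0 < r) (hr1 : r ≤ 1) (hρ : ρ * r ^ (d - 1) = 1) (hρ1 : 1 ≤ ρ)
    (hpar : 1 + 2 * d * M⁻¹ * ρ + s⁻¹ * ρ ≤ 2 * r) (W : Finset σ) (I K : ℕ) (hI : I ≤ m) :
    (((Om σ m d).filter fun Λ => ¬ Free W (d : ℤ) (rl W Λ) (low m I) (K : ℤ)).card : ℝ) ≤
      (I * (K + 1)) * (((Om σ m d).card * m * (2 / r) ^ d) * M ^ K * s ^ I * r ^ W.card) := by
  have hd' : (1 : ℤ) ≤ d := by exact_mod_cast hd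
  have hM0 : 0 < M := by linarith
  have hs0 : 0 < s := by linarith
  have h1 : (((Om σ m d).filter fun Λ => ¬ Free W (d : ℤ) (rl W Λ) (low m I) (K : ℤ)).card : ℝ) ≤
      ∑ Λ ∈ Om σ m d, ∑ i ∈ range I, ∑ k ∈ range (K + 1), pp W Λ (d : ℤ) (i + 1) k := by
    rw [Finset.card_filter]
    push_cast
    refine Finset.sum_le_sum fun Λ hΛ => ?_
    have hΛ' := mem_Om.1 hΛ
    have hnn : ∀ (i : ℕ) (k : ℕ), 0 ≤ pp W Λ (d : ℤ) (i + 1) k :=
      fun i k => pp_nonneg hd' hΛ' _ _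
    have hnn2 : ∀ (i : ℕ), 0 ≤ ∑ k ∈ range (K + 1), pp W Λ (d : ℤ) (i + 1) k :=
      fun i => Finset.sum_nonneg fun k _ => hnn i k
    by_cases h : Free W (d : ℤ) (rl W Λ) (low m I) (K : ℤ)
    · rw [if_neg (not_not.2 h)]
      exact Finset.sum_nonneg fun i _ => hnn2 i
    · rw [if_pos h]
      by_contra hlt
      apply h
      apply free_of_syz hd' hΛ'
      intro i hi k hk
      apply le_of_nd_lt (Triv_le_Syz hd' hΛ' _ _)
      have key : pp W Λ (d : ℤ) i k < 1 := by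
        rcases Nat.eq_zero_or_pos i with rfl | hipos
        · exact (pp_zero_level W Λ _ k).trans_lt one_pos
        rcases lt_or_ge k 0 with hk0 | hk0
        · exact (pp_low_degree W Λ _ i (by omega)).trans_lt one_pos
        obtain ⟨i', rfl⟩ : ∃ i', i = i' + 1 := ⟨i - 1, by omega⟩
        obtain ⟨k', rfl⟩ := Int.eq_ofNat_of_zero_le hk0
        have hk' : k' ≤ K := by exact_mod_cast hk
        have h2 : pp W Λ (d : ℤ) (i' + 1) (k' : ℤ) ≤
            ∑ k ∈ range (K + 1), pp W Λ (d : ℤ) (i' + 1) k :=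
          Finset.single_le_sum (f := fun k : ℕ => pp W Λ (d : ℤ) (i' + 1) k)
            (fun k _ => hnn i' k) (Finset.mem_range.2 (by omega))
        have h3 : ∑ k ∈ range (K + 1), pp W Λ (d : ℤ) (i' + 1) k ≤
            ∑ i ∈ range I, ∑ k ∈ range (K + 1), pp W Λ (d : ℤ) (i + 1) k :=
          Finset.single_le_sum (f := fun i : ℕ =>
              ∑ k ∈ range (K + 1), pp W Λ (d : ℤ) (i + 1) k)
            (fun i _ => hnn2 i) (Finset.mem_range.2 (by omega))
        have h4 := not_le.1 hlt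
        exact (h2.trans h3).trans_lt h4
      unfold pp at key
      linarith
  refine h1.trans ?_
  rw [Finset.sum_comm]
  have h2 : ∀ i ∈ range I,
      ∑ Λ ∈ Om σ m d, ∑ k ∈ range (K + 1), pp W Λ (d : ℤ) (i + 1) k ≤
      (K + 1) * (((Om σ m d).card * m * (2 / r) ^ d) * M ^ K * s ^ I * r ^ W.card) := by
    intro i hi
    rw [Finset.mem_range] at hi
    rw [Finset.sum_comm]
    calc ∑ k ∈ range (K + 1), ∑ Λ ∈ Om σ m d, pp W Λ (d : ℤ) (i + 1) k
        ≤ ∑ _k ∈ range (K + 1),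
          ((((Om σ m d).card : ℝ) * m * (2 / r) ^ d) * M ^ K * s ^ I * r ^ W.card) := by
          refine Finset.sum_le_sum fun k hk => ?_
          have h3 := EE_bound (σ := σ) (m := m) hd hM hs hr0 hr1 hρ hρ1 hpar
            W.card W le_rfl (i + 1) (by omega) (k : ℤ)
          unfold EE at h3
          rw [zpow_natCast] at h3
          refine h3.trans ?_
          have h4 : M ^ k ≤ M ^ K :=
            pow_le_pow_right₀ hM (Nat.lt_succ_iff.1 (Finset.mem_range.1 hk))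
          have h5 : s ^ (i + 1) ≤ s ^ I := pow_le_pow_right₀ hs hi
          gcongr
      _ = _ := by
          rw [Finset.sum_const, Finset.card_range, nsmul_eq_mul]
          push_cast
          ring
  refine (Finset.sum_le_sum h2).trans ?_
  rw [Finset.sum_const, nsmul_eq_mul, Finset.card_range, mul_assoc (I : ℝ)]

omit [Fintype σ] in
private theorem Id_perm (W : Finset σ) (d : ℤ) (α : Fin m → SqA σ) (e : Equiv.Perm (Fin m))
    {P Q : Finset (Fin m)} (he : ∀ l, l ∈ P ↔ e l ∈ Q) (k : ℤ) :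
    Id W d (α ∘ e) (JJ P) k = Id W d α (JJ Q) k := by
  apply le_antisymm
  · apply Id_le
    intro S hS f hf
    have h1 : pr (α ∘ e) S = pr α (S.map e.toEmbedding) := by
      unfold pr
      rw [Finset.prod_map]
      rfl
    rw [h1]
    apply mem_Id_of
    · rw [mem_JJ, Finset.not_disjoint_iff] at hS ⊢
      obtain ⟨a, ha, ha'⟩ := hS
      exact ⟨e a, Finset.mem_map_of_mem _ ha, (he a).1 ha'⟩
    · rwa [Finset.card_map]
  · apply Id_le
    intro S hS f hf
    have h1 : pr α S = pr (α ∘ e) (S.map e.symm.toEmbedding) := by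
      unfold pr
      rw [Finset.prod_map]
      refine Finset.prod_congr rfl fun l _ => ?_
      change α l = α (e (e.symm l))
      rw [Equiv.apply_symm_apply]
    rw [h1]
    apply mem_Id_of
    · rw [mem_JJ, Finset.not_disjoint_iff] at hS ⊢
      obtain ⟨a, ha, ha'⟩ := hS
      refine ⟨e.symm a, Finset.mem_map_of_mem _ ha, (he _).2 ?_⟩
      rwa [Equiv.apply_symm_apply]
    · rwa [Finset.card_map]

omit [Fintype σ] in
private theorem Free_perm (W : Finset σ) (d : ℤ) (α : Fin m → SqA σ) (e : Equiv.Perm (Fin m))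
    {P Q : Finset (Fin m)} (he : ∀ l, l ∈ P ↔ e l ∈ Q) (hc : P.card = Q.card) (K : ℤ)
    (h : Free W d (α ∘ e) P K) : Free W d α Q K := by
  intro k hk
  rw [← h k hk]
  have hv : ∀ k, vv W d (α ∘ e) P k = vv W d α Q k := by
    intro k
    unfold vv DD
    rw [Id_perm W d α e he k]
  simp only [hv]
  rw [Finset.sum_powerset_apply_card (x := Q) (fun c : ℕ => vv W d α Q (k - c * d)),
    Finset.sum_powerset_apply_card (x := P) (fun c : ℕ => vv W d α Q (k - c * d)), hc]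

private theorem card_low {q : ℕ} (hq : q ≤ m) : (low m q).card = q := by
  unfold low
  rw [Fin.card_filter_val_lt]
  omega

open Classical in
theorem card_not_free {d : ℕ} (hd : 1 ≤ d) {M s r ρ : ℝ} (hM : 1 ≤ M) (hs : 1 ≤ s)
    (hr0 : 0 < r) (hr1 : r ≤ 1) (hρ : ρ * r ^ (d - 1) = 1) (hρ1 : 1 ≤ ρ)
    (hpar : 1 + 2 * d * M⁻¹ * ρ + s⁻¹ * ρ ≤ 2 * r) (W : Finset σ) (Q : Finset (Fin m)) (K : ℕ) :
    (((Om σ m d).filter fun Λ => ¬ Free W (d : ℤ) (rl W Λ) Q (K : ℤ)).card : ℝ) ≤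
      (Q.card * (K + 1)) *
        (((Om σ m d).card * m * (2 / r) ^ d) * M ^ K * s ^ Q.card * r ^ W.card) := by
  have hq : Q.card ≤ m := by
    have := Finset.card_le_univ Q
    rwa [Fintype.card_fin] at this
  refine le_trans ?_ (card_not_free_low hd hM hs hr0 hr1 hρ hρ1 hpar W Q.card K hq)
  have hcl := card_low hq
  -- the permutation
  obtain ⟨e, he⟩ : ∃ e : Equiv.Perm (Fin m), ∀ l, l ∈ low m Q.card ↔ e l ∈ Q := by
    let e0 : {x // x ∈ low m Q.card} ≃ {x // x ∈ Q} := Finset.equivOfCardEq hcl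
    refine ⟨e0.extendSubtype, fun l => ⟨fun h => e0.extendSubtype_mem l h, fun h => ?_⟩⟩
    by_contra h'
    exact e0.extendSubtype_not_mem l h' h
  norm_cast
  refine Finset.card_le_card_of_injOn (fun Λ => Λ ∘ e) ?_ ?_
  · intro Λ hΛ
    rw [Finset.mem_coe, Finset.mem_filter] at hΛ ⊢
    refine ⟨?_, fun h => hΛ.2 ?_⟩
    · rw [mem_Om]
      intro l
      exact (mem_Om.1 hΛ.1) (e l)
    · exact Free_perm W (d : ℤ) (rl W Λ) e he hcl K h
  · intro Λ _ Λ' _ h
    funext l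
    have := congrFun h (e.symm l)
    simpa using this

end H64SRL
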