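import Pool.Agent.H64.SRL.Total
import Pool.Agent.H64.SRL.PhaseA
import Pool.Agent.H67.SR.Lin6

/-!
# [SRL-PARAMS] Choice of the parameters (helper64)
-/

namespace H64SRL

open Finset H67SR H67SR.SqA Filter

theorem exists_g {d : ℕ} (hd : 2 ≤ d) : ∃ g : ℕ, 2 * d ≤ g ∧
    Real.exp (-((g.choose d : ℝ) / (32 * g))) ≤ 1 / (320000 * (g : ℝ) ^ 2) := by
  set D : ℝ := (d.factorial : ℝ) with hD
  have hD0 : 0 < D := by positivity
  have h1 : Tendsto (fun x : ℝ => x ^ 2 * Real.exp (-x)) atTop (nhds 0) :=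
    Real.tendsto_pow_mul_exp_neg_atTop_nhds_zero 2
  have h2 : Tendsto (fun g : ℕ => (g : ℝ) / (128 * D)) atTop atTop :=
    (tendsto_natCast_atTop_atTop).atTop_div_const (by positivity)
  have h3 := h1.comp h2
  have h4 : (0 : ℝ) < 1 / (320000 * (128 * D) ^ 2) := by positivity
  have h5 := (h3.eventually_lt_const h4).and (eventually_ge_atTop (2 * d))
  obtain ⟨g, hg1, hg2⟩ := h5.exists
  refine ⟨g, hg2, ?_⟩
  have hgpos : (0 : ℝ) < g := by
    have : 0 < g := by omega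
    exact_mod_cast this
  have hg3 : ((g : ℝ) / (128 * D)) ^ 2 * Real.exp (-((g : ℝ) / (128 * D))) <
    1 / (320000 * (128 * D) ^ 2) := hg1
  have hexp : Real.exp (-((g : ℝ) / (128 * D))) ≤ 1 / (320000 * (g : ℝ) ^ 2) := by
    rw [div_pow, div_mul_eq_mul_div, div_lt_div_iff₀ (by positivity) (by positivity)] at hg3
    rw [le_div_iff₀ (by positivity)]
    have h6 : (g : ℝ) ^ 2 * Real.exp (-((g : ℝ) / (128 * D))) * 320000 < 1 := by
      have h7 : (0 : ℝ) < (128 * D) ^ 2 := by positivity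
      by_contra hcon
      push Not at hcon
      nlinarith
    linarith
  refine le_trans (Real.exp_le_exp.2 ?_) hexp
  apply neg_le_neg
  rw [div_le_div_iff₀ (by positivity) (by positivity)]
  have h6 := Nat.pow_le_choose (α := ℝ) d g
  rw [div_le_iff₀ hD0] at h6
  have h7 : (g : ℝ) / 2 ≤ ((g + 1 - d : ℕ) : ℝ) := by
    rw [Nat.cast_sub (by omega)]
    push_cast
    have : (2 * (d : ℝ)) ≤ g := by exact_mod_cast hg2
    linarith
  have h8 : (1 : ℝ) ≤ ((g + 1 - d : ℕ) : ℝ) := by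
    exact_mod_cast (by omega : 1 ≤ g + 1 - d)
  have h9 : ((g + 1 - d : ℕ) : ℝ) ^ 2 ≤ ((g + 1 - d : ℕ) : ℝ) ^ d := pow_le_pow_right₀ h8 hd
  have h10 : ((g : ℝ) / 2) ^ 2 ≤ ((g + 1 - d : ℕ) : ℝ) ^ 2 :=
    pow_le_pow_left₀ (by positivity) h7 2
  nlinarith

theorem sml_le {n r : ℕ} {x : ℝ} (hx0 : 0 < x) (hx1 : x ≤ 1) :
    (sml n r : ℝ) ≤ (1 + x) ^ n * (x⁻¹) ^ r := by
  have h1 : ∑ S : Finset (Fin n), x ^ S.card = (1 + x) ^ n := by
    have := Fintype.sum_pow_mul_eq_add_pow (Fin n) x 1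
    simp only [one_pow, mul_one, Fintype.card_fin] at this
    rw [this, add_comm]
  have h2 : (sml n r : ℝ) ≤ ∑ S ∈ (Finset.univ : Finset (Finset (Fin n))).filter
      (fun S => S.card ≤ r), x ^ S.card * (x⁻¹) ^ r := by
    unfold sml
    rw [Finset.card_eq_sum_ones]
    push_cast
    refine Finset.sum_le_sum fun S hS => ?_
    have hS' : S.card ≤ r := (Finset.mem_filter.1 hS).2
    have h3 : x ^ r ≤ x ^ S.card := pow_le_pow_of_le_one hx0.le hx1 hS'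
    calc (1 : ℝ) = x ^ r * (x⁻¹) ^ r := by rw [← mul_pow, mul_inv_cancel₀ hx0.ne', one_pow]
      _ ≤ x ^ S.card * (x⁻¹) ^ r := mul_le_mul_of_nonneg_right h3 (by positivity)
  refine h2.trans ?_
  rw [← Finset.sum_mul, ← h1]
  apply mul_le_mul_of_nonneg_right _ (by positivity)
  exact Finset.sum_le_sum_of_subset_of_nonneg (Finset.filter_subset _ _)
    fun _ _ _ => by positivity

private theorem term3_aux (a b y : ℝ) (N N' : ℕ) (h : N' = 4 * N) :
    (a * b ^ N) ^ 2 * (3 ^ N' * y ^ N) = a ^ 2 * (b ^ 2 * 3 ^ 4 * y) ^ N := by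
  rw [h, mul_pow a, pow_right_comm b N 2, pow_mul (3 : ℝ) 4 N, mul_pow (b ^ 2 * 3 ^ 4),
    mul_pow (b ^ 2)]
  ring

theorem term3 {n g B τ : ℕ} (hg : 1 ≤ g) (hn : n ≤ 16 * g * B * (τ + 1)) :
    (sml n (2 * B * τ) : ℝ) ^ 2 * (3 ^ (8 * B * τ) *
      (1 / (160000 * (g : ℝ) ^ 2)) ^ (2 * B * τ)) ≤
      Real.exp (2 * B) * Real.exp (-(2 * B * τ)) := by
  have hg' : (1 : ℝ) ≤ g := by exact_mod_cast hg
  set x : ℝ := 1 / (16 * g) with hx
  have hx0 : 0 < x := by positivity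
  have hx1 : x ≤ 1 := by
    rw [hx, div_le_one (by positivity)]
    linarith
  have h1 := sml_le (n := n) (r := 2 * B * τ) hx0 hx1
  have hxi : x⁻¹ = 16 * g := by rw [hx, one_div, inv_inv]
  rw [hxi] at h1
  have h2 : (1 + x) ^ n ≤ Real.exp (B * (τ + 1)) := by
    calc (1 + x) ^ n ≤ (Real.exp x) ^ n := by
          apply pow_le_pow_left₀ (by positivity)
          have := Real.add_one_le_exp x
          linarith
      _ = Real.exp (n * x) := by rw [← Real.exp_nat_mul]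
      _ ≤ Real.exp (B * (τ + 1)) := by
          apply Real.exp_le_exp.2
          have hn' : (n : ℝ) ≤ 16 * g * B * (τ + 1) := by exact_mod_cast hn
          calc (n : ℝ) * x ≤ (16 * g * B * (τ + 1)) * x :=
                mul_le_mul_of_nonneg_right hn' hx0.le
            _ = B * (τ + 1) := by
                rw [hx]
                field_simp
  have h3 : (sml n (2 * B * τ) : ℝ) ^ 2 ≤
      (Real.exp (B * (τ + 1)) * (16 * g) ^ (2 * B * τ)) ^ 2 := by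
    apply pow_le_pow_left₀ (by positivity)
    exact h1.trans (mul_le_mul_of_nonneg_right h2 (by positivity))
  have hexp : (1296 : ℝ) / 10000 ≤ Real.exp (-2) := by
    rw [Real.exp_neg]
    have h4 : Real.exp 2 ≤ (2.7182818286) ^ 2 := by
      rw [show (2 : ℝ) = ((2 : ℕ) : ℝ) * 1 by norm_num, Real.exp_nat_mul]
      exact pow_le_pow_left₀ (Real.exp_pos 1).le Real.exp_one_lt_d9.le 2
    rw [le_inv_comm₀ (by norm_num) (Real.exp_pos 2)]
    refine h4.trans ?_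
    norm_num
  calc (sml n (2 * B * τ) : ℝ) ^ 2 * (3 ^ (8 * B * τ) *
      (1 / (160000 * (g : ℝ) ^ 2)) ^ (2 * B * τ))
      ≤ (Real.exp (B * (τ + 1)) * (16 * g) ^ (2 * B * τ)) ^ 2 * (3 ^ (8 * B * τ) *
      (1 / (160000 * (g : ℝ) ^ 2)) ^ (2 * B * τ)) :=
        mul_le_mul_of_nonneg_right h3 (by positivity)
    _ = Real.exp (B * (τ + 1)) ^ 2 *
        ((16 * (g : ℝ)) ^ 2 * 3 ^ 4 * (1 / (160000 * (g : ℝ) ^ 2))) ^ (2 * B * τ) := by
        exact term3_aux _ _ _ (2 * B * τ) (8 * B * τ) (by ring)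
    _ = Real.exp (B * (τ + 1)) ^ 2 * (1296 / 10000) ^ (2 * B * τ) := by
        congr 2
        field_simp
        norm_num
    _ ≤ Real.exp (B * (τ + 1)) ^ 2 * Real.exp (-2) ^ (2 * B * τ) := by
        apply mul_le_mul_of_nonneg_left _ (by positivity)
        exact pow_le_pow_left₀ (by norm_num) hexp _
    _ = Real.exp (2 * B) * Real.exp (-(2 * B * τ)) := by
        rw [← Real.exp_nat_mul, ← Real.exp_nat_mul, ← Real.exp_add, ← Real.exp_add]
        congr 1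
        push_cast
        ring

theorem cube_le {x : ℝ} (hx : 1 ≤ x) : x * (x + 1) * x ≤ 2 * x ^ 3 := by
  have h1 : x ^ 2 ≤ x ^ 3 := pow_le_pow_right₀ hx (by norm_num)
  nlinarith

theorem phaseA_exp {MA sA r cA qA κ0 c x w : ℝ} {g K bad N : ℕ} (hMA : 1 ≤ MA) (hsA : 1 ≤ sA)
    (hr0 : 0 < r) (hcA : 0 < cA) (hg0 : (0 : ℝ) < g) (hq0 : 0 < qA) (hq1 : qA < 1)
    (hq : qA = MA ^ cA * sA ^ (1 / (2 * (g : ℝ))) * r) (hw : w = (N : ℝ)) (hx : 0 < x)
    (hκ2 : κ0 ≤ -(Real.log qA) / 2) (hca : c ≤ cA / 2) (hKc : (K : ℝ) ≤ c * x)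
    (hW2 : x / 2 ≤ w) (hbad : (bad : ℝ) * (4 * g) ≤ x) :
    MA ^ K * sA ^ bad * r ^ N ≤ Real.exp (-(κ0 * x)) := by
  have hMA0 : 0 < MA := by linarith
  have hsA0 : 0 < sA := by linarith
  have h3 : MA ^ K ≤ MA ^ (cA * w) := by
    rw [← Real.rpow_natCast]
    apply Real.rpow_le_rpow_of_exponent_le hMA
    calc (K : ℝ) ≤ c * x := hKc
      _ ≤ (cA / 2) * x := mul_le_mul_of_nonneg_right hca hx.le
      _ = cA * (x / 2) := by ring
      _ ≤ cA * w := mul_le_mul_of_nonneg_left hW2 hcA.le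
  have h4 : sA ^ bad ≤ sA ^ (1 / (2 * (g : ℝ)) * w) := by
    rw [← Real.rpow_natCast]
    apply Real.rpow_le_rpow_of_exponent_le hsA
    rw [div_mul_eq_mul_div, le_div_iff₀ (by positivity), one_mul]
    linarith
  have h5 : MA ^ (cA * w) * sA ^ (1 / (2 * (g : ℝ)) * w) * r ^ N = qA ^ w := by
    rw [hq, Real.rpow_mul hMA0.le, Real.rpow_mul hsA0.le, ← Real.rpow_natCast r, ← hw,
      ← Real.mul_rpow (by positivity) (by positivity),
      ← Real.mul_rpow (by positivity) hr0.le]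
  calc MA ^ K * sA ^ bad * r ^ N
      ≤ MA ^ (cA * w) * sA ^ (1 / (2 * (g : ℝ)) * w) * r ^ N :=
        mul_le_mul_of_nonneg_right (mul_le_mul h3 h4 (by positivity) (by positivity))
          (by positivity)
    _ = qA ^ w := h5
    _ ≤ qA ^ (x / 2) := Real.rpow_le_rpow_of_exponent_ge hq0 hq1.le hW2
    _ = Real.exp (Real.log qA * (x / 2)) := by rw [Real.rpow_def_of_pos hq0]
    _ ≤ Real.exp (-(κ0 * x)) := by
        apply Real.exp_le_exp.2
        have h6 : κ0 * x ≤ -(Real.log qA) / 2 * x := mul_le_mul_of_nonneg_right hκ2 hx.le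
        linarith

theorem rho_le {g s B τ n : ℕ} (hg1 : 1 ≤ g) (hs1 : 1 ≤ s) (hB : B = 10000 * s * g)
    (hn1 : 1 ≤ n) (hn : 32 * g * B ≤ n)
    (hτ1 : 16 * g * B * τ ≤ n) (hτ2 : n ≤ 16 * g * B * (τ + 1))
    (hgexp : Real.exp (-((s : ℝ) / (32 * g))) ≤ 1 / (320000 * (g : ℝ) ^ 2)) :
    s * (τ : ℝ) / (2 * n) + (1 - (2 * B * τ : ℕ) / (2 * n)) ^ s ≤
      1 / (160000 * (g : ℝ) ^ 2) := by
  have hgR : (1 : ℝ) ≤ g := by exact_mod_cast hg1
  have hsR : (1 : ℝ) ≤ s := by exact_mod_cast hs1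
  have hnR : (1 : ℝ) ≤ n := by exact_mod_cast hn1
  have hBR : (B : ℝ) = 10000 * s * g := by
    rw [hB]
    push_cast
    ring
  have hτ0 : (0 : ℝ) ≤ τ := Nat.cast_nonneg _
  have hnB : (32 * (g : ℝ) * B) ≤ n := by exact_mod_cast hn
  have hτ1R : 16 * (g : ℝ) * B * τ ≤ n := by exact_mod_cast hτ1
  have hτ2R : (n : ℝ) ≤ 16 * g * B * (τ + 1) := by exact_mod_cast hτ2
  have h1 : s * (τ : ℝ) / (2 * n) ≤ 1 / (320000 * (g : ℝ) ^ 2) := by
    rw [div_le_div_iff₀ (by positivity) (by positivity)]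
    have h2 : 16 * (g : ℝ) * B * τ = (s * τ) * (160000 * (g : ℝ) ^ 2) := by
      rw [hBR]
      ring
    rw [h2] at hτ1R
    linarith
  have hB0 : (0 : ℝ) ≤ B := Nat.cast_nonneg _
  have h2 : (1 - (2 * B * τ : ℕ) / (2 * (n : ℝ))) ^ s ≤ Real.exp (-((s : ℝ) / (32 * g))) := by
    have hA : (2 * B * τ : ℕ) / (2 * (n : ℝ)) = (B * τ) / n := by
      push_cast
      field_simp
    have hBt : (B : ℝ) * τ ≤ n := by
      have : (1 : ℝ) * (B * τ) ≤ (16 * g) * (B * τ) := by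
        apply mul_le_mul_of_nonneg_right _ (by positivity)
        linarith
      linarith
    rw [hA]
    have h3 : (1 : ℝ) / (32 * g) ≤ (B * τ) / (n : ℝ) := by
      rw [div_le_div_iff₀ (by positivity) (by positivity)]
      linarith
    have h4 : (B * τ) / (n : ℝ) ≤ 1 := by
      rw [div_le_one (by positivity)]
      exact hBt
    calc (1 - (B * τ) / (n : ℝ)) ^ s
        ≤ (Real.exp (-(1 / (32 * (g : ℝ))))) ^ s := by
          apply pow_le_pow_left₀ (by linarith)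
          have := Real.add_one_le_exp (-(1 / (32 * (g : ℝ))))
          linarith
      _ = Real.exp (-((s : ℝ) / (32 * g))) := by
          rw [← Real.exp_nat_mul]
          congr 1
          ring
  have h3 := h2.trans hgexp
  have h4 : (1 : ℝ) / (160000 * (g : ℝ) ^ 2) = 1 / (320000 * (g : ℝ) ^ 2) +
      1 / (320000 * (g : ℝ) ^ 2) := by
    field_simp
    norm_num
  rw [h4]
  exact add_le_add h1 h3

theorem decay_le {κ0 : ℝ} {g B τ n : ℕ} (hg0 : (0 : ℝ) < g) (hκ1 : κ0 ≤ 1 / (8 * (g : ℝ)))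
    (hτ2 : (n : ℝ) ≤ 16 * g * B * (τ + 1)) :
    Real.exp (-(2 * B * τ)) ≤ Real.exp (2 * B) * Real.exp (-(κ0 * n)) := by
  rw [← Real.exp_add]
  apply Real.exp_le_exp.2
  have hn0 : (0 : ℝ) ≤ n := Nat.cast_nonneg _
  have h1 : κ0 * n ≤ n / (8 * g) := by
    calc κ0 * n ≤ (1 / (8 * (g : ℝ))) * n := mul_le_mul_of_nonneg_right hκ1 hn0
      _ = n / (8 * g) := by ring
  have h2 : (n : ℝ) / (8 * g) ≤ 2 * B * (τ + 1) := by
    rw [div_le_iff₀ (by positivity)]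
    linarith
  linarith

theorem MK_le {M κ0 c x : ℝ} {K : ℕ} (hM0 : 0 < M) (hlogM : 0 < Real.log M)
    (hcb : c ≤ κ0 / (4 * Real.log M)) (hx : 0 ≤ x) (hKc : (K : ℝ) ≤ c * x) :
    M ^ K ≤ Real.exp (κ0 * x / 4) := by
  rw [← Real.rpow_natCast, Real.rpow_def_of_pos hM0]
  apply Real.exp_le_exp.2
  calc Real.log M * K ≤ Real.log M * (c * x) := mul_le_mul_of_nonneg_left hKc hlogM.le
    _ ≤ Real.log M * ((κ0 / (4 * Real.log M)) * x) :=
        mul_le_mul_of_nonneg_left (mul_le_mul_of_nonneg_right hcb hx) hlogM.le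
    _ = κ0 * x / 4 := by
        field_simp

theorem Mn_le {M κ0 : ℝ} {n : ℕ} (hM0 : 0 < M) (hMκ : 2 / M ≤ κ0 / 4) :
    (1 + M⁻¹) ^ (2 * n) ≤ Real.exp (κ0 * n / 4) := by
  have hn0 : (0 : ℝ) ≤ n := Nat.cast_nonneg _
  have hM1 : 0 < M⁻¹ := inv_pos.2 hM0
  calc (1 + M⁻¹) ^ (2 * n) ≤ (Real.exp M⁻¹) ^ (2 * n) := by
        apply pow_le_pow_left₀ (by positivity)
        have := Real.add_one_le_exp M⁻¹
        linarith
    _ = Real.exp ((2 * n : ℕ) * M⁻¹) := by rw [← Real.exp_nat_mul]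
    _ ≤ _ := by
        apply Real.exp_le_exp.2
        push_cast
        have h1 : 2 * (n : ℝ) * M⁻¹ = n * (2 / M) := by
          rw [div_eq_mul_inv]
          ring
        rw [h1]
        calc (n : ℝ) * (2 / M) ≤ n * (κ0 / 4) := mul_le_mul_of_nonneg_left hMκ hn0
          _ = _ := by ring

theorem zeta_le {ζ κ0 : ℝ} {g B τ n : ℕ} (hζ0 : 0 < ζ) (hκ : 0 < κ0) (hζb : ζ ≤ κ0 * g / 2)
    (hτ1 : 16 * (g : ℝ) * B * τ ≤ n) :
    (1 + ζ) ^ (8 * B * τ) ≤ Real.exp (κ0 * n / 4) := by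
  calc (1 + ζ) ^ (8 * B * τ) ≤ (Real.exp ζ) ^ (8 * B * τ) := by
        apply pow_le_pow_left₀ (by positivity)
        have := Real.add_one_le_exp ζ
        linarith
    _ = Real.exp ((8 * B * τ : ℕ) * ζ) := by rw [← Real.exp_nat_mul]
    _ ≤ _ := by
        apply Real.exp_le_exp.2
        push_cast
        calc 8 * (B : ℝ) * τ * ζ ≤ 8 * (B : ℝ) * τ * (κ0 * g / 2) :=
              mul_le_mul_of_nonneg_left hζb (by positivity)
          _ = κ0 / 4 * (16 * g * B * τ) := by ring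
          _ ≤ κ0 / 4 * n := mul_le_mul_of_nonneg_left hτ1 (by positivity)
          _ = _ := by ring

theorem term2 {ζ : ℝ} {B τ : ℕ} (hζ0 : 0 < ζ)
    (hζa : ζ ≤ Real.exp (-(2 * (B : ℝ))) / 2 ^ (8 * B)) :
    2 ^ (8 * B * τ) * ζ ^ τ ≤ Real.exp (-(2 * B * τ)) := by
  calc 2 ^ (8 * B * τ) * ζ ^ τ = (2 ^ (8 * B) * ζ) ^ τ := by
        rw [mul_pow, ← pow_mul]
    _ ≤ (Real.exp (-(2 * (B : ℝ)))) ^ τ := by
        apply pow_le_pow_left₀ (by positivity)
        rw [le_div_iff₀ (by positivity)] at hζa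
        linarith
    _ = _ := by
        rw [← Real.exp_nat_mul]
        congr 1
        ring

/-- the final numerical estimate -/
theorem numeric {pA κ0 C E A x T1 T2 MK Mn k : ℝ} (hx : 1 ≤ x) (hκ : 0 < κ0) (hC : 0 ≤ C)
    (hE : 0 < E) (hA : A = 4 * C + 2 * E) (hk : k ≤ x)
    (hpA : pA = x * (x + 1) * (x * C) * Real.exp (-(κ0 * x)))
    (hMK0 : 0 ≤ MK) (hMK : MK ≤ Real.exp (κ0 * x / 4))
    (hMn0 : 0 ≤ Mn) (hMn : Mn ≤ Real.exp (κ0 * x / 4))
    (hT1 : T1 ≤ Real.exp (κ0 * x / 4)) (hT10 : 0 ≤ T1)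
    (hT2 : T2 ≤ E * Real.exp (-(κ0 * x))) (hT20 : 0 ≤ T2) :
    (k + 1) * MK * Mn * (pA * T1 + T2) ≤ A * (x ^ 4 * Real.exp (-(κ0 / 4 * x))) := by
  have hx0 : 0 < x := by linarith
  have hpA0 : 0 ≤ pA := by
    rw [hpA]
    positivity
  obtain ⟨X, hX⟩ : ∃ X : ℝ, X = Real.exp (-(3 * (κ0 * x) / 4)) := ⟨_, rfl⟩
  have hX0 : 0 < X := by
    rw [hX]
    exact Real.exp_pos _
  have e1 : Real.exp (-(κ0 * x)) * Real.exp (κ0 * x / 4) = X := by
    rw [hX, ← Real.exp_add]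
    congr 1
    ring
  have h1 : pA * T1 ≤ (2 * x ^ 3 * C) * X := by
    calc pA * T1 ≤ pA * Real.exp (κ0 * x / 4) := mul_le_mul_of_nonneg_left hT1 hpA0
      _ = (x * (x + 1) * x) * (C * (Real.exp (-(κ0 * x)) * Real.exp (κ0 * x / 4))) := by
          rw [hpA]
          ring
      _ = (x * (x + 1) * x) * (C * X) := by rw [e1]
      _ ≤ (2 * x ^ 3) * (C * X) := mul_le_mul_of_nonneg_right (cube_le hx) (by positivity)
      _ = _ := by ring
  have h3 : Real.exp (-(κ0 * x)) ≤ X := by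
    rw [hX]
    apply Real.exp_le_exp.2
    have : 0 ≤ κ0 * x := by positivity
    linarith
  have h2 : T2 ≤ E * X := hT2.trans (mul_le_mul_of_nonneg_left h3 hE.le)
  have h4 : pA * T1 + T2 ≤ (2 * x ^ 3 * C + E) * X := by
    calc pA * T1 + T2 ≤ (2 * x ^ 3 * C) * X + E * X := add_le_add h1 h2
      _ = _ := by ring
  have h50 : 0 ≤ pA * T1 + T2 := by positivity
  obtain ⟨Y, hY⟩ : ∃ Y : ℝ, Y = Real.exp (κ0 * x / 4) := ⟨_, rfl⟩
  rw [← hY] at hMK hMn
  have hY0 : 0 < Y := by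
    rw [hY]
    exact Real.exp_pos _
  have h5 : (k + 1) * MK * Mn ≤ (x + 1) * Y * Y :=
    mul_le_mul (mul_le_mul (by linarith) hMK hMK0 (by linarith)) hMn hMn0 (by positivity)
  have e2 : Y * Y * X = Real.exp (-(κ0 / 4 * x)) := by
    rw [hX, hY, ← Real.exp_add, ← Real.exp_add]
    congr 1
    ring
  have h6 : (x + 1) * (2 * x ^ 3 * C + E) ≤ A * x ^ 4 := by
    have h7 : (1 : ℝ) ≤ x ^ 3 := one_le_pow₀ hx
    have h8 : E ≤ E * x ^ 3 := le_mul_of_one_le_right hE.le h7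
    calc (x + 1) * (2 * x ^ 3 * C + E) ≤ (2 * x) * (2 * x ^ 3 * C + E * x ^ 3) := by
          apply mul_le_mul (by linarith) (by linarith) (by positivity) (by positivity)
      _ = A * x ^ 4 := by
          rw [hA]
          ring
  calc (k + 1) * MK * Mn * (pA * T1 + T2)
      ≤ ((x + 1) * Y * Y) * ((2 * x ^ 3 * C + E) * X) :=
        mul_le_mul h5 h4 h50 (by positivity)
    _ = ((x + 1) * (2 * x ^ 3 * C + E)) * (Y * Y * X) := by ring
    _ ≤ (A * x ^ 4) * (Y * Y * X) := mul_le_mul_of_nonneg_right h6 (by positivity)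
    _ = A * (x ^ 4 * Real.exp (-(κ0 / 4 * x))) := by
        rw [e2]
        ring

open Classical in
/-- **The failure rate.** -/
theorem fail_rate {d : ℕ} (hd : 2 ≤ d) : ∃ c A κ : ℝ, 0 < c ∧ 0 ≤ A ∧ 0 < κ ∧
    ∀ᶠ n : ℕ in atTop,
      (((Om (Fin n) n d).filter fun Λ => ¬ RegL d n ⌊c * (n : ℝ)⌋₊ Λ).card : ℝ) ≤
        (A * ((n : ℝ) ^ 4 * Real.exp (-(κ * n)))) * (Om (Fin n) n d).card := by
  obtain ⟨g, hg2, hgexp⟩ := exists_g hd
  have hg1 : 1 ≤ g := by omega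
  have hgR : (1 : ℝ) ≤ g := by exact_mod_cast hg1
  have hg0 : (0 : ℝ) < g := by linarith
  obtain ⟨s, hs⟩ : ∃ s, s = g.choose d := ⟨_, rfl⟩
  rw [← hs] at hgexp
  have hs1 : 1 ≤ s := by
    rw [hs]
    exact Nat.choose_pos (by omega)
  have hsR : (1 : ℝ) ≤ s := by exact_mod_cast hs1
  obtain ⟨B, hB⟩ : ∃ B, B = 10000 * s * g := ⟨_, rfl⟩
  have hB1 : 1 ≤ B := by
    rw [hB]
    have : 1 ≤ s * g := Nat.mul_pos hs1 hg1
    nlinarith
  have hB0 : (0 : ℝ) < B := by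
    have : (1 : ℝ) ≤ B := by exact_mod_cast hB1
    linarith
  have hdR : (2 : ℝ) ≤ d := by exact_mod_cast hd
  have hdg : (2 * (d : ℝ)) ≤ g := by exact_mod_cast hg2
  -- phase A
  obtain ⟨MA, sA, r, ρA, cA, hMA, hsA, hr0, hr1, hρA, hρA1, hpar, hcA, hqA⟩ :=
    params hd (μ := 1 / (2 * (g : ℝ))) (by positivity) (by
      rw [div_mul_eq_mul_div, div_lt_one (by positivity)]
      linarith)
  obtain ⟨qA, hqAdef⟩ : ∃ x : ℝ, x = MA ^ cA * sA ^ (1 / (2 * (g : ℝ))) * r := ⟨_, rfl⟩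
  have hMA0 : 0 < MA := by linarith
  have hsA0 : 0 < sA := by linarith
  have hqA0 : 0 < qA := by
    rw [hqAdef]
    positivity
  rw [← hqAdef] at hqA
  have hlogqA : Real.log qA < 0 := Real.log_neg hqA0 hqA
  obtain ⟨κ0, hκ0⟩ : ∃ x : ℝ, x = min (1 / (8 * (g : ℝ))) (-(Real.log qA) / 2) := ⟨_, rfl⟩
  have hκpos : 0 < κ0 := by
    rw [hκ0]
    exact lt_min (by positivity) (by linarith)
  have hκ1 : κ0 ≤ 1 / (8 * (g : ℝ)) := hκ0 ▸ min_le_left _ _
  have hκ2 : κ0 ≤ -(Real.log qA) / 2 := hκ0 ▸ min_le_right _ _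
  obtain ⟨ζ, hζdef⟩ : ∃ x : ℝ, x = min (Real.exp (-(2 * (B : ℝ))) / 2 ^ (8 * B))
    (min (κ0 * g / 2) 1) := ⟨_, rfl⟩
  have hζ0 : 0 < ζ := by
    rw [hζdef]
    exact lt_min (by positivity) (lt_min (by positivity) one_pos)
  have hζa : ζ ≤ Real.exp (-(2 * (B : ℝ))) / 2 ^ (8 * B) := hζdef ▸ min_le_left _ _
  have hζb : ζ ≤ κ0 * g / 2 := hζdef ▸ (min_le_right _ _).trans (min_le_left _ _)
  have hζ1 : ζ ≤ 1 := hζdef ▸ (min_le_right _ _).trans (min_le_right _ _)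
  obtain ⟨M, hMdef⟩ : ∃ x : ℝ, x = (2 ^ g + s) / ζ + 8 / κ0 + 1 := ⟨_, rfl⟩
  have hM1 : 1 < M := by
    have h1 : 0 ≤ (2 ^ g + (s : ℝ)) / ζ := by positivity
    have h2 : 0 < 8 / κ0 := by positivity
    linarith
  have hM0 : 0 < M := by linarith
  have hlogM : 0 < Real.log M := Real.log_pos hM1
  have hMζ : (2 ^ g + (s : ℝ)) / M ≤ ζ := by
    rw [div_le_comm₀ hM0 hζ0]
    have h2 : 0 < 8 / κ0 := by positivity
    linarith
  have hMκ : 2 / M ≤ κ0 / 4 := by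
    have h1 : 0 ≤ (2 ^ g + (s : ℝ)) / ζ := by positivity
    have h2 : 8 / κ0 ≤ M := by linarith
    rw [div_le_iff₀ hκpos] at h2
    rw [div_le_div_iff₀ hM0 (by norm_num)]
    linarith
  obtain ⟨c, hcdef⟩ : ∃ x : ℝ, x = min (cA / 2) (min (κ0 / (4 * Real.log M))
    (1 / (8 * (g : ℝ)))) := ⟨_, rfl⟩
  have hc0 : 0 < c := by
    rw [hcdef]
    exact lt_min (by positivity) (lt_min (by positivity) (by positivity))
  have hca : c ≤ cA / 2 := hcdef ▸ min_le_left _ _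
  have hcb : c ≤ κ0 / (4 * Real.log M) := hcdef ▸ (min_le_right _ _).trans (min_le_left _ _)
  have hcc : c ≤ 1 / (8 * (g : ℝ)) := hcdef ▸ (min_le_right _ _).trans (min_le_right _ _)
  have hc1 : c ≤ 1 := by
    refine hcc.trans ?_
    rw [div_le_one (by positivity)]
    linarith
  obtain ⟨E, hE⟩ : ∃ x : ℝ, x = (1 + Real.exp (2 * B)) * Real.exp (2 * B) := ⟨_, rfl⟩
  have hE0 : 0 < E := by
    rw [hE]
    positivity
  obtain ⟨C, hC⟩ : ∃ x : ℝ, x = (2 / r) ^ d := ⟨_, rfl⟩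
  have hC0 : 0 ≤ C := by
    rw [hC]
    positivity
  obtain ⟨A, hA⟩ : ∃ x : ℝ, x = 4 * C + 2 * E := ⟨_, rfl⟩
  have hA0 : 0 < A := by
    rw [hA]
    positivity
  refine ⟨c, A, κ0 / 4, hc0, hA0.le, by positivity, ?_⟩
  -- the failure probability of phase A
  have hpAlim : Tendsto (fun n : ℕ => (2 * C) * ((n : ℝ) ^ 3 * Real.exp (-κ0) ^ n))
      atTop (nhds 0) := by
    have h := tendsto_pow_const_mul_const_pow_of_abs_lt_one 3 (r := Real.exp (-κ0)) (by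
      rw [abs_of_pos (Real.exp_pos _)]
      exact Real.exp_lt_one_iff.2 (by linarith))
    have h2 := h.const_mul (2 * C)
    rwa [mul_zero] at h2
  filter_upwards [eventually_ge_atTop (32 * g * B), eventually_ge_atTop 1,
    hpAlim.eventually_le_const one_pos] with n hn hn1 hpn
  have hnR : (1 : ℝ) ≤ n := by exact_mod_cast hn1
  have hn0 : (0 : ℝ) < n := by linarith
  obtain ⟨τ, hτ⟩ : ∃ τ, τ = n / (16 * g * B) := ⟨_, rfl⟩
  have h16 : 0 < 16 * g * B := by positivity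
  have hτ1 : 16 * g * B * τ ≤ n := by
    rw [hτ]
    exact Nat.mul_div_le _ _
  have hτ2 : n ≤ 16 * g * B * (τ + 1) := by
    rw [hτ]
    exact (Nat.lt_mul_div_succ n h16).le
  have hτ1R : 16 * (g : ℝ) * B * τ ≤ n := by exact_mod_cast hτ1
  have hτ2R : (n : ℝ) ≤ 16 * g * B * (τ + 1) := by exact_mod_cast hτ2
  obtain ⟨K, hK⟩ : ∃ K, K = ⌊c * (n : ℝ)⌋₊ := ⟨_, rfl⟩
  rw [← hK]
  have hKc : (K : ℝ) ≤ c * n := by
    rw [hK]
    exact Nat.floor_le (by positivity)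
  have hKn : (K : ℝ) ≤ n := by
    refine hKc.trans ?_
    calc c * n ≤ 1 * n := mul_le_mul_of_nonneg_right hc1 hn0.le
      _ = n := one_mul _
  -- the probability bound
  obtain ⟨pA, hpAdef⟩ : ∃ x : ℝ, x = (n : ℝ) * (n + 1) * (n * C) * Real.exp (-(κ0 * n)) :=
    ⟨_, rfl⟩
  have hpA0 : 0 ≤ pA := by
    rw [hpAdef]
    positivity
  have hpA1 : pA ≤ 1 := by
    refine le_trans ?_ hpn
    have e1 : Real.exp (-κ0) ^ n = Real.exp (-(κ0 * n)) := by
      rw [← Real.exp_nat_mul]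
      congr 1
      ring
    rw [e1, hpAdef]
    have h2 : (n : ℝ) * (n + 1) * n ≤ 2 * n ^ 3 := cube_le hnR
    have h3 : 0 ≤ C * Real.exp (-(κ0 * n)) := by positivity
    calc (n : ℝ) * (n + 1) * (n * C) * Real.exp (-(κ0 * n))
        = ((n : ℝ) * (n + 1) * n) * (C * Real.exp (-(κ0 * n))) := by ring
      _ ≤ (2 * n ^ 3) * (C * Real.exp (-(κ0 * n))) :=
          mul_le_mul_of_nonneg_right h2 h3
      _ = _ := by ring
  have hpA : ∀ W : Finset (Fin n), n ≤ W.card + 8 * B * τ * g → ∀ Bad : Finset (Fin n),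
      Bad.card ≤ 4 * B * τ →
      (((Om (Fin n) n d).filter fun Λ => ¬ Free W (d : ℤ) (rl W Λ) Bad (K : ℤ)).card : ℝ) ≤
        pA * (Om (Fin n) n d).card := by
    intro W hW Bad hBad
    have h1 := card_not_free (σ := Fin n) (m := n) (by omega : 1 ≤ d) hMA hsA hr0 hr1 hρA hρA1
      hpar W Bad K
    refine h1.trans ?_
    have hWR : (n : ℝ) ≤ W.card + 8 * B * τ * g := by exact_mod_cast hW
    have hW2 : (n : ℝ) / 2 ≤ W.card := by linarith
    have hBadR : (Bad.card : ℝ) ≤ 4 * B * τ := by exact_mod_cast hBad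
    have hBad4 : (Bad.card : ℝ) * (4 * g) ≤ n := by
      calc (Bad.card : ℝ) * (4 * g) ≤ (4 * B * τ) * (4 * g) :=
            mul_le_mul_of_nonneg_right hBadR (by positivity)
        _ = 16 * (g : ℝ) * B * τ := by ring
        _ ≤ n := hτ1R
    have hBadn : (Bad.card : ℝ) ≤ n := by
      have := Finset.card_le_univ Bad
      rw [Fintype.card_fin] at this
      exact_mod_cast this
    have h2 : MA ^ K * sA ^ Bad.card * r ^ W.card ≤ Real.exp (-(κ0 * n)) :=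
      phaseA_exp hMA hsA hr0 hcA hg0 hqA0 hqA hqAdef rfl hn0 hκ2 hca hKc hW2 hBad4
    have hO : (0 : ℝ) ≤ (Om (Fin n) n d).card := by positivity
    have h3 : (Bad.card : ℝ) * (K + 1) ≤ n * (n + 1) :=
      mul_le_mul hBadn (by linarith) (by positivity) hn0.le
    have h4 : (((Om (Fin n) n d).card * n * C) : ℝ) *
          (MA ^ K * sA ^ Bad.card * r ^ W.card) ≤ ((Om (Fin n) n d).card * n * C) *
          Real.exp (-(κ0 * n)) := mul_le_mul_of_nonneg_left h2 (by positivity)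
    calc ((Bad.card : ℝ) * (K + 1)) * (((Om (Fin n) n d).card * n * (2 / r) ^ d) * MA ^ K *
          sA ^ Bad.card * r ^ W.card)
        = ((Bad.card : ℝ) * (K + 1)) * (((Om (Fin n) n d).card * n * C) *
          (MA ^ K * sA ^ Bad.card * r ^ W.card)) := by
          rw [hC]
          ring
      _ ≤ ((n : ℝ) * (n + 1)) * (((Om (Fin n) n d).card * n * C) *
          Real.exp (-(κ0 * n))) := mul_le_mul h3 h4 (by positivity) (by positivity)
      _ = pA * (Om (Fin n) n d).card := by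
          rw [hpAdef]
          ring
  -- the parameters
  have hg' : 8 * B * τ * g ≤ n := by
    refine le_trans ?_ hτ1
    calc 8 * B * τ * g ≤ 2 * (8 * B * τ * g) := by omega
      _ = 16 * g * B * τ := by ring
  have hq : K < (K / d + 1) * d := by
    rw [mul_comm]
    exact Nat.lt_mul_div_succ K (by omega)
  have hqB : K / d ≤ 2 * B * τ := by
    have h1 : K / d ≤ K / 2 := Nat.div_le_div_left hd (by norm_num)
    have h2 : ((K / 2 : ℕ) : ℝ) ≤ (K : ℝ) / 2 := Nat.cast_div_le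
    have h3 : (K : ℝ) ≤ n / (8 * g) := by
      calc (K : ℝ) ≤ c * n := hKc
        _ ≤ (1 / (8 * (g : ℝ))) * n := mul_le_mul_of_nonneg_right hcc hn0.le
        _ = n / (8 * g) := by ring
    have hτp : (1 : ℝ) ≤ τ := by
      have h5 : 1 ≤ τ := by
        rw [hτ, Nat.one_le_div_iff h16]
        calc 16 * g * B ≤ 2 * (16 * g * B) := by omega
          _ = 32 * g * B := by ring
          _ ≤ n := hn
      exact_mod_cast h5
    have h4 : (n : ℝ) / (8 * g) ≤ 4 * B * τ := by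
      rw [div_le_iff₀ (by positivity)]
      calc (n : ℝ) ≤ 16 * g * B * (τ + 1) := hτ2R
        _ ≤ 16 * g * B * (τ + τ) := mul_le_mul_of_nonneg_left (by linarith) (by positivity)
        _ = 4 * B * τ * (8 * g) := by ring
    have h5 : ((K / 2 : ℕ) : ℝ) ≤ ((2 * B * τ : ℕ) : ℝ) := by
      push_cast
      linarith
    exact h1.trans (by exact_mod_cast h5)
  have hζ' : 2 ^ g / M + (M ^ d)⁻¹ * s ≤ ζ := by
    have h1 : M ≤ M ^ d := le_self_pow₀ hM1.le (by omega)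
    have h2 : (M ^ d)⁻¹ ≤ M⁻¹ := inv_anti₀ hM0 h1
    have h3 : (M ^ d)⁻¹ * s ≤ M⁻¹ * s := mul_le_mul_of_nonneg_right h2 (by positivity)
    calc 2 ^ g / M + (M ^ d)⁻¹ * s ≤ 2 ^ g / M + M⁻¹ * s := by linarith
      _ = (2 ^ g + (s : ℝ)) / M := by
          rw [add_div, div_eq_inv_mul (s : ℝ) M]
      _ ≤ ζ := hMζ
  have hρ := rho_le hg1 hs1 hB hn1 hn hτ1 hτ2 hgexp
  have hρ1 : 1 / (160000 * (g : ℝ) ^ 2) ≤ 1 := by
    rw [div_le_one (by positivity)]
    have : (1 : ℝ) ≤ (g : ℝ) ^ 2 := one_le_pow₀ hgR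
    linarith
  have htot := total (by omega : 1 ≤ d) hn1 hs.le hB1 hg' hq hqB hM1.le hζ0 hζ' hζ1
    (by positivity) hρ1 hρ hpA0 hpA1 hpA
  refine htot.trans ?_
  apply mul_le_mul_of_nonneg_right _ (by positivity)
  -- the numerical estimate
  have hdecay : Real.exp (-(2 * B * τ)) ≤ Real.exp (2 * B) * Real.exp (-(κ0 * n)) :=
    decay_le hg0 hκ1 hτ2R
  have hT2 : 2 ^ (8 * B * τ) * ζ ^ τ +
      (sml n (2 * B * τ) : ℝ) ^ 2 * (3 ^ (8 * B * τ) *
        (1 / (160000 * (g : ℝ) ^ 2)) ^ (2 * B * τ)) ≤ E * Real.exp (-(κ0 * n)) := by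
    calc 2 ^ (8 * B * τ) * ζ ^ τ +
          (sml n (2 * B * τ) : ℝ) ^ 2 * (3 ^ (8 * B * τ) *
            (1 / (160000 * (g : ℝ) ^ 2)) ^ (2 * B * τ))
        ≤ Real.exp (-(2 * B * τ)) + Real.exp (2 * B) * Real.exp (-(2 * B * τ)) :=
          add_le_add (term2 hζ0 hζa) (term3 (B := B) (τ := τ) hg1 hτ2)
      _ = (1 + Real.exp (2 * B)) * Real.exp (-(2 * B * τ)) := by ring
      _ ≤ (1 + Real.exp (2 * B)) * (Real.exp (2 * B) * Real.exp (-(κ0 * n))) :=
          mul_le_mul_of_nonneg_left hdecay (by positivity)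
      _ = E * Real.exp (-(κ0 * n)) := by
          rw [hE]
          ring
  exact numeric hnR hκpos hC0 hE0 hA hKn hpAdef (by positivity) (MK_le hM0 hlogM hcb hn0.le hKc)
    (by positivity) (Mn_le hM0 hMκ) (zeta_le hζ0 hκpos hζb hτ1R) (by positivity) hT2
    (by positivity)

end H64SRL
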