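import Pool.Agent.H64.SRL.Prob
import Pool.Agent.H64.SRL.Flag

/-!
# [SRL-VAL] The value of the recursion

`VV_mono`, `VV_add`, `VV_smul`, `VV_sum`: induction on `t` (generalizing `h`), linearity of `avgS`.
`VV_mul`: multiplicative functions: `VV t h = U h * c ^ t`. Induction on `t`.
`VV_bound`: pointwise (for histories `h` reachable, that is `h.length = t`)
`U h ≤ G + V * (ζ^τ * (1/ζ)^(nP h) + ∑_{(R, C)} ρ^u * (1/ρ)^(miss R C h))`. To use only the histories of length `t`:
prove a version of `VV_mono` with the hypothesis only for `h.length = t + h₀.length`. Then `VV_add`, `VV_smul`, `VV_mul` with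
`φ = 1`, `φ o = (1/ζ)^(npo o)`, `φ o = (1/ρ)^(mso R C o)`. The constants `c`:
`1 + z s / 2 + y ≤ 1 + ζ`; `1 + (z s / 2 + y) / ζ ≤ 2`; for the third
`avgS (A ↦ (1/ρ)^(mso R C (P A))) + z s / 2 + y ≤ 1 + (1/ρ) * ρ + 1 = 3`, by `avgS_hit_miss`
(`(1/ρ)^x ≤ 1 + (1/ρ) x` for `x ∈ {0,1}`). (`spl_length`: the sum over `spl [] A` has `A.length` terms; `avgS_length`.)
-/

namespace H64SRL

open Finset

variable {m : ℕ}

private theorem val_avg_zero (s : ℕ) : avgS m s (fun _ => (0 : ℝ)) = 0 := by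
  have h := avgS_smul (m := m) s 0 (fun _ => (0 : ℝ))
  simpa using h

private theorem val_avg_nonneg (s : ℕ) {F : List (Fin m) → ℝ} (h : ∀ A, 0 ≤ F A) :
    0 ≤ avgS m s F := by
  rw [← val_avg_zero (m := m) s]
  exact avgS_mono s h

private theorem val_prod_pow (x : ℝ) (g : Op m → ℕ) (h : List (Op m)) :
    (h.map fun o => x ^ g o).prod = x ^ (h.map g).sum := by
  induction h with
  | nil => simp
  | cons o h ih => rw [List.map_cons, List.prod_cons, ih, List.map_cons, List.sum_cons, pow_add]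

private theorem val_sum_const (c : ℝ) (A : List (Fin m)) :
    ((spl [] A).map fun _ => c).sum = c * A.length := by
  rw [List.map_const', List.sum_replicate, spl_length, nsmul_eq_mul, mul_comm]

theorem VV_mono (s : ℕ) {z y : ℝ} (hz : 0 ≤ z) (hy : 0 ≤ y) {U U' : List (Op m) → ℝ} (t : ℕ) :
    ∀ h₀ : List (Op m), (∀ h : List (Op m), h.length = t + h₀.length → U h ≤ U' h) →
      VV m s z y U t h₀ ≤ VV m s z y U' t h₀ := by
  induction t with
  | zero =>
    intro h₀ hU
    exact hU h₀ (by omega)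
  | succ t ih =>
    intro h₀ hU
    have key : ∀ o : Op m, VV m s z y U t (o :: h₀) ≤ VV m s z y U' t (o :: h₀) := fun o =>
      ih (o :: h₀) fun h hh => hU h (by rw [hh, List.length_cons]; omega)
    unfold VV
    refine add_le_add (avgS_mono s fun A => ?_) (mul_le_mul_of_nonneg_left (key _) hy)
    refine add_le_add (key _) (mul_le_mul_of_nonneg_left ?_ hz)
    exact List.sum_le_sum fun p _ => key _

theorem VV_nonneg (s : ℕ) {z y : ℝ} (hz : 0 ≤ z) (hy : 0 ≤ y) {U : List (Op m) → ℝ}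
    (hU : ∀ h, 0 ≤ U h) (t : ℕ) (h : List (Op m)) : 0 ≤ VV m s z y U t h := by
  induction t generalizing h with
  | zero => exact hU h
  | succ t ih =>
    unfold VV
    refine add_nonneg (val_avg_nonneg s fun A => ?_) (mul_nonneg hy (ih _))
    refine add_nonneg (ih _) (mul_nonneg hz ?_)
    refine List.sum_nonneg fun x hx => ?_
    rw [List.mem_map] at hx
    obtain ⟨p, _, rfl⟩ := hx
    exact ih _

theorem VV_add (s : ℕ) (z y : ℝ) (U U' : List (Op m) → ℝ) (t : ℕ) (h : List (Op m)) :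
    VV m s z y (fun h => U h + U' h) t h = VV m s z y U t h + VV m s z y U' t h := by
  induction t generalizing h with
  | zero => rfl
  | succ t ih =>
    unfold VV
    simp only [ih]
    rw [mul_add, add_add_add_comm, ← avgS_add]
    congr 1
    congr 1
    funext A
    rw [List.sum_map_add]
    ring

theorem VV_smul (s : ℕ) (z y c : ℝ) (U : List (Op m) → ℝ) (t : ℕ) (h : List (Op m)) :
    VV m s z y (fun h => c * U h) t h = c * VV m s z y U t h := by
  induction t generalizing h with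
  | zero => rfl
  | succ t ih =>
    unfold VV
    simp only [ih]
    rw [mul_add, ← avgS_smul]
    congr 1
    · congr 1
      funext A
      rw [List.sum_map_mul_left]
      ring
    · ring

theorem VV_mul (s : ℕ) (z y : ℝ) (φ : Op m → ℝ) (t : ℕ) (h : List (Op m)) :
    VV m s z y (fun h => (h.map φ).prod) t h = (h.map φ).prod *
      (avgS m s (fun A => φ (Op.P A) + z * ((spl [] A).map fun p => φ (Op.C p.1 p.2)).sum) +
        y * φ Op.W) ^ t := by
  induction t generalizing h with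
  | zero =>
    unfold VV
    rw [pow_zero, mul_one]
  | succ t ih =>
    rw [pow_succ]
    conv_lhs => unfold VV
    simp only [ih, List.map_cons, List.prod_cons]
    set c := (avgS m s (fun A => φ (Op.P A) + z * ((spl [] A).map fun p => φ (Op.C p.1 p.2)).sum) +
        y * φ Op.W) with hc
    have h1 : (fun A : List (Fin m) => φ (Op.P A) * (h.map φ).prod * c ^ t +
        z * ((spl [] A).map fun p => φ (Op.C p.1 p.2) * (h.map φ).prod * c ^ t).sum) =
        fun A => ((h.map φ).prod * c ^ t) * (φ (Op.P A) +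
          z * ((spl [] A).map fun p => φ (Op.C p.1 p.2)).sum) := by
      funext A
      have h2 : (fun p : List (Fin m) × Fin m => φ (Op.C p.1 p.2) * (h.map φ).prod * c ^ t) =
          fun p => ((h.map φ).prod * c ^ t) * φ (Op.C p.1 p.2) := by
        funext p
        ring
      rw [h2, List.sum_map_mul_left]
      ring
    rw [h1, avgS_smul]
    have h3 : avgS m s (fun A => φ (Op.P A) +
        z * ((spl [] A).map fun p => φ (Op.C p.1 p.2)).sum) = c - y * φ Op.W := by
      rw [hc]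
      ring
    rw [h3]
    ring

private theorem VV_finsum (s : ℕ) (z y : ℝ) {ι : Type*} (P : Finset ι)
    (U : ι → List (Op m) → ℝ) (t : ℕ) (h : List (Op m)) :
    VV m s z y (fun h => ∑ i ∈ P, U i h) t h = ∑ i ∈ P, VV m s z y (U i) t h := by
  classical
  induction P using Finset.induction_on with
  | empty =>
    have h1 := VV_smul (m := m) s z y 0 (fun _ => (0 : ℝ)) t h
    simp only [Finset.sum_empty]
    simpa using h1
  | insert i P hi ih =>
    simp only [Finset.sum_insert hi]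
    rw [VV_add, ih]

theorem VV_bound (hm : 0 < m) {s : ℕ} {z y ζ ρ G V : ℝ} (hz : 0 ≤ z) (hy : 0 ≤ y)
    (hζ : y + z * s ≤ ζ) (hζ0 : 0 < ζ) (hζ1 : ζ ≤ 1) (hρ0 : 0 < ρ) (hρ1 : ρ ≤ 1) (hG : 0 ≤ G)
    (hV : 0 ≤ V) {U : List (Op m) → ℝ} (t τ u : ℕ)
    (Pairs : Finset (Finset (Fin m) × Finset (Fin m)))
    (hpair : ∀ p ∈ Pairs, s * (p.1.card : ℝ) / (2 * m) + (1 - p.2.card / (2 * m)) ^ s ≤ ρ)
    (hU1 : ∀ h, U h ≤ G + V)
    (hU2 : ∀ h : List (Op m), h.length = t → nP h ≤ τ → (∀ p ∈ Pairs, miss p.1 p.2 h < u) →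
      U h ≤ G) :
    VV m s z y U t [] ≤ G * (1 + ζ) ^ t +
      V * (2 ^ t * ζ ^ τ + Pairs.card * (3 ^ t * ρ ^ u)) := by
  have hiζ : 1 ≤ 1 / ζ := by
    rw [le_div_iff₀ hζ0, one_mul]
    exact hζ1
  have hiρ : 1 ≤ 1 / ρ := by
    rw [le_div_iff₀ hρ0, one_mul]
    exact hρ1
  have hs : (0 : ℝ) ≤ s := Nat.cast_nonneg s
  have hzs : 0 ≤ z * s := mul_nonneg hz hs
  have hzy : z * s / 2 + y ≤ ζ := by linarith
  -- the three multiplicative functions
  have hA1 : avgS m s (fun A => 1 + z * (1 * (A.length : ℝ))) = 1 + z * s / 2 := by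
    rw [avgS_add, avgS_const hm]
    have h1 : (fun A : List (Fin m) => z * (1 * (A.length : ℝ))) = fun A => z * (A.length : ℝ) := by
      funext A
      ring
    rw [h1, avgS_smul, avgS_length hm]
    ring
  have hV1 : VV m s z y (fun h => (h.map fun _ : Op m => (1 : ℝ)).prod) t [] ≤ (1 + ζ) ^ t := by
    rw [VV_mul, List.map_nil, List.prod_nil, one_mul]
    simp only [val_sum_const]
    rw [hA1]
    refine pow_le_pow_left₀ (by linarith) ?_ _
    linarith
  have hV2 : VV m s z y (fun h => (h.map fun o : Op m => (1 / ζ) ^ npo o).prod) t [] ≤ 2 ^ t := by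
    rw [VV_mul, List.map_nil, List.prod_nil, one_mul]
    have h1 : ∀ A : List (Fin m), npo (Op.P A) = 0 := fun A => rfl
    have h2 : ∀ (A : List (Fin m)) (j : Fin m), npo (Op.C A j) = 1 := fun A j => rfl
    have h3 : npo (Op.W : Op m) = 1 := rfl
    simp only [h1, h2, h3, pow_zero, pow_one, val_sum_const]
    have h4 : avgS m s (fun A => 1 + z * (1 / ζ * (A.length : ℝ))) = 1 + z * s / 2 / ζ := by
      rw [avgS_add, avgS_const hm]
      have h1 : (fun A : List (Fin m) => z * (1 / ζ * (A.length : ℝ))) =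
          fun A => z * (1 / ζ) * (A.length : ℝ) := by
        funext A
        ring
      rw [h1, avgS_smul, avgS_length hm]
      ring
    rw [h4]
    refine pow_le_pow_left₀ (by positivity) ?_ _
    have h5 : 1 + z * s / 2 / ζ + y * (1 / ζ) = 1 + (z * s / 2 + y) / ζ := by ring
    rw [h5]
    have h6 : (z * s / 2 + y) / ζ ≤ 1 := by
      rw [div_le_one hζ0]
      exact hzy
    linarith
  have hV3 : ∀ p ∈ Pairs,
      VV m s z y (fun h => (h.map fun o : Op m => (1 / ρ) ^ mso p.1 p.2 o).prod) t [] ≤ 3 ^ t := by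
    intro p hp
    rw [VV_mul, List.map_nil, List.prod_nil, one_mul]
    have h2 : ∀ (A : List (Fin m)) (j : Fin m), mso p.1 p.2 (Op.C A j) = 0 := fun A j => rfl
    have h3 : mso p.1 p.2 (Op.W : Op m) = 0 := rfl
    simp only [h2, h3, pow_zero, val_sum_const, mul_one, one_mul]
    have h4 : avgS m s (fun A => (1 / ρ) ^ mso p.1 p.2 (Op.P A) + z * (A.length : ℝ)) ≤
        avgS m s (fun A => (1 + (1 / ρ) *
          (if (∃ j ∈ A, j ∈ p.1) ∨ (∀ j ∈ A, j ∉ p.2) then (1 : ℝ) else 0)) +
          z * (A.length : ℝ)) := by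
      refine avgS_mono s fun A => add_le_add ?_ le_rfl
      have h5 : mso p.1 p.2 (Op.P A) =
        if (∃ j ∈ A, j ∈ p.1) ∨ (∀ j ∈ A, j ∉ p.2) then 1 else 0 := rfl
      rw [h5]
      split_ifs
      · rw [pow_one, mul_one]
        linarith
      · rw [pow_zero, mul_zero, add_zero]
    have h5 : avgS m s (fun A => (1 + (1 / ρ) *
          (if (∃ j ∈ A, j ∈ p.1) ∨ (∀ j ∈ A, j ∉ p.2) then (1 : ℝ) else 0)) +
          z * (A.length : ℝ)) ≤ 2 + z * s / 2 := by
      rw [avgS_add, avgS_add, avgS_const hm, avgS_smul, avgS_smul, avgS_length hm]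
      have h6 := (avgS_hit_miss hm s p.1 p.2).trans (hpair p hp)
      have h7 : 1 / ρ * avgS m s (fun A =>
          if (∃ j ∈ A, j ∈ p.1) ∨ (∀ j ∈ A, j ∉ p.2) then (1 : ℝ) else 0) ≤ 1 / ρ * ρ :=
        mul_le_mul_of_nonneg_left h6 (by positivity)
      rw [one_div_mul_cancel hρ0.ne'] at h7
      linarith
    refine pow_le_pow_left₀ ?_ ?_ _
    · refine add_nonneg (val_avg_nonneg s fun A => ?_) hy
      positivity
    · linarith
  -- the pointwise bound
  have hpt : ∀ h : List (Op m), h.length = t + ([] : List (Op m)).length → U h ≤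
      (G * (h.map fun _ : Op m => (1 : ℝ)).prod +
        (V * ζ ^ τ) * (h.map fun o : Op m => (1 / ζ) ^ npo o).prod) +
        ∑ p ∈ Pairs, (V * ρ ^ u) * (h.map fun o : Op m => (1 / ρ) ^ mso p.1 p.2 o).prod := by
    intro h hh
    rw [List.length_nil, add_zero] at hh
    simp only [val_prod_pow]
    have e1 : (h.map fun _ : Op m => (1 : ℝ)).prod = 1 := by
      rw [List.map_const', List.prod_replicate, one_pow]
    rw [e1, mul_one]
    change U h ≤ G + V * ζ ^ τ * (1 / ζ) ^ nP h + ∑ p ∈ Pairs, V * ρ ^ u * (1 / ρ) ^ miss p.1 p.2 h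
    have hn2 : 0 ≤ V * ζ ^ τ * (1 / ζ) ^ nP h := by positivity
    have hn3 : ∀ p ∈ Pairs, 0 ≤ V * ρ ^ u * (1 / ρ) ^ miss p.1 p.2 h := fun p _ => by positivity
    by_cases hc1 : nP h ≤ τ
    · by_cases hc2 : ∀ p ∈ Pairs, miss p.1 p.2 h < u
      · have h1 := hU2 h hh hc1 hc2
        have h2 := Finset.sum_nonneg hn3
        linarith
      · push Not at hc2
        obtain ⟨p, hp, hpu⟩ := hc2
        have h1 : 1 ≤ ρ ^ u * (1 / ρ) ^ miss p.1 p.2 h := by
          obtain ⟨k, hk⟩ := Nat.exists_eq_add_of_le hpu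
          have h2 : ρ ^ u * (1 / ρ) ^ u = 1 := by
            rw [← mul_pow, mul_one_div_cancel hρ0.ne', one_pow]
          rw [hk, pow_add, ← mul_assoc, h2, one_mul]
          exact one_le_pow₀ hiρ
        have h3 : V ≤ V * ρ ^ u * (1 / ρ) ^ miss p.1 p.2 h := by
          rw [mul_assoc]
          exact le_mul_of_one_le_right hV h1
        have h4 := Finset.single_le_sum hn3 hp
        have h5 := hU1 h
        linarith
    · push Not at hc1
      have h1 : 1 ≤ ζ ^ τ * (1 / ζ) ^ nP h := by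
        obtain ⟨k, hk⟩ := Nat.exists_eq_add_of_le hc1.le
        have h2 : ζ ^ τ * (1 / ζ) ^ τ = 1 := by
          rw [← mul_pow, mul_one_div_cancel hζ0.ne', one_pow]
        rw [hk, pow_add, ← mul_assoc, h2, one_mul]
        exact one_le_pow₀ hiζ
      have h3 : V ≤ V * ζ ^ τ * (1 / ζ) ^ nP h := by
        rw [mul_assoc]
        exact le_mul_of_one_le_right hV h1
      have h4 := Finset.sum_nonneg hn3
      have h5 := hU1 h
      linarith
  refine (VV_mono s hz hy t [] hpt).trans ?_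
  rw [VV_add, VV_add, VV_smul, VV_smul, VV_finsum]
  simp only [VV_smul]
  have hs1 : ∑ p ∈ Pairs, V * ρ ^ u *
      VV m s z y (fun h => (h.map fun o : Op m => (1 / ρ) ^ mso p.1 p.2 o).prod) t [] ≤
      ∑ _p ∈ Pairs, V * ρ ^ u * 3 ^ t :=
    Finset.sum_le_sum fun p hp => mul_le_mul_of_nonneg_left (hV3 p hp) (by positivity)
  rw [Finset.sum_const, nsmul_eq_mul] at hs1
  have h1 : G * VV m s z y (fun h => (h.map fun _ : Op m => (1 : ℝ)).prod) t [] ≤
      G * (1 + ζ) ^ t := mul_le_mul_of_nonneg_left hV1 hG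
  have h2 : V * ζ ^ τ * VV m s z y (fun h => (h.map fun o : Op m => (1 / ζ) ^ npo o).prod) t [] ≤
      V * ζ ^ τ * 2 ^ t := mul_le_mul_of_nonneg_left hV2 (by positivity)
  calc _ ≤ G * (1 + ζ) ^ t + V * ζ ^ τ * 2 ^ t + Pairs.card * (V * ρ ^ u * 3 ^ t) :=
        add_le_add (add_le_add h1 h2) hs1
    _ = _ := by ring

end H64SRL
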