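import Pool.Agent.H64.SRL.ThRec
import Pool.Agent.H64.SRL.Val

/-!
# [SRL-PATH] Unfolding the recursion

Induction on `t`, generalizing `W`, `h`, `k`. `t = 0`: `W = W0`. `t + 1`: choose `X ⊆ W \ W0` with `|X| = g`; `W' = W \ X`;
the hypothesis gives the bounds for `TH W' (idl (o :: h))` for all operations `o`; take `UP A = VV t (P A :: h)`,
`UC A j = VV t (C A j :: h)`, `UW = VV t (W :: h)` in `TH_weight` (`idl (P A :: h) = proc (idl h) A` etc. by `rfl`), where the list
`js` comes from `exists_avg_le` (for `F = A ↦ UP A + (M^d)⁻¹ * ∑ UC`) and the slots are `s` different `d`-subsets of `X`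
(`X.powersetCard d` has `g.choose d ≥ s` elements) zipped with `js`.
-/

namespace H64SRL

open Finset H67SR H67SR.SqA

variable {σ : Type*} [DecidableEq σ] [Fintype σ] {m : ℕ}

theorem TH_path (hm : 0 < m) {d : ℕ} (hd : 1 ≤ d) (W0 : Finset σ) {g s : ℕ}
    (hs : s ≤ g.choose d) {N M : ℝ} (hN : 0 ≤ N) (hM : 1 ≤ M) {K : ℤ} (U : List (Op m) → ℝ)
    (hU : ∀ h, 0 ≤ U h)
    (hbase : ∀ (h : List (Op m)), ∀ k ≤ K, TH σ m d W0 (idl h) k ≤ N * M ^ k * U h) (t : ℕ) :
    ∀ W : Finset σ, W0 ⊆ W → (W \ W0).card = t * g → ∀ (h : List (Op m)), ∀ k ≤ K,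
      TH σ m d W (idl h) k ≤ N * M ^ k * VV m s (M ^ d)⁻¹ (2 ^ g / M) U t h := by
  have hM0 : 0 < M := lt_of_lt_of_le one_pos hM
  have hz : (0 : ℝ) ≤ (M ^ d)⁻¹ := by positivity
  have hy : (0 : ℝ) ≤ 2 ^ g / M := by positivity
  induction t with
  | zero =>
    intro W hW hc h k hk
    have h1 : W = W0 := by
      apply Finset.Subset.antisymm _ hW
      rw [← Finset.sdiff_eq_empty_iff_subset, ← Finset.card_eq_zero, hc, Nat.zero_mul]
    rw [h1]
    exact hbase h k hk
  | succ t ih =>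
    intro W hW hc h k hk
    obtain ⟨X, hX1, hX2⟩ : ∃ X ⊆ W \ W0, X.card = g := by
      apply Finset.exists_subset_card_eq
      rw [hc, Nat.succ_mul]
      exact Nat.le_add_left _ _
    have hXW : X ⊆ W := hX1.trans Finset.sdiff_subset
    have hdis : Disjoint (W \ X) X := Finset.sdiff_disjoint
    have hun : (W \ X) ∪ X = W := Finset.sdiff_union_of_subset hXW
    have hW' : W0 ⊆ W \ X := by
      intro v hv
      rw [Finset.mem_sdiff]
      refine ⟨hW hv, fun hvX => ?_⟩
      exact (Finset.mem_sdiff.1 (hX1 hvX)).2 hv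
    have hc' : ((W \ X) \ W0).card = t * g := by
      have h1 : (W \ X) \ W0 = (W \ W0) \ X := by
        ext v
        simp only [Finset.mem_sdiff]
        tauto
      rw [h1, Finset.card_sdiff_of_subset hX1, hc, hX2, Nat.succ_mul, Nat.add_sub_cancel]
    obtain ⟨js, hjs, havg⟩ := exists_avg_le hm s (fun A : List (Fin m) =>
      VV m s (M ^ d)⁻¹ (2 ^ g / M) U t (Op.P A :: h) + (M ^ d)⁻¹ *
        ((spl [] A).map fun p => VV m s (M ^ d)⁻¹ (2 ^ g / M) U t (Op.C p.1 p.2 :: h)).sum)
    obtain ⟨T, hT1, hT2⟩ : ∃ T ⊆ X.powersetCard d, T.card = s := by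
      apply Finset.exists_subset_card_eq
      rw [Finset.card_powersetCard, hX2]
      exact hs
    have hlen : T.toList.length = js.length := by rw [Finset.length_toList, hT2, hjs]
    have hfst : (T.toList.zip js).map Prod.fst = T.toList := List.map_fst_zip hlen.le
    have hsnd : (T.toList.zip js).map Prod.snd = js := List.map_snd_zip hlen.ge
    have hmain := TH_weight (m := m) hdis hd (idl h) (T.toList.zip js)
      (by rw [hfst]; exact Finset.nodup_toList T)
      (fun p hp => by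
        have h1 := (List.of_mem_zip (a := p.1) (b := p.2) hp).1
        have h2 := hT1 (Finset.mem_toList.1 h1)
        exact Finset.mem_powersetCard.1 h2)
      hN hM (K := K)
      (fun A => VV m s (M ^ d)⁻¹ (2 ^ g / M) U t (Op.P A :: h))
      (fun A j => VV m s (M ^ d)⁻¹ (2 ^ g / M) U t (Op.C A j :: h))
      (VV m s (M ^ d)⁻¹ (2 ^ g / M) U t (Op.W :: h))
      (fun A j => VV_nonneg s hz hy hU t _) (VV_nonneg s hz hy hU t _)
      (fun A k hk => ih _ hW' hc' (Op.P A :: h) k hk)
      (fun A j k hk => ih _ hW' hc' (Op.C A j :: h) k hk)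
      (fun k hk => ih _ hW' hc' (Op.W :: h) k hk) hk
    rw [hun, hsnd, hX2] at hmain
    refine hmain.trans ?_
    have hNM : 0 ≤ N * M ^ k := mul_nonneg hN (zpow_nonneg hM0.le _)
    refine mul_le_mul_of_nonneg_left ?_ hNM
    exact add_le_add_left havg _

end H64SRL
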