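import Pool.Agent.H64.SRL.Defs

/-!
# [SRL-PROB] The average over random lists

Everything by induction on `s` (generalizing `F`). `avgS_hit`: probability that the list meets `R`: the recursion
gives `1 - (1 - |R|/(2m))^s ≤ s |R| / (2m)`; directly: `avgS (s+1) F = (avgS s F + (1/m) ∑_j avgS s (F (j :: ·)))/2`, for `j ∈ R` the
value is `1`, otherwise as before. `avgS_miss`: exact value `(1 - |C|/(2m))^s`. `avgS_hit_miss` by `avgS_mono`, `avgS_add`.
`exists_avg_le`: induction on `s`, for all `F`: choose `j` such that `avgS s (F (j :: ·))` is at most the mean over `j`; then apply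
the induction hypothesis to the function `l ↦ (F l + F (j :: l)) / 2` (`avg js` and `avgS s` are linear).
-/

namespace H64SRL

open Finset

variable {m : ℕ}

theorem avg_add (js : List (Fin m)) (F G : List (Fin m) → ℝ) :
    avg js (fun l => F l + G l) = avg js F + avg js G := by
  induction js generalizing F G with
  | nil => rfl
  | cons j js ih =>
    simp only [avg]
    rw [ih, ih (fun l => F (j :: l)) (fun l => G (j :: l))]
    ring

theorem avg_smul (js : List (Fin m)) (c : ℝ) (F : List (Fin m) → ℝ) :
    avg js (fun l => c * F l) = c * avg js F := by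
  induction js generalizing F with
  | nil => rfl
  | cons j js ih =>
    simp only [avg]
    rw [ih, ih (fun l => F (j :: l))]
    ring

theorem avgS_const (hm : 0 < m) (s : ℕ) (c : ℝ) : avgS m s (fun _ => c) = c := by
  have hm' : (m : ℝ) ≠ 0 := by positivity
  induction s with
  | zero => rfl
  | succ s ih =>
    simp only [avgS]
    rw [ih, Finset.sum_const, Finset.card_univ, Fintype.card_fin, nsmul_eq_mul]
    field_simp
    ring

theorem avgS_add (s : ℕ) (F G : List (Fin m) → ℝ) :
    avgS m s (fun l => F l + G l) = avgS m s F + avgS m s G := by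
  induction s generalizing F G with
  | zero => rfl
  | succ s ih =>
    simp only [avgS]
    rw [ih, Finset.sum_congr rfl fun j _ => ih (fun l => F (j :: l)) (fun l => G (j :: l)),
      Finset.sum_add_distrib]
    ring

theorem avgS_smul (s : ℕ) (c : ℝ) (F : List (Fin m) → ℝ) :
    avgS m s (fun l => c * F l) = c * avgS m s F := by
  induction s generalizing F with
  | zero => rfl
  | succ s ih =>
    simp only [avgS]
    rw [ih, Finset.sum_congr rfl fun j _ => ih (fun l => F (j :: l)), ← Finset.mul_sum]
    ring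

theorem avgS_mono (s : ℕ) {F G : List (Fin m) → ℝ} (h : ∀ A, F A ≤ G A) :
    avgS m s F ≤ avgS m s G := by
  induction s generalizing F G with
  | zero => exact h []
  | succ s ih =>
    simp only [avgS]
    have h1 := ih h
    have h2 : ∑ j : Fin m, avgS m s (fun l => F (j :: l)) ≤
        ∑ j : Fin m, avgS m s (fun l => G (j :: l)) :=
      Finset.sum_le_sum fun j _ => ih fun A => h (j :: A)
    have h3 : (∑ j : Fin m, avgS m s (fun l => F (j :: l))) / (m : ℝ) ≤
        (∑ j : Fin m, avgS m s (fun l => G (j :: l))) / m :=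
      div_le_div_of_nonneg_right h2 (by positivity)
    linarith

theorem avgS_length (hm : 0 < m) (s : ℕ) : avgS m s (fun A => (A.length : ℝ)) = s / 2 := by
  have hm' : (m : ℝ) ≠ 0 := by positivity
  induction s with
  | zero => simp [avgS]
  | succ s ih =>
    simp only [avgS, List.length_cons, Nat.cast_add, Nat.cast_one]
    rw [Finset.sum_congr rfl fun j _ => avgS_add s (fun A : List (Fin m) => (A.length : ℝ))
      (fun _ => 1), ih, avgS_const hm, Finset.sum_const, Finset.card_univ, Fintype.card_fin,
      nsmul_eq_mul]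
    field_simp
    ring

/-- splitting the average over `j` -/
private theorem sum_split_set (R : Finset (Fin m)) (x y : ℝ) :
    ∑ j : Fin m, (if j ∈ R then x else y) = R.card * x + (m - R.card) * y := by
  rw [Finset.sum_ite, Finset.sum_const, Finset.sum_const, nsmul_eq_mul, nsmul_eq_mul]
  have h1 : (Finset.univ.filter fun j => j ∈ R) = R := by
    ext
    simp
  have h2 : ((Finset.univ.filter fun j => j ∉ R).card : ℝ) = m - R.card := by
    have h3 := Finset.card_filter_add_card_filter_not (s := (Finset.univ : Finset (Fin m)))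
      (fun j => j ∈ R)
    rw [h1, Finset.card_univ, Fintype.card_fin] at h3
    have h4 : ((R.card : ℝ) + (Finset.univ.filter fun j => j ∉ R).card) = m := by
      exact_mod_cast h3
    linarith
  rw [h1, h2]

theorem avgS_miss (hm : 0 < m) (s : ℕ) (C : Finset (Fin m)) :
    avgS m s (fun A => if ∀ j ∈ A, j ∉ C then (1 : ℝ) else 0) = (1 - C.card / (2 * m)) ^ s := by
  have hm' : (m : ℝ) ≠ 0 := by positivity
  induction s with
  | zero => simp [avgS]
  | succ s ih =>
    simp only [avgS]
    have h1 : ∀ j : Fin m, avgS m s (fun l => if ∀ i ∈ j :: l, i ∉ C then (1 : ℝ) else 0) =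
        if j ∈ C then 0 else (1 - C.card / (2 * (m : ℝ))) ^ s := by
      intro j
      by_cases hj : j ∈ C
      · rw [if_pos hj]
        have h2 : (fun l : List (Fin m) => if ∀ i ∈ j :: l, i ∉ C then (1 : ℝ) else 0) =
            fun _ => 0 := by
          funext l
          rw [if_neg]
          intro h
          exact h j List.mem_cons_self hj
        rw [h2, avgS_const hm]
      · rw [if_neg hj, ← ih]
        congr 1
        funext l
        have h3 : (∀ i ∈ j :: l, i ∉ C) ↔ ∀ i ∈ l, i ∉ C := by
          simp [hj]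
        simp only [h3]
    rw [ih, Finset.sum_congr rfl fun j _ => h1 j, sum_split_set]
    obtain ⟨x, hx⟩ : ∃ x : ℝ, x = (1 - C.card / (2 * (m : ℝ))) ^ s := ⟨_, rfl⟩
    rw [pow_succ, ← hx]
    field_simp
    ring

theorem avgS_hit (hm : 0 < m) (s : ℕ) (R : Finset (Fin m)) :
    avgS m s (fun A => if ∃ j ∈ A, j ∈ R then (1 : ℝ) else 0) ≤ s * R.card / (2 * m) := by
  have hm0 : (0 : ℝ) < m := by exact_mod_cast hm
  have h1 : ∀ A : List (Fin m), (if ∃ j ∈ A, j ∈ R then (1 : ℝ) else 0) +
      (if ∀ j ∈ A, j ∉ R then (1 : ℝ) else 0) = 1 := by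
    intro A
    by_cases h : ∃ j ∈ A, j ∈ R
    · rw [if_pos h, if_neg (by push Not; exact h), add_zero]
    · rw [if_neg h, if_pos (by push Not at h; exact h), zero_add]
  have h2 := avgS_add s (fun A : List (Fin m) => if ∃ j ∈ A, j ∈ R then (1 : ℝ) else 0)
    (fun A => if ∀ j ∈ A, j ∉ R then (1 : ℝ) else 0)
  simp only [h1] at h2
  rw [avgS_const hm, avgS_miss hm] at h2
  have hR : (R.card : ℝ) ≤ m := by
    have := Finset.card_le_univ R
    rw [Fintype.card_fin] at this
    exact_mod_cast this
  have h3 : (-2 : ℝ) ≤ -(R.card / (2 * (m : ℝ))) := by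
    have : (R.card : ℝ) / (2 * m) ≤ 1 := by
      rw [div_le_one (by positivity)]
      linarith
    linarith
  have h4 := one_add_mul_le_pow h3 s
  have h5 : (s : ℝ) * R.card / (2 * m) = s * (R.card / (2 * m)) := by ring
  rw [h5]
  have h6 : (1 + -(R.card / (2 * (m : ℝ)))) ^ s = (1 - R.card / (2 * (m : ℝ))) ^ s := by
    rw [← sub_eq_add_neg]
  rw [h6] at h4
  linarith

theorem avgS_hit_miss (hm : 0 < m) (s : ℕ) (R C : Finset (Fin m)) :
    avgS m s (fun A => if (∃ j ∈ A, j ∈ R) ∨ (∀ j ∈ A, j ∉ C) then (1 : ℝ) else 0) ≤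
      s * R.card / (2 * m) + (1 - C.card / (2 * m)) ^ s := by
  rw [← avgS_miss hm]
  refine le_trans ?_ (add_le_add_left (avgS_hit hm s R) _)
  rw [← avgS_add]
  apply avgS_mono
  intro A
  by_cases h1 : ∃ j ∈ A, j ∈ R <;> by_cases h2 : ∀ j ∈ A, j ∉ C
  · rw [if_pos (Or.inl h1), if_pos h1, if_pos h2]
    norm_num
  · rw [if_pos (Or.inl h1), if_pos h1, if_neg h2]
    norm_num
  · rw [if_pos (Or.inr h2), if_neg h1, if_pos h2]
    norm_num
  · rw [if_neg (fun h => h.elim h1 h2), if_neg h1, if_neg h2]
    norm_num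

theorem exists_avg_le (hm : 0 < m) (s : ℕ) (F : List (Fin m) → ℝ) :
    ∃ js : List (Fin m), js.length = s ∧ avg js F ≤ avgS m s F := by
  have hm0 : (0 : ℝ) < m := by exact_mod_cast hm
  induction s generalizing F with
  | zero => exact ⟨[], rfl, le_refl _⟩
  | succ s ih =>
    have hne : (Finset.univ : Finset (Fin m)).Nonempty := by
      have : Nonempty (Fin m) := ⟨⟨0, hm⟩⟩
      exact Finset.univ_nonempty
    obtain ⟨j, _, hj⟩ := Finset.exists_le_of_sum_le (s := (Finset.univ : Finset (Fin m)))
      (f := fun j => avgS m s (fun l => F (j :: l)))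
      (g := fun _ => (∑ j : Fin m, avgS m s (fun l => F (j :: l))) / (m : ℝ)) hne (by
        rw [Finset.sum_const, Finset.card_univ, Fintype.card_fin, nsmul_eq_mul]
        rw [mul_div_cancel₀ _ hm0.ne'])
    obtain ⟨js, hjs, hle⟩ := ih (fun l => (1 / 2) * (F l + F (j :: l)))
    refine ⟨j :: js, by rw [List.length_cons, hjs], ?_⟩
    rw [avg_smul, avg_add, avgS_smul, avgS_add] at hle
    simp only [avg, avgS]
    linarith

end H64SRL
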