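import Pool.Agent.H64.SRL.Chain
import Pool.Agent.H67.SR.Lin5

/-!
# [SRL-REG] Freeness and regularity

`Id_JJ`: the degree `k` part of the ideal `IdF W Λ i` (H67/SR/Lin2.lean) generated by the forms of index `< i` is
`Id W d (rl W Λ) (JJ {l < i}) k`: `⊆` by `mem_IdF_hom`; conversely `α^S h`, `S` meets `{l < i}` in `j`: `α^S h = α_j (α^(S\j) h)`.
`reg_gap`: for `i : Fin m`, `rank-nullity`: `Id (JJ {l < i+1}) k = Id (JJ {l < i}) k ⊔ (H W (k-d)).map (mj (α_i))`, so by `nd_gap`
`DD (JJ {l<i+1}) k - DD (JJ {l<i}) k = hh (k-d) - nd (H W (k-d) ⊓ comap (mj α_i) (Id (JJ {l<i}) k))`, and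
`Id (JJ {l<i+1}) (k-d) ≤ H W (k-d) ⊓ comap ...` (`α_i α_i = 0`).
`regL_of_free`: `DD_free` with `Q = univ`, `c = JJ {l<i}` and `JJ {l<i+1}`: the difference is
`∑_{S ∋ i, S ∩ {l<i} = ∅} vv (k - |S| d) = ∑_{T ∩ {l<i+1} = ∅} vv (k - d - |T| d) = hh (k-d) - DD (JJ {l<i+1}) (k-d)`
(`DD_free` again and `Free` at `k-d`), so the two subspaces have equal dimension (`le_of_nd_lt`).
`free_of_syz`: from `Syz ≤ Triv` at the levels `i+1 ≤ I` one gets (as in `regL_of_le` of Lin5.lean, for `W` instead of
`univ`) `H W (k-d) ⊓ comap (mj α_i) (Id (JJ {l<i}) k) = Id (JJ {l<i+1}) (k-d)`, so with `v_i(k) = hh k - DD (JJ {l<i}) k`: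
`v_i(k) = v_{i+1}(k) + v_{i+1}(k-d)` for `k ≤ K`, `v_0 = hh`. By induction on `I`, `hh k = ∑_{S ⊆ {l<I}} v_I(k - |S| d)`
(`Finset.sum_powerset_insert`). For `I = 0` use `JJ ∅ = ∅`.
-/

namespace H64SRL

open Finset H67SR H67SR.SqA

variable {σ : Type*} [DecidableEq σ] [Fintype σ] {m : ℕ}

/-- the indices below `i` -/
def low (m i : ℕ) : Finset (Fin m) := Finset.univ.filter fun l => (l : ℕ) < i

theorem mem_low {m i : ℕ} {l : Fin m} : l ∈ low m i ↔ (l : ℕ) < i := by
  unfold low
  simp

theorem mem_Id_low {W : Finset σ} {d : ℤ} (hd : 1 ≤ d) {V : Finset σ} {Λ : Fin m → SqA σ}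
    (hΛ : ∀ l, Λ l ∈ H V d) (i : ℕ) (k : ℤ) (f : SqA σ) :
    f ∈ Id W d (rl W Λ) (JJ (low m i)) k ↔ f ∈ IdF W Λ i ∧ f ∈ H W k := by
  have hα : ∀ l, rl W Λ l ∈ H W d := fun l => res_mem_H (hΛ l)
  constructor
  · intro hf
    have hle : Id W d (rl W Λ) (JJ (low m i)) k ≤ IdF W Λ i ⊓ H W k := by
      apply Id_le
      intro S hS g hg
      rw [mem_JJ, Finset.not_disjoint_iff] at hS
      obtain ⟨j, hjS, hj⟩ := hS
      rw [mem_low] at hj
      refine ⟨?_, ?_⟩
      · refine ⟨Pi.single j (pr (rl W Λ) (S.erase j) * g), fun l hl => ?_, ?_⟩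
        · rw [Pi.single_eq_of_ne]
          rintro rfl
          omega
        · rw [lin_apply, Finset.sum_eq_single j]
          · rw [Pi.single_eq_same, ← mul_assoc, ← pr_erase (rl W Λ) hjS]
            rfl
          · intro l _ hl
            rw [Pi.single_eq_of_ne hl, mul_zero]
          · intro h
            exact absurd (Finset.mem_univ j) h
      · have := mul_mem_H (pr_mem hα S) hg
        rwa [show (S.card : ℤ) * d + (k - S.card * d) = k by ring] at this
    exact hle hf
  · rintro ⟨hf, hk⟩
    obtain ⟨c, h1, h2, h3⟩ := mem_IdF_hom hΛ hf hk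
    rw [h3, lin_apply]
    apply sum_mem
    intro l _
    by_cases hl : i ≤ (l : ℕ)
    · rw [h2 l hl, mul_zero]
      exact zero_mem _
    · have hS : ({l} : Finset (Fin m)) ∈ JJ (low m i) := by
        rw [mem_JJ, Finset.not_disjoint_iff]
        exact ⟨l, Finset.mem_singleton_self l, mem_low.2 (not_le.1 hl)⟩
      have h4 : c l ∈ H W (k - ({l} : Finset (Fin m)).card * d) := by
        rw [Finset.card_singleton]
        simpa using h1 l
      have h5 := mem_Id_of (α := rl W Λ) hS h4
      rw [show pr (rl W Λ) {l} = res W (Λ l) from Finset.prod_singleton _ _] at h5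
      exact h5

/-- the colon space -/
def colon (W : Finset σ) (d : ℤ) (Λ : Fin m → SqA σ) (i : Fin m) (k : ℤ) :
    AddSubgroup (SqA σ) :=
  H W (k - d) ⊓ (Id W d (rl W Λ) (JJ (low m i)) k).comap (mj (rl W Λ i))

theorem nd_colon {W : Finset σ} {d : ℤ} (hd : 1 ≤ d) {V : Finset σ} {Λ : Fin m → SqA σ}
    (hΛ : ∀ l, Λ l ∈ H V d) (i : Fin m) (k : ℤ) :
    nd (colon W d Λ i k) = hh W.card (k - d) - DD W d (rl W Λ) (JJ (low m (i + 1))) k +
      DD W d (rl W Λ) (JJ (low m i)) k := by
  have hα : ∀ l, rl W Λ l ∈ H W d := fun l => res_mem_H (hΛ l)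
  have h1 := nd_gap (H W (k - d)) (mj (rl W Λ i)) (Id W d (rl W Λ) (JJ (low m i)) k)
  have h2 : (H W (k - d)).map (mj (rl W Λ i)) ⊔ Id W d (rl W Λ) (JJ (low m i)) k =
      Id W d (rl W Λ) (JJ (low m (i + 1))) k := by
    apply le_antisymm
    · apply sup_le
      · rintro _ ⟨g, hg, rfl⟩
        have hS : ({i} : Finset (Fin m)) ∈ JJ (low m (i + 1)) := by
          rw [mem_JJ, Finset.not_disjoint_iff]
          exact ⟨i, Finset.mem_singleton_self i, mem_low.2 (Nat.lt_succ_self _)⟩
        have h4 : g ∈ H W (k - ({i} : Finset (Fin m)).card * d) := by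
          rw [Finset.card_singleton]
          simpa using hg
        have h5 := mem_Id_of (α := rl W Λ) hS h4
        rw [show pr (rl W Λ) {i} = rl W Λ i from Finset.prod_singleton _ _] at h5
        exact h5
      · apply Id_mono
        intro S hS
        rw [mem_JJ, Finset.not_disjoint_iff] at hS ⊢
        obtain ⟨j, hj1, hj2⟩ := hS
        rw [mem_low] at hj2
        exact ⟨j, hj1, mem_low.2 (by omega)⟩
    · intro f hf
      rw [mem_Id_low hd hΛ] at hf
      obtain ⟨c, hc1, hc2, hc3⟩ := mem_IdF_hom hΛ hf.1 hf.2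
      have h3 : f = rl W Λ i * c i + lin (fun l => res W (Λ l)) (fun l => if l = i then 0 else c l) := by
        rw [hc3, lin_apply, lin_apply, ← Finset.add_sum_erase _ _ (Finset.mem_univ i),
          ← Finset.add_sum_erase (Finset.univ : Finset (Fin m))
            (fun l => res W (Λ l) * (if l = i then 0 else c l)) (Finset.mem_univ i), if_pos rfl,
          mul_zero, zero_add]
        congr 1
        refine Finset.sum_congr rfl fun l hl => ?_
        rw [if_neg (Finset.ne_of_mem_erase hl)]
      rw [h3]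
      apply AddSubgroup.add_mem_sup
      · exact ⟨c i, hc1 i, rfl⟩
      · rw [mem_Id_low hd hΛ]
        refine ⟨⟨_, fun l hl => ?_, rfl⟩, ?_⟩
        · by_cases h4 : l = i
          · simp only [h4, if_true]
          · simp only [h4, if_false]
            apply hc2
            have : (l : ℕ) ≠ (i : ℕ) := fun h => h4 (Fin.ext h)
            omega
        · rw [lin_apply]
          apply sum_mem
          intro l _
          by_cases h4 : l = i
          · simp only [h4, if_true, mul_zero]
            exact zero_mem _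
          · simp only [h4, if_false]
            have := mul_mem_H (hα l) (hc1 l)
            rwa [show d + (k - d) = k by ring] at this
  rw [h2, nd_H] at h1
  unfold DD colon
  linarith

theorem Id_le_colon {W : Finset σ} {d : ℤ} (hd : 1 ≤ d) {V : Finset σ} {Λ : Fin m → SqA σ}
    (hΛ : ∀ l, Λ l ∈ H V d) (i : Fin m) (k : ℤ) :
    Id W d (rl W Λ) (JJ (low m (i + 1))) (k - d) ≤ colon W d Λ i k := by
  have hα : ∀ l, rl W Λ l ∈ H W d := fun l => res_mem_H (hΛ l)
  intro f hf
  rw [mem_Id_low hd hΛ] at hf
  refine ⟨hf.2, ?_⟩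
  change rl W Λ i * f ∈ Id W d (rl W Λ) (JJ (low m i)) k
  rw [mem_Id_low hd hΛ]
  constructor
  · obtain ⟨c, hc1, hc2⟩ := hf.1
    refine ⟨fun l => if l = i then 0 else rl W Λ i * c l, fun l hl => ?_, ?_⟩
    · by_cases h4 : l = i
      · simp only [h4, if_true]
      · simp only [h4, if_false]
        rw [hc1 l, mul_zero]
        have : (l : ℕ) ≠ (i : ℕ) := fun h => h4 (Fin.ext h)
        omega
    · rw [hc2, lin_apply, lin_apply, Finset.mul_sum]
      refine Finset.sum_congr rfl fun l _ => ?_
      by_cases h4 : l = i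
      · rw [if_pos h4, mul_zero, h4, ← mul_assoc]
        rw [show rl W Λ i * res W (Λ i) = 0 from sq_eq_zero hd (hα i), zero_mul]
      · rw [if_neg h4]
        ring
  · have := mul_mem_H (hα i) hf.2
    rwa [show d + (k - d) = k by ring] at this

theorem upc_JJ (Q : Finset (Fin m)) : Upc Finset.univ (JJ Q) := by
  intro S hS
  refine ⟨Finset.subset_univ _, fun T hST _ => ?_⟩
  rw [mem_JJ, Finset.not_disjoint_iff] at hS ⊢
  obtain ⟨j, h1, h2⟩ := hS
  exact ⟨j, hST h1, h2⟩

theorem regL_of_free {n m d K : ℕ} (hd : 1 ≤ d) {Λ : Fin m → SqA (Fin n)}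
    (hΛ : Λ ∈ Om (Fin n) m d)
    (h : Free Finset.univ (d : ℤ) (rl Finset.univ Λ) Finset.univ (K : ℤ)) :
    RegL d m K Λ := by
  have hd' : (1 : ℤ) ≤ d := by exact_mod_cast hd
  have hΛ' := mem_Om.1 hΛ
  have hα : ∀ l, rl Finset.univ Λ l ∈ H (Finset.univ : Finset (Fin n)) (d : ℤ) :=
    fun l => res_mem_H (hΛ' l)
  intro i _ k hk ν hν hmem
  have hkK : (k : ℤ) ≤ K := by exact_mod_cast hk
  have hkd : (k : ℤ) - d ≤ K := by omega
  have hcol : ν ∈ colon Finset.univ (d : ℤ) Λ i k := by
    refine ⟨hν, ?_⟩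
    change rl Finset.univ Λ i * ν ∈ Id Finset.univ (d : ℤ) (rl Finset.univ Λ) (JJ (low m i)) k
    rw [mem_Id_low hd' hΛ']
    constructor
    · have h1 : rl Finset.univ Λ i * ν = ν * Λ i := by
        rw [mul_comm]
        congr 1
        exact res_univ _
      rw [h1]
      exact hmem
    · have := mul_mem_H (hα i) hν
      rwa [show (d : ℤ) + (k - d) = k by ring] at this
  have hle : colon Finset.univ (d : ℤ) Λ i k ≤
      Id Finset.univ (d : ℤ) (rl Finset.univ Λ) (JJ (low m (i + 1))) (k - d) := by
    apply le_of_nd_lt (Id_le_colon hd' hΛ' i k)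
    have h1 := nd_colon hd' hΛ' (W := Finset.univ) i (k : ℤ)
    have h2 := DD_free hd' hα h (upc_JJ (low m i)) hkK
    have h3 := DD_free hd' hα h (upc_JJ (low m (i + 1))) hkK
    have h4 := DD_free hd' hα h (upc_JJ (low m (i + 1))) hkd
    have h5 := h ((k : ℤ) - d) hkd
    rw [Finset.powerset_univ] at h5
    -- the difference of the two families
    have h6 : ∑ S ∈ JJ (low m (i + 1)), vv Finset.univ (d : ℤ) (rl Finset.univ Λ) Finset.univ
          ((k : ℤ) - S.card * d) =
        ∑ S ∈ JJ (low m i), vv Finset.univ (d : ℤ) (rl Finset.univ Λ) Finset.univ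
          ((k : ℤ) - S.card * d) +
        ∑ S ∈ (JJ (low m (i + 1)))ᶜ, vv Finset.univ (d : ℤ) (rl Finset.univ Λ) Finset.univ
          ((k : ℤ) - d - S.card * d) := by
      have hsub : JJ (low m i) ⊆ JJ (low m (i + 1)) := by
        intro S hS
        rw [mem_JJ, Finset.not_disjoint_iff] at hS ⊢
        obtain ⟨j, hj1, hj2⟩ := hS
        rw [mem_low] at hj2
        exact ⟨j, hj1, mem_low.2 (by omega)⟩
      rw [← Finset.sum_sdiff hsub, add_comm]
      congr 1
      refine Finset.sum_nbij' (fun S => S.erase i) (fun T => insert i T) ?_ ?_ ?_ ?_ ?_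
      · intro S hS
        rw [Finset.mem_sdiff, mem_JJ, mem_JJ, not_not] at hS
        rw [Finset.mem_compl, mem_JJ, not_not, Finset.disjoint_left]
        intro j hj1 hj2
        rw [mem_low] at hj2
        have h7 : j ≠ i := Finset.ne_of_mem_erase hj1
        have h8 := Finset.mem_of_mem_erase hj1
        have h9 : (j : ℕ) ≠ (i : ℕ) := fun h => h7 (Fin.ext h)
        exact Finset.disjoint_left.1 hS.2 h8 (mem_low.2 (by omega))
      · intro T hT
        rw [Finset.mem_compl, mem_JJ, not_not] at hT
        rw [Finset.mem_sdiff, mem_JJ, mem_JJ, not_not]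
        constructor
        · rw [Finset.not_disjoint_iff]
          exact ⟨i, Finset.mem_insert_self i T, mem_low.2 (Nat.lt_succ_self _)⟩
        · rw [Finset.disjoint_left]
          intro j hj1 hj2
          rw [mem_low] at hj2
          rcases Finset.mem_insert.1 hj1 with h7 | h7
          · rw [h7] at hj2
            omega
          · exact Finset.disjoint_left.1 hT h7 (mem_low.2 (by omega))
      · intro S hS
        rw [Finset.mem_sdiff, mem_JJ, mem_JJ, not_not] at hS
        apply Finset.insert_erase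
        obtain ⟨j, hj1, hj2⟩ := Finset.not_disjoint_iff.1 hS.1
        rw [mem_low] at hj2
        by_cases h7 : j = i
        · rwa [← h7]
        · have h9 : (j : ℕ) ≠ (i : ℕ) := fun h => h7 (Fin.ext h)
          exact absurd (mem_low.2 (by omega)) (Finset.disjoint_left.1 hS.2 hj1)
      · intro T hT
        rw [Finset.mem_compl, mem_JJ, not_not] at hT
        apply Finset.erase_insert
        intro h7
        exact Finset.disjoint_left.1 hT h7 (mem_low.2 (Nat.lt_succ_self _))
      · intro S hS
        rw [Finset.mem_sdiff, mem_JJ, mem_JJ, not_not] at hS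
        have h8 : i ∈ S := by
          obtain ⟨j, hj1, hj2⟩ := Finset.not_disjoint_iff.1 hS.1
          rw [mem_low] at hj2
          by_cases h7 : j = i
          · rwa [← h7]
          · have h9 : (j : ℕ) ≠ (i : ℕ) := fun h => h7 (Fin.ext h)
            exact absurd (mem_low.2 (by omega)) (Finset.disjoint_left.1 hS.2 hj1)
        rw [Finset.card_erase_of_mem h8, Nat.cast_sub (Finset.card_pos.2 ⟨i, h8⟩)]
        congr 1
        push_cast
        ring
    have h7 := Finset.sum_add_sum_compl (JJ (low m (i + 1)))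
      (fun S => vv Finset.univ (d : ℤ) (rl Finset.univ Λ) Finset.univ ((k : ℤ) - d - S.card * d))
    unfold DD at h1 h2 h3 h4
    rw [h1]
    linarith
  have h1 := hle hcol
  rw [mem_Id_low hd' hΛ'] at h1
  exact h1.1

theorem nd_bot' : nd (⊥ : AddSubgroup (SqA σ)) = 0 := by
  unfold nd
  rw [show AddSubgroup.toZModSubmodule 2 (⊥ : AddSubgroup (SqA σ)) = ⊥ from
    (AddSubgroup.toZModSubmodule 2).map_bot, finrank_bot]
  norm_num

theorem free_of_syz {W : Finset σ} {d : ℤ} (hd : 1 ≤ d) {V : Finset σ} {Λ : Fin m → SqA σ}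
    (hΛ : ∀ l, Λ l ∈ H V d) {I : ℕ} {K : ℤ}
    (h : ∀ i : ℕ, i ≤ I → ∀ k ≤ K, Syz W Λ d i k ≤ Triv W Λ d i k) :
    Free W d (rl W Λ) (low m I) K := by
  have hα : ∀ l, rl W Λ l ∈ H W d := fun l => res_mem_H (hΛ l)
  -- the colon spaces
  have hcol : ∀ i : Fin m, (i : ℕ) + 1 ≤ I → ∀ k ≤ K, colon W d Λ i k ≤
      Id W d (rl W Λ) (JJ (low m (i + 1))) (k - d) := by
    rintro i hi k hk ν ⟨hν, hν2⟩
    have hmem : rl W Λ i * ν ∈ Id W d (rl W Λ) (JJ (low m i)) k := hν2
    rw [mem_Id_low hd hΛ] at hmem
    rw [mem_Id_low hd hΛ]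
    refine ⟨?_, hν⟩
    obtain ⟨c, hc1, hc2, hc3⟩ := mem_IdF_hom hΛ hmem.1 hmem.2
    set b : Fin m → SqA σ := fun l => if l = i then ν else c l with hb
    have hbS : b ∈ Syz W Λ d (i + 1) k := by
      refine ⟨fun l => ?_, fun l hl => ?_, ?_⟩
      · simp only [hb]
        split_ifs
        · exact hν
        · exact hc1 l
      · simp only [hb]
        have h1 : l ≠ i := by
          rintro rfl
          omega
        rw [if_neg h1]
        exact hc2 l (by omega)
      · have h1 : b = c + fun l => if l = i then ν else 0 := by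
          funext l
          change (if l = i then ν else c l) = c l + (if l = i then ν else 0)
          by_cases h2 : l = i
          · rw [if_pos h2, if_pos h2, hc2 l (by rw [h2]), zero_add]
          · rw [if_neg h2, if_neg h2, add_zero]
        rw [h1, map_add, ← hc3, lin_apply]
        have h2 : ∑ l, res W (Λ l) * (if l = i then ν else 0) = rl W Λ i * ν := by
          rw [Finset.sum_eq_single i]
          · rw [if_pos rfl]
            rfl
          · intro l _ hl
            rw [if_neg hl, mul_zero]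
          · intro h; exact absurd (Finset.mem_univ i) h
        rw [h2, add_self]
    obtain ⟨t, ht1, ht2, ht3, ht4⟩ := h (i + 1) hi k hk hbS
    have h1 := ht4 i
    simp only [hb, if_true] at h1
    refine ⟨t i, fun l hl => ?_, h1⟩
    rw [ht1 i l]
    exact ht3 l i hl
  -- the recursion of the expected dimensions
  have hrec : ∀ i : Fin m, (i : ℕ) + 1 ≤ I → ∀ k ≤ K, vv W d (rl W Λ) (low m i) k =
      vv W d (rl W Λ) (low m (i + 1)) k + vv W d (rl W Λ) (low m (i + 1)) (k - d) := by
    intro i hi k hk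
    have h1 := nd_colon hd hΛ (W := W) i k
    have h2 := le_antisymm (hcol i hi k hk) (Id_le_colon hd hΛ i k)
    rw [h2] at h1
    unfold vv
    unfold DD at h1 ⊢
    linarith
  have hmain : ∀ i : ℕ, i ≤ I → ∀ k ≤ K,
      ∑ S ∈ (low m i).powerset, vv W d (rl W Λ) (low m i) (k - S.card * d) = hh W.card k := by
    intro i
    induction i with
    | zero =>
      intro _ k _
      have h0 : low m 0 = ∅ := by
        ext l
        rw [mem_low]
        simp
      rw [h0, Finset.powerset_empty, Finset.sum_singleton, Finset.card_empty]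
      have h1 : JJ (∅ : Finset (Fin m)) = ∅ := by
        ext S
        rw [mem_JJ]
        simp
      have h2 : DD W d (rl W Λ) (∅ : Finset (Finset (Fin m))) k = 0 := by
        have h3 : Id W d (rl W Λ) (∅ : Finset (Finset (Fin m))) k = ⊥ := by
          rw [eq_bot_iff]
          apply Id_le
          intro S hS
          exact absurd hS (Finset.notMem_empty S)
        unfold DD
        rw [h3]
        exact nd_bot'
      unfold vv
      rw [h1]
      simp only [Nat.cast_zero, zero_mul, sub_zero]
      rw [h2, sub_zero]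
    | succ i ih =>
      intro hi k hk
      by_cases him : i < m
      · have h0 : low m (i + 1) = insert (⟨i, him⟩ : Fin m) (low m i) := by
          ext l
          rw [Finset.mem_insert, mem_low, mem_low, Fin.ext_iff]
          simp only
          omega
        have h1 : (⟨i, him⟩ : Fin m) ∉ low m i := by
          rw [mem_low]
          simp
        have h2 : ∑ S ∈ (low m (i + 1)).powerset,
            vv W d (rl W Λ) (low m (i + 1)) (k - S.card * d) =
            ∑ S ∈ (low m i).powerset, (vv W d (rl W Λ) (low m (i + 1)) (k - S.card * d) +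
              vv W d (rl W Λ) (low m (i + 1)) (k - S.card * d - d)) := by
          rw [Finset.sum_add_distrib]
          conv_lhs => rw [h0]
          rw [Finset.sum_powerset_insert h1, ← h0]
          congr 1
          refine Finset.sum_congr rfl fun S hS => ?_
          have h3 : (⟨i, him⟩ : Fin m) ∉ S := fun h4 => h1 (Finset.mem_powerset.1 hS h4)
          rw [Finset.card_insert_of_notMem h3]
          congr 1
          push_cast
          ring
        rw [h2, ← ih (by omega) k hk]
        refine Finset.sum_congr rfl fun S _ => ?_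
        have h3 : k - S.card * d ≤ K := by
          have : (0 : ℤ) ≤ S.card * d := by positivity
          omega
        exact (hrec ⟨i, him⟩ hi _ h3).symm
      · have h0 : low m (i + 1) = low m i := by
          ext l
          rw [mem_low, mem_low]
          have := l.2
          omega
        rw [h0]
        exact ih (by omega) k hk
  intro k hk
  exact hmain I le_rfl k hk

end H64SRL
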