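import Pool.Agent.H64.SRL.Chain

/-!
# [SRL-THLOC] The defect of a local family vanishes

See the header of Chain.lean (`Th_local`).
-/

namespace H64SRL

open Finset H67SR H67SR.SqA

variable {σ : Type*} [DecidableEq σ] [Fintype σ] {m : ℕ}

omit [Fintype σ] in
private theorem thloc_H_neg {W : Finset σ} {k : ℤ} (hk : k < 0) {f : SqA σ} (hf : f ∈ H W k) :
    f = 0 := by
  ext T
  by_contra h
  have h1 := (hf T h).2
  have h2 : (0 : ℤ) ≤ (T.card : ℤ) := Int.natCast_nonneg _
  omega

/-- sums over all subsets, split along `Q` -/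
private theorem thloc_sum_split {A : Type*} [AddCommMonoid A] (Q : Finset (Fin m))
    (F : Finset (Fin m) → A) :
    ∑ S, F S = ∑ T ∈ Q.powerset, ∑ U ∈ Qᶜ.powerset, F (T ∪ U) := by
  rw [← Finset.sum_product']
  refine Finset.sum_nbij' (fun S => (S ∩ Q, S ∩ Qᶜ)) (fun p => p.1 ∪ p.2) ?_ ?_ ?_ ?_ ?_
  · intro S _
    simp only [Finset.mem_product, Finset.mem_powerset]
    exact ⟨Finset.inter_subset_right, Finset.inter_subset_right⟩
  · intro p _
    exact Finset.mem_univ _
  · intro S _
    change S ∩ Q ∪ S ∩ Qᶜ = S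
    rw [← Finset.inter_union_distrib_left, Finset.union_compl, Finset.inter_univ]
  · rintro ⟨T, U⟩ hp
    simp only [Finset.mem_product, Finset.mem_powerset] at hp
    have h1 : ∀ x ∈ U, x ∉ Q := fun x hx => Finset.mem_compl.1 (hp.2 hx)
    ext x
    · simp only [Finset.mem_inter, Finset.mem_union]
      constructor
      · rintro ⟨h2 | h2, h3⟩
        · exact h2
        · exact absurd h3 (h1 x h2)
      · intro hx
        exact ⟨Or.inl hx, hp.1 hx⟩
    · simp only [Finset.mem_inter, Finset.mem_union, Finset.mem_compl]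
      constructor
      · rintro ⟨h2 | h2, h3⟩
        · exact absurd (hp.1 h2) h3
        · exact h2
      · intro hx
        exact ⟨Or.inr hx, h1 x hx⟩
  · intro S _
    change F S = F (S ∩ Q ∪ S ∩ Qᶜ)
    rw [← Finset.inter_union_distrib_left, Finset.union_compl, Finset.inter_univ]

private theorem thloc_card {Q T U : Finset (Fin m)} (hT : T ∈ Q.powerset) (hU : U ∈ Qᶜ.powerset) :
    (T ∪ U).card = T.card + U.card ∧ (T ∪ U) ∩ Q = T := by
  rw [Finset.mem_powerset] at hT hU
  have h1 : Disjoint T U := by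
    rw [Finset.disjoint_left]
    intro x hx hx'
    exact (Finset.mem_compl.1 (hU hx')) (hT hx)
  refine ⟨Finset.card_union_of_disjoint h1, ?_⟩
  ext x
  simp only [Finset.mem_inter, Finset.mem_union]
  constructor
  · rintro ⟨h2 | h2, h3⟩
    · exact h2
    · exact absurd h3 (Finset.mem_compl.1 (hU h2))
  · intro hx
    exact ⟨Or.inl hx, hT hx⟩

theorem Th_local {W : Finset σ} {d : ℤ} (hd : 1 ≤ d) {α : Fin m → SqA σ}
    (hα : ∀ l, α l ∈ H W d) {Q : Finset (Fin m)} {K : ℤ} (hfree : Free W d α Q K)
    {a : Finset (Finset (Fin m))} (ha : Up a)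
    (hloc : ∀ S : Finset (Fin m), (S.card : ℤ) * d ≤ K → (S ∈ a ↔ S ∩ Q ∈ a)) {k : ℤ}
    (hk : k ≤ K) : Th W d α a k = 0 := by
  classical
  set b := a.filter (fun S => S ⊆ Q) with hb
  have hbU : Upc Q b := by
    intro S hS
    obtain ⟨h1, h2⟩ := Finset.mem_filter.1 hS
    exact ⟨h2, fun T hST hTQ => Finset.mem_filter.2 ⟨ha S h1 T hST, hTQ⟩⟩
  have hid : ∀ k' ≤ K, Id W d α a k' = Id W d α b k' := by
    intro k' hk'
    apply le_antisymm
    · apply Id_le
      intro S hS f hf
      rcases lt_or_ge (k' - S.card * d) 0 with h | h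
      · rw [thloc_H_neg h hf, mul_zero]
        exact zero_mem _
      · have h1 : S ∩ Q ∈ a := (hloc S (by linarith)).1 hS
        have h2 : S ∩ Q ∈ b := Finset.mem_filter.2 ⟨h1, Finset.inter_subset_right⟩
        have h3 : pr α S = pr α (S ∩ Q) * pr α (S \ Q) := by
          unfold pr
          rw [← Finset.prod_union (Finset.disjoint_sdiff_inter S Q).symm]
          congr 1
          rw [Finset.union_comm, Finset.sdiff_union_inter]
        rw [h3, mul_assoc]
        apply mem_Id_of h2
        have h4 := mul_mem_H (pr_mem hα (S \ Q)) hf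
        have h5 : ((S \ Q).card : ℤ) + ((S ∩ Q).card : ℤ) = (S.card : ℤ) := by
          exact_mod_cast Finset.card_sdiff_add_card_inter S Q
        have h6 : ((S \ Q).card : ℤ) * d + (k' - S.card * d) = k' - (S ∩ Q).card * d := by
          rw [← h5]
          ring
        rwa [h6] at h4
    · exact Id_mono (Finset.filter_subset _ _) k'
  have hDD : ∀ k' ≤ K, DD W d α a k' = ∑ T ∈ b, vv W d α Q (k' - T.card * d) := by
    intro k' hk'
    have h1 : DD W d α a k' = DD W d α b k' := by
      unfold DD
      rw [hid k' hk']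
    rw [h1, DD_free hd hα hfree hbU hk']
  have hle : ∀ n : ℕ, k - n * d ≤ K := by
    intro n
    have : (0 : ℤ) ≤ n * d := by positivity
    linarith
  -- the first sum
  have hA : ∑ S ∈ a, hh W.card (k - S.card * d) =
      ∑ T ∈ b, ∑ U ∈ Qᶜ.powerset, hh W.card (k - (T.card + U.card : ℕ) * d) := by
    have h1 : ∑ S ∈ a, hh W.card (k - S.card * d) =
        ∑ S, if S ∩ Q ∈ a then hh W.card (k - S.card * d) else 0 := by
      have h2 : ∑ S ∈ a, hh W.card (k - S.card * d) =
          ∑ S, if S ∈ a then hh W.card (k - S.card * d) else 0 := by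
        rw [Finset.sum_ite_mem, Finset.univ_inter]
      rw [h2]
      refine Finset.sum_congr rfl fun S _ => ?_
      rcases lt_or_ge (k - S.card * d) 0 with h | h
      · rw [hh_neg _ h]
        simp
      · have h3 := hloc S (by linarith)
        by_cases h4 : S ∈ a
        · rw [if_pos h4, if_pos (h3.1 h4)]
        · rw [if_neg h4, if_neg (fun h5 => h4 (h3.2 h5))]
    rw [h1, thloc_sum_split Q, hb, Finset.sum_filter]
    have h2 : ∑ T ∈ Q.powerset, ∑ U ∈ Qᶜ.powerset,
        (if (T ∪ U) ∩ Q ∈ a then hh W.card (k - (T ∪ U).card * d) else 0) =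
        ∑ T ∈ Q.powerset, if T ∈ a then
          ∑ U ∈ Qᶜ.powerset, hh W.card (k - (T.card + U.card : ℕ) * d) else 0 := by
      refine Finset.sum_congr rfl fun T hT => ?_
      by_cases h3 : T ∈ a
      · rw [if_pos h3]
        refine Finset.sum_congr rfl fun U hU => ?_
        obtain ⟨h4, h5⟩ := thloc_card hT hU
        rw [h5, if_pos h3, h4]
      · rw [if_neg h3]
        refine Finset.sum_eq_zero fun U hU => ?_
        obtain ⟨h4, h5⟩ := thloc_card hT hU
        rw [h5, if_neg h3]
    rw [h2, ← Finset.sum_filter, ← Finset.sum_filter]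
    refine Finset.sum_congr ?_ fun _ _ => rfl
    ext T
    simp only [Finset.mem_filter, Finset.mem_powerset]
    tauto
  -- the second sum
  have hB : ∑ S : Finset (Fin m), DD W d α a (k - S.card * d) =
      ∑ T ∈ b, ∑ U ∈ Qᶜ.powerset, hh W.card (k - (T.card + U.card : ℕ) * d) := by
    have h1 : ∀ S : Finset (Fin m), DD W d α a (k - S.card * d) =
        ∑ T ∈ b, vv W d α Q (k - (T.card + S.card : ℕ) * d) := by
      intro S
      rw [hDD _ (hle S.card)]
      refine Finset.sum_congr rfl fun T _ => ?_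
      congr 1
      push_cast
      ring
    rw [Finset.sum_congr rfl fun S _ => h1 S, Finset.sum_comm]
    refine Finset.sum_congr rfl fun T _ => ?_
    rw [thloc_sum_split Q, Finset.sum_comm]
    refine Finset.sum_congr rfl fun U hU => ?_
    rw [← hfree _ (hle (T.card + U.card))]
    refine Finset.sum_congr rfl fun V hV => ?_
    obtain ⟨h4, _⟩ := thloc_card hV hU
    rw [h4]
    congr 1
    push_cast
    ring
  unfold Th
  rw [hA, hB, sub_self]

end H64SRL
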