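import Pool.Agent.H64.SRL.KeyB
import Pool.Agent.H64.SRL.Flag

/-!
# [SRL-THREC] The recursion for the total defect

Write `n_b(k) = ∑_{S ∈ b} hh |W| (k - |S| d)`.
`count_step`: `n_{bp a b j}(k) - n_b(k) + n_{col a b j}(k-d) - n_a(k-d) = 0` for `b ⊆ a`: `b \ bp a b j` is the set of `S ∈ b`
with `S \ j ∉ a` (they contain `j`), `col a b j \ a` is the set of `T ∉ a` with `T ∪ {j} ∈ b` (they do not contain
`j`), and `T ↦ T ∪ {j}` is a bijection with `|S| = |T| + 1`.
`count_flag`: the list version, by induction as in `flag_list` (statement with an initial list `pre`), `proc_append`.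
`TH_step`: by `key_ineq` for the degrees `k - |S| d`, summed over all `S`, `flag_list` (same degrees), `sum_hh` and
`count_flag`:
`Th_{W∪X}(k) = ∑_{S∈a} hh (w+g) (k-|S|d) - ∑_S DD_{W∪X}(k-|S|d)`, and
`∑_Λ DD_{W∪X}(k') ≥ ∑_Λ ∑_I DD_W(k'-|I|) + avg (A ↦ ∑_Λ [DD(proc a A)(k') - DD a (k') + ∑_p (DD(col)(k'-d) - DD a (k'-d))])`.
Replace `-∑_S DD_b(k-|S|d)` by `Th_b(k) - n_b(k)`; the `n`-terms cancel by `sum_hh` and `count_flag`.
The term `TH a k` of `I = ∅` cancels with `-TH a k`, and `avg (A ↦ |A|) = length / 2`.
`TH_weight`: `∑_{∅≠I⊆X} TH a (k-|I|) - (s/2) TH a (k-d) = ∑_{∅≠I, I∉slots} TH a (k-|I|) + (s/2) TH a (k-d)` (the slots are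
`s` different sets of cardinality `d`), every coefficient is `≥ 0`, so it is at most
`N M^k UW ∑_{∅≠I⊆X} M^(-|I|) ≤ N M^k UW 2^|X| / M`.
-/

namespace H64SRL

open Finset H67SR H67SR.SqA

variable {σ : Type*} [DecidableEq σ] [Fintype σ] {m : ℕ}

theorem avg_mono (js : List (Fin m)) {F G : List (Fin m) → ℝ} (h : ∀ A, F A ≤ G A) :
    avg js F ≤ avg js G := by
  induction js generalizing F G with
  | nil => exact h []
  | cons j js ih =>
    change (avg js F + avg js (fun l => F (j :: l))) / 2 ≤
      (avg js G + avg js (fun l => G (j :: l))) / 2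
    have h1 := ih h
    have h2 := ih (F := fun l => F (j :: l)) (G := fun l => G (j :: l)) (fun A => h (j :: A))
    linarith

private theorem threc_avg_add (js : List (Fin m)) (F G : List (Fin m) → ℝ) :
    avg js (fun A => F A + G A) = avg js F + avg js G := by
  induction js generalizing F G with
  | nil => rfl
  | cons j js ih =>
    change (avg js (fun A => F A + G A) + avg js (fun l => F (j :: l) + G (j :: l))) / 2 =
      (avg js F + avg js (fun l => F (j :: l))) / 2 + (avg js G + avg js (fun l => G (j :: l))) / 2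
    rw [ih F G, ih (fun l => F (j :: l)) (fun l => G (j :: l))]
    ring

private theorem threc_avg_const (js : List (Fin m)) (c : ℝ) : avg js (fun _ => c) = c := by
  induction js with
  | nil => rfl
  | cons j js ih =>
    change (avg js (fun _ => c) + avg js (fun _ => c)) / 2 = c
    rw [ih]
    ring

private theorem threc_avg_mul (js : List (Fin m)) (c : ℝ) (F : List (Fin m) → ℝ) :
    avg js (fun A => c * F A) = c * avg js F := by
  induction js generalizing F with
  | nil => rfl
  | cons j js ih =>
    change (avg js (fun A => c * F A) + avg js (fun l => c * F (j :: l))) / 2 =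
      c * ((avg js F + avg js (fun l => F (j :: l))) / 2)
    rw [ih F, ih (fun l => F (j :: l))]
    ring

private theorem threc_avg_sum {ι : Type*} (s : Finset ι) (js : List (Fin m))
    (F : ι → List (Fin m) → ℝ) :
    ∑ i ∈ s, avg js (F i) = avg js (fun A => ∑ i ∈ s, F i A) := by
  induction js generalizing F with
  | nil => rfl
  | cons j js ih =>
    change ∑ i ∈ s, (avg js (F i) + avg js (fun l => F i (j :: l))) / 2 =
      (avg js (fun A => ∑ i ∈ s, F i A) + avg js (fun l => ∑ i ∈ s, F i (j :: l))) / 2
    rw [← Finset.sum_div, Finset.sum_add_distrib, ih F, ih (fun i l => F i (j :: l))]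

private theorem threc_list_sum {ι τ : Type*} (s : Finset ι) (L : List τ) (G : ι → τ → ℝ) :
    ∑ i ∈ s, (L.map (G i)).sum = (L.map fun p => ∑ i ∈ s, G i p).sum := by
  induction L with
  | nil => simp
  | cons p L ih =>
    simp only [List.map_cons, List.sum_cons]
    rw [Finset.sum_add_distrib, ih]

theorem avg_length (js : List (Fin m)) : avg js (fun A => (A.length : ℝ)) = js.length / 2 := by
  induction js with
  | nil => simp [avg]
  | cons j js ih =>
    change (avg js (fun A => (A.length : ℝ)) + avg js (fun l => ((j :: l).length : ℝ))) / 2 = _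
    have h1 : (fun l : List (Fin m) => ((j :: l).length : ℝ)) = fun l => (l.length : ℝ) + 1 := by
      funext l
      simp
    rw [h1, threc_avg_add js (fun l => (l.length : ℝ)) (fun _ => 1), threc_avg_const, ih]
    simp only [List.length_cons]
    push_cast
    ring

private theorem threc_count_step (w : ℕ) (d : ℤ) {a b : Finset (Finset (Fin m))} (hba : b ⊆ a)
    (j : Fin m) (k : ℤ) :
    ∑ S ∈ bp a b j, hh w (k - S.card * d) - ∑ S ∈ b, hh w (k - S.card * d) +
      (∑ S ∈ col a b j, hh w (k - d - S.card * d) - ∑ S ∈ a, hh w (k - d - S.card * d)) = 0 := by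
  have h1 : ∑ S ∈ b, hh w (k - S.card * d) = ∑ S ∈ bp a b j, hh w (k - S.card * d) +
      ∑ S ∈ b.filter (fun S => ¬ S.erase j ∈ a), hh w (k - S.card * d) := by
    unfold bp
    rw [Finset.sum_filter_add_sum_filter_not]
  have h2 : ∑ S ∈ col a b j, hh w (k - d - S.card * d) = ∑ S ∈ a, hh w (k - d - S.card * d) +
      ∑ S ∈ (Finset.univ.filter fun S => insert j S ∈ b).filter (fun S => S ∉ a),
        hh w (k - d - S.card * d) := by
    unfold col
    have h3 : a ∪ (Finset.univ.filter fun S => insert j S ∈ b) =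
        a ∪ (Finset.univ.filter fun S => insert j S ∈ b).filter (fun S => S ∉ a) := by
      ext S
      simp only [Finset.mem_union, Finset.mem_filter, Finset.mem_univ, true_and]
      tauto
    rw [h3, Finset.sum_union]
    rw [Finset.disjoint_left]
    intro S hS hS'
    exact (Finset.mem_filter.1 hS').2 hS
  have h4 : ∑ S ∈ b.filter (fun S => ¬ S.erase j ∈ a), hh w (k - S.card * d) =
      ∑ S ∈ (Finset.univ.filter fun S => insert j S ∈ b).filter (fun S => S ∉ a),
        hh w (k - d - S.card * d) := by
    refine Finset.sum_nbij' (fun S => S.erase j) (fun T => insert j T) ?_ ?_ ?_ ?_ ?_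
    · intro S hS
      rw [Finset.mem_filter] at hS
      have hj : j ∈ S := by
        by_contra hj
        apply hS.2
        rw [Finset.erase_eq_of_notMem hj]
        exact hba hS.1
      simp only [Finset.mem_filter, Finset.mem_univ, true_and]
      rw [Finset.insert_erase hj]
      exact hS
    · intro T hT
      simp only [Finset.mem_filter, Finset.mem_univ, true_and] at hT
      have hj : j ∉ T := by
        intro hj
        apply hT.2
        have := hT.1
        rw [Finset.insert_eq_of_mem hj] at this
        exact hba this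
      rw [Finset.mem_filter, Finset.erase_insert hj]
      exact hT
    · intro S hS
      rw [Finset.mem_filter] at hS
      have hj : j ∈ S := by
        by_contra hj
        apply hS.2
        rw [Finset.erase_eq_of_notMem hj]
        exact hba hS.1
      exact Finset.insert_erase hj
    · intro T hT
      simp only [Finset.mem_filter, Finset.mem_univ, true_and] at hT
      have hj : j ∉ T := by
        intro hj
        apply hT.2
        have := hT.1
        rw [Finset.insert_eq_of_mem hj] at this
        exact hba this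
      exact Finset.erase_insert hj
    · intro S hS
      rw [Finset.mem_filter] at hS
      have hj : j ∈ S := by
        by_contra hj
        apply hS.2
        rw [Finset.erase_eq_of_notMem hj]
        exact hba hS.1
      congr 1
      rw [Finset.card_erase_of_mem hj, Nat.cast_sub (Finset.card_pos.2 ⟨j, hj⟩)]
      push_cast
      ring
  rw [h1, h2, h4]
  ring

private theorem threc_count_list (w : ℕ) (d : ℤ) (a : Finset (Finset (Fin m)))
    (A : List (Fin m)) (k : ℤ) : ∀ pre : List (Fin m),
    ∑ S ∈ proc a (pre ++ A), hh w (k - S.card * d) - ∑ S ∈ proc a pre, hh w (k - S.card * d) +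
      ((spl pre A).map fun p => ∑ S ∈ col a (proc a p.1) p.2, hh w (k - d - S.card * d) -
        ∑ S ∈ a, hh w (k - d - S.card * d)).sum = 0 := by
  induction A with
  | nil =>
    intro pre
    rw [List.append_nil]
    simp [spl]
  | cons j js ih =>
    intro pre
    have h1 := ih (pre ++ [j])
    have h2 := threc_count_step w d (proc_subset a pre) j k
    rw [List.append_assoc, List.singleton_append] at h1
    rw [← proc_append] at h2
    change _ + (((pre, j) :: spl (pre ++ [j]) js).map fun p =>
      ∑ S ∈ col a (proc a p.1) p.2, hh w (k - d - S.card * d) -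
        ∑ S ∈ a, hh w (k - d - S.card * d)).sum = 0
    rw [List.map_cons, List.sum_cons]
    linarith

theorem count_flag (w : ℕ) (d : ℤ) (a : Finset (Finset (Fin m))) (A : List (Fin m)) (k : ℤ) :
    ∑ S ∈ proc a A, hh w (k - S.card * d) - ∑ S ∈ a, hh w (k - S.card * d) +
      ((spl [] A).map fun p => ∑ S ∈ col a (proc a p.1) p.2, hh w (k - d - S.card * d) -
        ∑ S ∈ a, hh w (k - d - S.card * d)).sum = 0 := by
  have h := threc_count_list w d a A k []
  rw [List.nil_append, proc_nil] at h
  exact h

/-- the sum of the dimensions over all shifts and all forms -/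
private noncomputable def threcD (σ : Type*) [DecidableEq σ] [Fintype σ] (m d : ℕ) (W : Finset σ)
    (b : Finset (Finset (Fin m))) (k : ℤ) : ℝ :=
  ∑ S : Finset (Fin m), ∑ Λ ∈ Om σ m d, DD W (d : ℤ) (rl W Λ) b (k - S.card * d)

/-- the expected number -/
private noncomputable def threcN (d w : ℕ) (b : Finset (Finset (Fin m))) (k : ℤ) : ℝ :=
  ∑ S ∈ b, hh w (k - S.card * d)

private theorem threc_TH (d : ℕ) (W : Finset σ) (b : Finset (Finset (Fin m))) (k : ℤ) :
    TH σ m d W b k = (Om σ m d).card * threcN d W.card b k - threcD σ m d W b k := by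
  unfold TH Th threcN threcD
  rw [Finset.sum_sub_distrib, Finset.sum_const, nsmul_eq_mul]
  congr 1
  rw [Finset.sum_comm]

omit [Fintype σ] in
private theorem threc_N_union {W X : Finset σ} (hWX : Disjoint W X) (d : ℕ)
    (a : Finset (Finset (Fin m))) (k : ℤ) :
    threcN d (W ∪ X).card a k = ∑ I ∈ X.powerset, threcN d W.card a (k - I.card) := by
  unfold threcN
  rw [Finset.sum_comm]
  refine Finset.sum_congr rfl fun S _ => ?_
  rw [Finset.card_union_of_disjoint hWX, ← sum_hh]
  refine Finset.sum_congr rfl fun I _ => ?_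
  congr 1
  ring

private theorem threc_D {W X : Finset σ} (hWX : Disjoint W X) {d : ℕ} (hd : 1 ≤ d)
    (a : Finset (Finset (Fin m))) (k : ℤ) (sl : List (Finset σ × Fin m))
    (hnd : (sl.map Prod.fst).Nodup) (hsl : ∀ p ∈ sl, p.1 ⊆ X ∧ p.1.card = d) :
    ∑ I ∈ X.powerset, threcD σ m d W a (k - I.card) +
      avg (sl.map Prod.snd) (fun A => threcD σ m d W (proc a A) k - threcD σ m d W a k +
        ((spl [] A).map fun p => threcD σ m d W (col a (proc a p.1) p.2) (k - d) -
          threcD σ m d W a (k - d)).sum) ≤ threcD σ m d (W ∪ X) a k := by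
  have h1 : ∀ S : Finset (Fin m),
      ∑ Λ ∈ Om σ m d, ∑ I ∈ X.powerset, DD W (d : ℤ) (rl W Λ) a (k - S.card * d - I.card) +
        avg (sl.map Prod.snd) (fun A => ∑ Λ ∈ Om σ m d,
          (DD W (d : ℤ) (rl W Λ) (proc a A) (k - S.card * d) -
            DD W (d : ℤ) (rl W Λ) a (k - S.card * d) +
            ((spl [] A).map fun p =>
              DD W (d : ℤ) (rl W Λ) (col a (proc a p.1) p.2) (k - S.card * d - d) -
              DD W (d : ℤ) (rl W Λ) a (k - S.card * d - d)).sum)) ≤
      ∑ Λ ∈ Om σ m d, DD (W ∪ X) (d : ℤ) (rl (W ∪ X) Λ) a (k - S.card * d) := by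
    intro S
    have h2 := key_ineq hWX hd a (k - S.card * d) sl hnd hsl
    have h3 : avg (sl.map Prod.snd) (fun A => ∑ Λ ∈ Om σ m d,
          (DD W (d : ℤ) (rl W Λ) (proc a A) (k - S.card * d) -
            DD W (d : ℤ) (rl W Λ) a (k - S.card * d) +
            ((spl [] A).map fun p =>
              DD W (d : ℤ) (rl W Λ) (col a (proc a p.1) p.2) (k - S.card * d - d) -
              DD W (d : ℤ) (rl W Λ) a (k - S.card * d - d)).sum)) ≤
        avg (sl.map Prod.snd) (fun A => ∑ Λ ∈ Om σ m d,
          (nd (Rel W d (rl W Λ) a (k - S.card * d)) -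
            nd (Rel W d (rl W Λ) a (k - S.card * d) ⊓
              LA W d (rl W Λ) a (k - S.card * d) A))) := by
      apply avg_mono
      intro A
      refine Finset.sum_le_sum fun Λ _ => ?_
      exact flag_list W (d : ℤ) (rl W Λ) a A (k - S.card * d)
    linarith
  have h4 := Finset.sum_le_sum fun S (_ : S ∈ (Finset.univ : Finset (Finset (Fin m)))) => h1 S
  rw [Finset.sum_add_distrib, threc_avg_sum] at h4
  have h5 : ∑ S : Finset (Fin m), ∑ Λ ∈ Om σ m d, ∑ I ∈ X.powerset,
      DD W (d : ℤ) (rl W Λ) a (k - S.card * d - I.card) =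
      ∑ I ∈ X.powerset, threcD σ m d W a (k - I.card) := by
    have h5' : ∑ I ∈ X.powerset, threcD σ m d W a (k - I.card) =
        ∑ S : Finset (Fin m), ∑ I ∈ X.powerset, ∑ Λ ∈ Om σ m d,
          DD W (d : ℤ) (rl W Λ) a (k - I.card - S.card * d) := by
      unfold threcD
      exact Finset.sum_comm
    rw [h5']
    refine Finset.sum_congr rfl fun S _ => ?_
    rw [Finset.sum_comm]
    refine Finset.sum_congr rfl fun I _ => ?_
    refine Finset.sum_congr rfl fun Λ _ => ?_
    congr 1
    ring
  have h6 : (fun A : List (Fin m) => ∑ S : Finset (Fin m), ∑ Λ ∈ Om σ m d,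
          (DD W (d : ℤ) (rl W Λ) (proc a A) (k - S.card * d) -
            DD W (d : ℤ) (rl W Λ) a (k - S.card * d) +
            ((spl [] A).map fun p =>
              DD W (d : ℤ) (rl W Λ) (col a (proc a p.1) p.2) (k - S.card * d - d) -
              DD W (d : ℤ) (rl W Λ) a (k - S.card * d - d)).sum)) =
      fun A => threcD σ m d W (proc a A) k - threcD σ m d W a k +
        ((spl [] A).map fun p => threcD σ m d W (col a (proc a p.1) p.2) (k - d) -
          threcD σ m d W a (k - d)).sum := by
    funext A
    have h7 : ∀ S : Finset (Fin m), ∑ Λ ∈ Om σ m d,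
          (DD W (d : ℤ) (rl W Λ) (proc a A) (k - S.card * d) -
            DD W (d : ℤ) (rl W Λ) a (k - S.card * d) +
            ((spl [] A).map fun p =>
              DD W (d : ℤ) (rl W Λ) (col a (proc a p.1) p.2) (k - S.card * d - d) -
              DD W (d : ℤ) (rl W Λ) a (k - S.card * d - d)).sum) =
        ∑ Λ ∈ Om σ m d, DD W (d : ℤ) (rl W Λ) (proc a A) (k - S.card * d) -
          ∑ Λ ∈ Om σ m d, DD W (d : ℤ) (rl W Λ) a (k - S.card * d) +
          ((spl [] A).map fun p => ∑ Λ ∈ Om σ m d,
              (DD W (d : ℤ) (rl W Λ) (col a (proc a p.1) p.2) (k - S.card * d - d) -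
              DD W (d : ℤ) (rl W Λ) a (k - S.card * d - d))).sum := by
      intro S
      rw [Finset.sum_add_distrib, Finset.sum_sub_distrib, threc_list_sum]
    rw [Finset.sum_congr rfl (fun S _ => h7 S), Finset.sum_add_distrib, Finset.sum_sub_distrib,
      threc_list_sum]
    unfold threcD
    congr 2
    apply List.map_congr_left
    intro p _
    rw [← Finset.sum_sub_distrib]
    refine Finset.sum_congr rfl fun S _ => ?_
    rw [Finset.sum_sub_distrib]
    have h8 : k - (S.card : ℤ) * d - d = k - d - (S.card : ℤ) * d := by ring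
    rw [h8]
  rw [h5, h6] at h4
  exact h4

theorem TH_step {W X : Finset σ} (hWX : Disjoint W X) {d : ℕ} (hd : 1 ≤ d)
    (a : Finset (Finset (Fin m))) (k : ℤ) (sl : List (Finset σ × Fin m))
    (hnd : (sl.map Prod.fst).Nodup) (hsl : ∀ p ∈ sl, p.1 ⊆ X ∧ p.1.card = d) :
    TH σ m d (W ∪ X) a k ≤
      avg (sl.map Prod.snd) (fun A => TH σ m d W (proc a A) k +
        ((spl [] A).map fun p => TH σ m d W (col a (proc a p.1) p.2) (k - d)).sum) +
      (∑ I ∈ X.powerset.erase ∅, TH σ m d W a (k - I.card) -
        sl.length / 2 * TH σ m d W a (k - d)) := by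
  have h1 := threc_D hWX hd a k sl hnd hsl
  have h2 : (fun A : List (Fin m) => threcD σ m d W (proc a A) k - threcD σ m d W a k +
        ((spl [] A).map fun p => threcD σ m d W (col a (proc a p.1) p.2) (k - d) -
          threcD σ m d W a (k - d)).sum) =
      fun A => (-1) * (TH σ m d W (proc a A) k +
        ((spl [] A).map fun p => TH σ m d W (col a (proc a p.1) p.2) (k - d)).sum) +
        (TH σ m d W a k + TH σ m d W a (k - d) * (A.length : ℝ)) := by
    funext A
    have h3 := count_flag W.card (d : ℤ) a A k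
    have h4 : ∀ L : List (List (Fin m) × Fin m),
        (L.map fun p => threcD σ m d W (col a (proc a p.1) p.2) (k - d) -
          threcD σ m d W a (k - d)).sum =
        (Om σ m d).card * (L.map fun p =>
          ∑ S ∈ col a (proc a p.1) p.2, hh W.card (k - d - S.card * d) -
            ∑ S ∈ a, hh W.card (k - d - S.card * d)).sum -
        (L.map fun p => TH σ m d W (col a (proc a p.1) p.2) (k - d)).sum +
          TH σ m d W a (k - d) * (L.length : ℝ) := by
      intro L
      induction L with
      | nil => simp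
      | cons p L ih =>
        simp only [List.map_cons, List.sum_cons, List.length_cons]
        rw [ih]
        have h5 := threc_TH (σ := σ) d W (col a (proc a p.1) p.2) (k - d)
        have h6 := threc_TH (σ := σ) d W a (k - d)
        unfold threcN at h5 h6
        push_cast
        linear_combination h5 - h6
    have h5 := threc_TH (σ := σ) d W (proc a A) k
    have h6 := threc_TH (σ := σ) d W a k
    unfold threcN at h5 h6
    rw [h4, spl_length]
    linear_combination (Om σ m d).card * h3 + h5 - h6
  have h2' : ∀ (js : List (Fin m)) (P : List (Fin m) → ℝ) (c1 c2 : ℝ),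
      avg js (fun A => (-1) * P A + (c1 + c2 * (A.length : ℝ))) =
        -avg js P + (c1 + c2 * ((js.length : ℝ) / 2)) := by
    intro js P c1 c2
    rw [threc_avg_add js (fun A => (-1) * P A) (fun A => c1 + c2 * (A.length : ℝ)),
      threc_avg_mul js (-1) P, threc_avg_add js (fun _ => c1) (fun A => c2 * (A.length : ℝ)),
      threc_avg_const, threc_avg_mul js c2 (fun A => (A.length : ℝ)), avg_length]
    ring
  rw [h2, h2', List.length_map] at h1
  have h7 := threc_TH (σ := σ) d (W ∪ X) a k
  rw [threc_N_union hWX] at h7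
  have h8 : ∑ I ∈ X.powerset, TH σ m d W a (k - I.card) =
      (Om σ m d).card * ∑ I ∈ X.powerset, threcN d W.card a (k - I.card) -
        ∑ I ∈ X.powerset, threcD σ m d W a (k - I.card) := by
    rw [Finset.mul_sum, ← Finset.sum_sub_distrib]
    exact Finset.sum_congr rfl fun I _ => threc_TH d W a (k - I.card)
  have h9 : ∑ I ∈ X.powerset.erase ∅, TH σ m d W a (k - I.card) + TH σ m d W a k =
      ∑ I ∈ X.powerset, TH σ m d W a (k - I.card) := by
    simp
  rw [h7]
  linarith

theorem TH_weight {W X : Finset σ} (hWX : Disjoint W X) {d : ℕ} (hd : 1 ≤ d)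
    (a : Finset (Finset (Fin m))) (sl : List (Finset σ × Fin m))
    (hnd : (sl.map Prod.fst).Nodup) (hsl : ∀ p ∈ sl, p.1 ⊆ X ∧ p.1.card = d)
    {N M : ℝ} (hN : 0 ≤ N) (hM : 1 ≤ M) {K : ℤ} (UP : List (Fin m) → ℝ)
    (UC : List (Fin m) → Fin m → ℝ) (UW : ℝ) (hUC : ∀ A j, 0 ≤ UC A j) (hUW : 0 ≤ UW)
    (hP : ∀ A, ∀ k ≤ K, TH σ m d W (proc a A) k ≤ N * M ^ k * UP A)
    (hC : ∀ A j, ∀ k ≤ K, TH σ m d W (col a (proc a A) j) k ≤ N * M ^ k * UC A j)
    (hW : ∀ k ≤ K, TH σ m d W a k ≤ N * M ^ k * UW) {k : ℤ} (hk : k ≤ K) :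
    TH σ m d (W ∪ X) a k ≤ N * M ^ k *
      (avg (sl.map Prod.snd) (fun A => UP A +
        (M ^ d)⁻¹ * ((spl [] A).map fun p => UC p.1 p.2).sum) + 2 ^ X.card / M * UW) := by
  have hM0 : 0 < M := lt_of_lt_of_le one_pos hM
  have hstep := TH_step hWX hd a k sl hnd hsl
  have hkd : k - d ≤ K := by
    have : (0 : ℤ) ≤ d := Int.natCast_nonneg d
    linarith
  have hMkd : M ^ (k - d) = M ^ k * (M ^ d)⁻¹ := by
    rw [zpow_sub₀ hM0.ne', zpow_natCast, div_eq_mul_inv]
  -- first part
  have h1 : avg (sl.map Prod.snd) (fun A => TH σ m d W (proc a A) k +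
        ((spl [] A).map fun p => TH σ m d W (col a (proc a p.1) p.2) (k - d)).sum) ≤
      N * M ^ k * avg (sl.map Prod.snd) (fun A => UP A +
        (M ^ d)⁻¹ * ((spl [] A).map fun p => UC p.1 p.2).sum) := by
    rw [← threc_avg_mul]
    apply avg_mono
    intro A
    have h2 : ∀ L : List (List (Fin m) × Fin m),
        (L.map fun p => TH σ m d W (col a (proc a p.1) p.2) (k - d)).sum ≤
          N * M ^ k * ((M ^ d)⁻¹ * (L.map fun p => UC p.1 p.2).sum) := by
      intro L
      induction L with
      | nil => simp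
      | cons p L ih =>
        simp only [List.map_cons, List.sum_cons]
        have h3 := hC p.1 p.2 (k - d) hkd
        rw [hMkd] at h3
        calc _ ≤ N * (M ^ k * (M ^ d)⁻¹) * UC p.1 p.2 +
              N * M ^ k * ((M ^ d)⁻¹ * (L.map fun p => UC p.1 p.2).sum) := add_le_add h3 ih
          _ = _ := by ring
    have h4 := hP A k hk
    have h5 := h2 (spl [] A)
    calc _ ≤ N * M ^ k * UP A +
          N * M ^ k * ((M ^ d)⁻¹ * ((spl [] A).map fun p => UC p.1 p.2).sum) := add_le_add h4 h5
      _ = _ := by ring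
  -- second part
  set c : ℝ := N * (M ^ k / M) * UW with hc
  have hMk : 0 < M ^ k := zpow_pos hM0 k
  have hc0 : 0 ≤ c := by positivity
  have hterm : ∀ i : ℕ, 1 ≤ i → TH σ m d W a (k - i) ≤ c := by
    intro i hi
    have hki : k - i ≤ K := by
      have : (0 : ℤ) ≤ i := Int.natCast_nonneg i
      linarith
    refine (hW (k - i) hki).trans ?_
    rw [hc]
    have h6 : M ^ (k - i) ≤ M ^ k / M := by
      have h6' : M ^ k / M = M ^ (k - 1) := by rw [zpow_sub_one₀ hM0.ne', div_eq_mul_inv]
      rw [h6']
      apply zpow_le_zpow_right₀ hM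
      have : (1 : ℤ) ≤ i := by exact_mod_cast hi
      linarith
    gcongr
  set slots : Finset (Finset σ) := (sl.map Prod.fst).toFinset with hslots
  have hcard : slots.card = sl.length := by
    rw [hslots, List.toFinset_card_of_nodup hnd, List.length_map]
  have hmem : ∀ I ∈ slots, I ⊆ X ∧ I.card = d := by
    intro I hI
    rw [hslots, List.mem_toFinset, List.mem_map] at hI
    obtain ⟨p, hp, rfl⟩ := hI
    exact hsl p hp
  have hsub : slots ⊆ X.powerset.erase ∅ := by
    intro I hI
    obtain ⟨h7, h8⟩ := hmem I hI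
    rw [Finset.mem_erase, Finset.mem_powerset]
    refine ⟨?_, h7⟩
    rintro rfl
    rw [Finset.card_empty] at h8
    omega
  have h9 := Finset.sum_sdiff (f := fun I : Finset σ => TH σ m d W a (k - I.card)) hsub
  have h10 : ∑ I ∈ slots, TH σ m d W a (k - I.card) = sl.length * TH σ m d W a (k - d) := by
    rw [Finset.sum_congr rfl (fun I hI => by rw [(hmem I hI).2]), Finset.sum_const, hcard,
      nsmul_eq_mul]
  have h11 : ∑ I ∈ X.powerset.erase ∅ \ slots, TH σ m d W a (k - I.card) ≤
      ((X.powerset.erase ∅ \ slots).card : ℝ) * c := by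
    rw [← nsmul_eq_mul, ← Finset.sum_const]
    refine Finset.sum_le_sum fun I hI => hterm _ ?_
    rw [Finset.mem_sdiff, Finset.mem_erase] at hI
    exact Finset.card_pos.2 (Finset.nonempty_iff_ne_empty.2 hI.1.1)
  have h12 : ((X.powerset.erase ∅ \ slots).card : ℝ) + sl.length ≤ 2 ^ X.card := by
    have h13 : (X.powerset.erase ∅ \ slots).card + slots.card = (X.powerset.erase ∅).card :=
      Finset.card_sdiff_add_card_eq_card hsub
    have h14 : (X.powerset.erase ∅).card ≤ 2 ^ X.card := by
      rw [← Finset.card_powerset]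
      exact Finset.card_le_card (Finset.erase_subset _ _)
    rw [hcard] at h13
    have h15 : (X.powerset.erase ∅ \ slots).card + sl.length ≤ 2 ^ X.card := by omega
    exact_mod_cast h15
  have h16 := hterm d hd
  have hs0 : (0 : ℝ) ≤ sl.length := Nat.cast_nonneg _
  have h17 : ∑ I ∈ X.powerset.erase ∅, TH σ m d W a (k - I.card) -
        sl.length / 2 * TH σ m d W a (k - d) ≤ 2 ^ X.card * c := by
    rw [← h9, h10]
    have h18 : (sl.length : ℝ) / 2 * TH σ m d W a (k - d) ≤ sl.length / 2 * c :=
      mul_le_mul_of_nonneg_left h16 (by positivity)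
    have h19 : (((X.powerset.erase ∅ \ slots).card : ℝ) + sl.length) * c ≤ 2 ^ X.card * c :=
      mul_le_mul_of_nonneg_right h12 hc0
    have h20 : 0 ≤ (sl.length : ℝ) / 2 * c := by positivity
    nlinarith
  have h21 : (2 : ℝ) ^ X.card * c = N * M ^ k * (2 ^ X.card / M * UW) := by
    rw [hc]
    ring
  rw [mul_add]
  linarith

end H64SRL
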