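import Pool.Agent.H64.SRL.Path
import Pool.Agent.H64.SRL.Base
import Pool.Agent.H64.SRL.Reg

/-!
# [SRL-TOTAL] The number of non-regular tuples, all parameters explicit
-/

namespace H64SRL

open Finset H67SR H67SR.SqA

/-- the number of subsets with at most `r` elements -/
def sml (n r : ℕ) : ℕ := ((Finset.univ : Finset (Finset (Fin n))).filter fun S => S.card ≤ r).card

/-- the defects are integers -/
private theorem total_int {n m : ℕ} (W : Finset (Fin n)) (d : ℤ) (α : Fin m → SqA (Fin n))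
    (a : Finset (Finset (Fin m))) (k : ℤ) : ∃ z : ℤ, Th W d α a k = z := by
  have h1 : ∀ S : Finset (Fin m), ∃ z : ℤ, hh W.card (k - S.card * d) = z :=
    fun S => hh_int _ _
  choose f hf using h1
  have h2 : ∀ S : Finset (Fin m), ∃ z : ℤ, DD W d α a (k - S.card * d) = z :=
    fun S => ⟨(Module.finrank (ZMod 2) (AddSubgroup.toZModSubmodule 2
      (Id W d α a (k - S.card * d))) : ℕ), by unfold DD nd; push_cast; rfl⟩
  choose g hg using h2
  refine ⟨∑ S ∈ a, f S - ∑ S, g S, ?_⟩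
  unfold Th
  simp only [hf, hg]
  push_cast
  rfl

/-- the defect of `JJ univ` vanishes in negative degrees -/
private theorem total_neg {n m : ℕ} {W : Finset (Fin n)} {d : ℤ} (hd : 1 ≤ d)
    {α : Fin m → SqA (Fin n)} (hα : ∀ l, α l ∈ H W d) {k : ℤ} (hk : k < 0) :
    Th W d α (JJ Finset.univ) k = 0 := by
  have h1 : ∀ S : Finset (Fin m), k - S.card * d < 0 := by
    intro S
    have : (0 : ℤ) ≤ S.card * d := by positivity
    omega
  apply le_antisymm _ (Th_J_nonneg hd hα k)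
  unfold Th
  have h2 : ∑ S ∈ JJ (m := m) Finset.univ, hh W.card (k - S.card * d) = 0 :=
    Finset.sum_eq_zero fun S _ => hh_neg _ (h1 S)
  have h3 : 0 ≤ ∑ S : Finset (Fin m), DD W d α (JJ Finset.univ) (k - S.card * d) :=
    Finset.sum_nonneg fun S _ => DD_nonneg _ _ _ _ _
  rw [h2]
  linarith

open Classical in
/-- the non-regular tuples are counted by the defects -/
private theorem total_count {n d : ℕ} (hd : 1 ≤ d) (K : ℕ) :
    (((Om (Fin n) n d).filter fun Λ => ¬ RegL d n K Λ).card : ℝ) ≤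
      ∑ k ∈ range (K + 1), TH (Fin n) n d Finset.univ (JJ Finset.univ) (k : ℤ) := by
  have hd' : (1 : ℤ) ≤ d := by exact_mod_cast hd
  unfold TH
  rw [Finset.sum_comm, Finset.card_filter]
  push_cast
  refine Finset.sum_le_sum fun Λ hΛ => ?_
  have hα : ∀ l, rl (Finset.univ : Finset (Fin n)) Λ l ∈ H (Finset.univ : Finset (Fin n)) (d : ℤ) :=
    fun l => res_mem_H (mem_Om.1 hΛ l)
  have hnn : ∀ k ∈ range (K + 1),
      0 ≤ Th Finset.univ (d : ℤ) (rl Finset.univ Λ) (JJ Finset.univ) (k : ℤ) :=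
    fun k _ => Th_J_nonneg hd' hα k
  by_cases h : RegL d n K Λ
  · rw [if_neg (not_not.2 h)]
    exact Finset.sum_nonneg hnn
  · rw [if_pos h]
    by_contra hlt
    apply h
    apply regL_of_free hd hΛ
    apply free_of_Th_J
    intro k hk
    rcases lt_or_ge k 0 with hk0 | hk0
    · exact total_neg hd' hα hk0
    obtain ⟨k', rfl⟩ := Int.eq_ofNat_of_zero_le hk0
    have hk' : k' ≤ K := by exact_mod_cast hk
    have h1 := Finset.single_le_sum hnn (Finset.mem_range.2 (Nat.lt_succ_of_le hk'))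
    have h2 := Th_J_nonneg hd' hα (k' : ℤ)
    obtain ⟨z, hz⟩ := total_int Finset.univ (d : ℤ) (rl Finset.univ Λ) (JJ Finset.univ) (k' : ℤ)
    have h3 := lt_of_le_of_lt h1 (not_le.1 hlt)
    rw [hz] at h2 h3 ⊢
    have h4 : (0 : ℤ) ≤ z := by exact_mod_cast h2
    have h5 : z < (1 : ℤ) := by exact_mod_cast h3
    have h6 : z = 0 := by omega
    rw [h6]
    simp

open Classical in
/-- the bound for each degree -/
private theorem total_deg {n d : ℕ} (hd : 1 ≤ d) (hn : 1 ≤ n) {g s B τ K q : ℕ}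
    (hs : s ≤ g.choose d) (hB : 1 ≤ B) (hg : 8 * B * τ * g ≤ n) (hq : K < (q + 1) * d)
    (hqB : q ≤ 2 * B * τ) {M ζ ρ pA : ℝ} (hM : 1 ≤ M) (hζ0 : 0 < ζ)
    (hζ : 2 ^ g / M + (M ^ d)⁻¹ * s ≤ ζ) (hζ1 : ζ ≤ 1) (hρ0 : 0 < ρ) (hρ1 : ρ ≤ 1)
    (hρ : s * (τ : ℝ) / (2 * n) + (1 - (2 * B * τ : ℕ) / (2 * n)) ^ s ≤ ρ) (hpA0 : 0 ≤ pA)
    (hpA1 : pA ≤ 1)
    (hpA : ∀ W : Finset (Fin n), n ≤ W.card + 8 * B * τ * g → ∀ Bad : Finset (Fin n),
      Bad.card ≤ 4 * B * τ →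
      (((Om (Fin n) n d).filter fun Λ => ¬ Free W (d : ℤ) (rl W Λ) Bad (K : ℤ)).card : ℝ) ≤
        pA * (Om (Fin n) n d).card) (k : ℕ) (hk : k ≤ K) :
    TH (Fin n) n d Finset.univ (JJ Finset.univ) (k : ℤ) ≤
      (Om (Fin n) n d).card * M ^ K * ((1 + M⁻¹) ^ (2 * n) * (pA * (1 + ζ) ^ (8 * B * τ) +
        (2 ^ (8 * B * τ) * ζ ^ τ + (sml n (2 * B * τ) : ℝ) ^ 2 *
          (3 ^ (8 * B * τ) * ρ ^ (2 * B * τ))))) := by
  have hM0 : 0 < M := lt_of_lt_of_le one_pos hM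
  have hn0 : (0 : ℝ) < n := by exact_mod_cast hn
  obtain ⟨X, _, hX⟩ : ∃ X ⊆ (Finset.univ : Finset (Fin n)), X.card = 8 * B * τ * g := by
    apply Finset.exists_subset_card_eq
    rw [Finset.card_univ, Fintype.card_fin]
    exact hg
  obtain ⟨W0, hW0⟩ : ∃ W0 : Finset (Fin n), W0 = Finset.univ \ X := ⟨_, rfl⟩
  have hW0c : W0.card + 8 * B * τ * g = n := by
    rw [hW0, Finset.card_sdiff_of_subset (Finset.subset_univ X), Finset.card_univ,
      Fintype.card_fin, hX]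
    omega
  have hWc : ((Finset.univ : Finset (Fin n)) \ W0).card = (8 * B * τ) * g := by
    rw [Finset.card_sdiff_of_subset (Finset.subset_univ W0), Finset.card_univ, Fintype.card_fin]
    omega
  have hc1 : (1 : ℝ) ≤ 1 + M⁻¹ := by
    have : 0 < M⁻¹ := inv_pos.2 hM0
    linarith
  have hV0 : (0 : ℝ) ≤ (1 + M⁻¹) ^ (2 * n) := by positivity
  have hpow : (1 + M⁻¹) ^ (n + W0.card) ≤ (1 + M⁻¹) ^ (2 * n) :=
    pow_le_pow_right₀ hc1 (by omega)
  -- the values at the base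
  obtain ⟨U, hUdef⟩ : ∃ U : List (Op n) → ℝ, U = fun h =>
      if Loc (4 * B * τ) q (idl h) then pA * (1 + M⁻¹) ^ (2 * n) else (1 + M⁻¹) ^ (2 * n) :=
    ⟨_, rfl⟩
  have hU0 : ∀ h, 0 ≤ U h := by
    intro h
    rw [hUdef]
    dsimp only
    split_ifs <;> positivity
  have hN : (0 : ℝ) ≤ (Om (Fin n) n d).card := Nat.cast_nonneg _
  have hbase : ∀ (h : List (Op n)), ∀ k ≤ (K : ℤ),
      TH (Fin n) n d W0 (idl h) k ≤ (Om (Fin n) n d).card * M ^ k * U h := by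
    intro h k hk
    have hNM : 0 ≤ ((Om (Fin n) n d).card : ℝ) * M ^ k := mul_nonneg hN (zpow_nonneg hM0.le _)
    rw [hUdef]
    dsimp only
    split_ifs with hloc
    · have h1 := TH_loc W0 hd (Up_idl h) hq hloc hM (fun Bad hBad => hpA W0 hW0c.ge Bad hBad) hk
      refine h1.trans (mul_le_mul_of_nonneg_left ?_ hNM)
      exact mul_le_mul_of_nonneg_left hpow hpA0
    · exact (TH_trivial W0 hd (idl h) k hM).trans (mul_le_mul_of_nonneg_left hpow hNM)
  have hpath := TH_path (m := n) hn hd W0 hs hN hM U hU0 hbase (8 * B * τ) Finset.univ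
    (Finset.subset_univ _) hWc [] (k : ℤ) (by exact_mod_cast hk)
  -- the value of the recursion
  obtain ⟨Pairs, hPairs⟩ : ∃ Pairs : Finset (Finset (Fin n) × Finset (Fin n)), Pairs =
      ((Finset.univ : Finset (Finset (Fin n))).filter fun R => R.card ≤ τ) ×ˢ
        ((Finset.univ : Finset (Finset (Fin n))).filter fun C => C.card = 2 * B * τ) := ⟨_, rfl⟩
  have hτ : τ ≤ 2 * B * τ := by nlinarith
  have hPc : (Pairs.card : ℝ) ≤ (sml n (2 * B * τ) : ℝ) ^ 2 := by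
    have h1 : Pairs.card ≤ sml n (2 * B * τ) ^ 2 := by
      rw [hPairs, Finset.card_product, pow_two]
      unfold sml
      refine Nat.mul_le_mul (Finset.card_le_card ?_) (Finset.card_le_card ?_)
      · intro S hS
        rw [Finset.mem_filter] at hS ⊢
        exact ⟨hS.1, hS.2.trans hτ⟩
      · intro S hS
        rw [Finset.mem_filter] at hS ⊢
        exact ⟨hS.1, hS.2.le⟩
    exact_mod_cast h1
  have hbound := VV_bound (m := n) hn (s := s) (z := (M ^ d)⁻¹) (y := 2 ^ g / M) (ζ := ζ) (ρ := ρ)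
    (G := pA * (1 + M⁻¹) ^ (2 * n)) (V := (1 + M⁻¹) ^ (2 * n)) (by positivity) (by positivity)
    hζ hζ0 hζ1 hρ0 hρ1 (by positivity) hV0 (U := U) (8 * B * τ) τ (2 * B * τ) Pairs
    (by
      intro p hp
      rw [hPairs, Finset.mem_product, Finset.mem_filter, Finset.mem_filter] at hp
      obtain ⟨⟨_, hp1⟩, ⟨_, hp2⟩⟩ := hp
      rw [hp2]
      refine le_trans (add_le_add ?_ le_rfl) hρ
      have h1 : (p.1.card : ℝ) ≤ τ := by exact_mod_cast hp1
      gcongr)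
    (by
      intro h
      rw [hUdef]
      dsimp only
      split_ifs
      · linarith
      · have : 0 ≤ pA * (1 + M⁻¹) ^ (2 * n) := by positivity
        linarith)
    (by
      intro h hlen hnP hmiss
      have hloc : Loc (4 * B * τ) q (idl h) := by
        apply loc_of_expand h τ (2 * B * τ) q (2 * B * τ) (4 * B * τ) hnP hτ
        · nlinarith
        · rw [hlen]
          nlinarith
        · intro R C _ hR hC
          apply hmiss (R, C)
          rw [hPairs, Finset.mem_product, Finset.mem_filter, Finset.mem_filter]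
          exact ⟨⟨Finset.mem_univ _, hR⟩, ⟨Finset.mem_univ _, hC⟩⟩
      rw [hUdef]
      dsimp only
      rw [if_pos hloc])
  have hNM : 0 ≤ ((Om (Fin n) n d).card : ℝ) * M ^ (k : ℤ) :=
    mul_nonneg hN (zpow_nonneg hM0.le _)
  refine hpath.trans ?_
  have h3 : (0 : ℝ) ≤ 3 ^ (8 * B * τ) * ρ ^ (2 * B * τ) := by positivity
  have h4 : VV n s (M ^ d)⁻¹ (2 ^ g / M) U (8 * B * τ) [] ≤
      (1 + M⁻¹) ^ (2 * n) * (pA * (1 + ζ) ^ (8 * B * τ) +
        (2 ^ (8 * B * τ) * ζ ^ τ + (sml n (2 * B * τ) : ℝ) ^ 2 *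
          (3 ^ (8 * B * τ) * ρ ^ (2 * B * τ)))) := by
    refine hbound.trans ?_
    have h5 := mul_le_mul_of_nonneg_right hPc h3
    have h6 := mul_le_mul_of_nonneg_left h5 hV0
    calc _ = (1 + M⁻¹) ^ (2 * n) * (pA * (1 + ζ) ^ (8 * B * τ) + 2 ^ (8 * B * τ) * ζ ^ τ) +
          (1 + M⁻¹) ^ (2 * n) * (Pairs.card * (3 ^ (8 * B * τ) * ρ ^ (2 * B * τ))) := by ring
      _ ≤ (1 + M⁻¹) ^ (2 * n) * (pA * (1 + ζ) ^ (8 * B * τ) + 2 ^ (8 * B * τ) * ζ ^ τ) +
          (1 + M⁻¹) ^ (2 * n) * ((sml n (2 * B * τ) : ℝ) ^ 2 *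
            (3 ^ (8 * B * τ) * ρ ^ (2 * B * τ))) := by linarith
      _ = _ := by ring
  have hR0 : 0 ≤ (1 + M⁻¹) ^ (2 * n) * (pA * (1 + ζ) ^ (8 * B * τ) +
        (2 ^ (8 * B * τ) * ζ ^ τ + (sml n (2 * B * τ) : ℝ) ^ 2 *
          (3 ^ (8 * B * τ) * ρ ^ (2 * B * τ)))) := by positivity
  have hMk : M ^ (k : ℤ) ≤ M ^ K := by
    rw [zpow_natCast]
    exact pow_le_pow_right₀ hM hk
  exact mul_le_mul (mul_le_mul_of_nonneg_left hMk hN) h4
    (VV_nonneg s (by positivity) (by positivity) hU0 _ _) (by positivity)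

open Classical in
theorem total {n d : ℕ} (hd : 1 ≤ d) (hn : 1 ≤ n) {g s B τ K q : ℕ} (hs : s ≤ g.choose d)
    (hB : 1 ≤ B) (hg : 8 * B * τ * g ≤ n) (hq : K < (q + 1) * d) (hqB : q ≤ 2 * B * τ)
    {M ζ ρ pA : ℝ} (hM : 1 ≤ M) (hζ0 : 0 < ζ) (hζ : 2 ^ g / M + (M ^ d)⁻¹ * s ≤ ζ) (hζ1 : ζ ≤ 1)
    (hρ0 : 0 < ρ) (hρ1 : ρ ≤ 1)
    (hρ : s * (τ : ℝ) / (2 * n) + (1 - (2 * B * τ : ℕ) / (2 * n)) ^ s ≤ ρ) (hpA0 : 0 ≤ pA)
    (hpA1 : pA ≤ 1)
    (hpA : ∀ W : Finset (Fin n), n ≤ W.card + 8 * B * τ * g → ∀ Bad : Finset (Fin n),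
      Bad.card ≤ 4 * B * τ →
      (((Om (Fin n) n d).filter fun Λ => ¬ Free W (d : ℤ) (rl W Λ) Bad (K : ℤ)).card : ℝ) ≤
        pA * (Om (Fin n) n d).card) :
    (((Om (Fin n) n d).filter fun Λ => ¬ RegL d n K Λ).card : ℝ) ≤
      ((K + 1) * M ^ K * (1 + M⁻¹) ^ (2 * n) * (pA * (1 + ζ) ^ (8 * B * τ) +
        (2 ^ (8 * B * τ) * ζ ^ τ + (sml n (2 * B * τ) : ℝ) ^ 2 *
          (3 ^ (8 * B * τ) * ρ ^ (2 * B * τ))))) * (Om (Fin n) n d).card := by
  refine (total_count hd K).trans ?_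
  have h1 := Finset.sum_le_card_nsmul (range (K + 1))
    (fun k : ℕ => TH (Fin n) n d Finset.univ (JJ Finset.univ) (k : ℤ)) _
    (fun k hk => total_deg hd hn hs hB hg hq hqB hM hζ0 hζ hζ1 hρ0 hρ1 hρ hpA0 hpA1 hpA k
      (Nat.lt_succ_iff.1 (Finset.mem_range.1 hk)))
  refine h1.trans (le_of_eq ?_)
  rw [Finset.card_range, nsmul_eq_mul]
  push_cast
  ring

end H64SRL
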